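import Pool.Agent.W_MP_daea50_h85.Good

set_option autoImplicit false

/-!
# Theta: a closed coding in the Baire space making countably many Borel maps continuous

Let `F L`, `L : List ℕ`, be the compositions of the maps `φ i` (`F [] = id`,
`F (i :: L) x = F L (φ i x)`, so `F L (F M x) = F (M ++ L) x`).  Let `c : C → ℕ → ℕ` be a Borel injection
(e.g. from `MeasurableSpace.measurable_injection_nat_bool_of_countablySeparated`), `h' x` = the
sequence merging `c x` and `h x`.  `H x : ℕ → ℕ` lists all `h' (F L x) m` (index `(L, m)`, through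
`Denumerable (List ℕ × ℕ)`).  `H` is a Borel injection, so `range H` is Borel and `good_of_measurable`
gives a closed `S`; let `w x` be the unique element with `(H x, w x) ∈ S`; `w` is Borel (the inverse of the
injective Borel map `fst : S → range H`).  `θ x` lists all `H (F L x) m` and `w (F L x) m`
(index `(L, m, bool)`).
* `θ (φ i x) (L, m, b) = θ x (i :: L, m, b)`: a single coordinate of `θ x`.
* closed range: if `θ (x k)` converges, `H (x k)` and `w (x k)` converge, to a point `(a, b) ∈ S`, so
  `a = H x`, `b = w x` for some `x`.  For every `L`, `H (F L (x k))` converges to `H (F L x)` (its coordinates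
  are coordinates of `H (x k)`), and `w (F L (x k))` converges to some `b'` with `(H (F L x), b') ∈ S`, so
  `b' = w (F L x)`.  Hence `θ (x k) → θ x`.
-/

namespace Pool.Agent.W_MP_daea50_h85

universe u

open Filter Topology

/-- compositions -/
def thF {C : Type u} (φ : ℕ → C → C) : List ℕ → C → C
  | [], x => x
  | i :: L, x => thF φ L (φ i x)

theorem thF_append {C : Type u} (φ : ℕ → C → C) (L M : List ℕ) (x : C) :
    thF φ M (thF φ L x) = thF φ (L ++ M) x := by
  induction L generalizing x with
  | nil => rfl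
  | cons i L ih => exact ih (φ i x)

theorem thF_measurable {C : Type u} [MeasurableSpace C] (φ : ℕ → C → C)
    (hφ : ∀ n, Measurable (φ n)) (L : List ℕ) : Measurable (thF φ L) := by
  induction L with
  | nil => exact measurable_id
  | cons i L ih => exact ih.comp (hφ i)

/-- the index type -/
abbrev ThJ : Type := List ℕ × (ℕ ⊕ ℕ)

/-- the enumeration of the index type -/
def thE : ℕ ≃ ThJ := (Denumerable.eqv ThJ).symm

/-- the first coding -/
def thH {C : Type u} (φ : ℕ → C → C) (c : C → ℕ → Bool) (h : C → ℕ → ℕ) (x : C) : ThJ → ℕ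
  | (L, Sum.inl m) => (c (thF φ L x) m).toNat
  | (L, Sum.inr m) => h (thF φ L x) m

theorem thH_append {C : Type u} (φ : ℕ → C → C) (c : C → ℕ → Bool) (h : C → ℕ → ℕ) (x : C)
    (L M : List ℕ) (s : ℕ ⊕ ℕ) :
    thH φ c h (thF φ L x) (M, s) = thH φ c h x (L ++ M, s) := by
  cases s with
  | inl m => simp only [thH, thF_append]
  | inr m => simp only [thH, thF_append]

theorem exists_theta {C : Type u} [MeasurableSpace C] [StandardBorelSpace C]
    (φ : ℕ → C → C) (hφ : ∀ n, Measurable (φ n)) (h : C → ℕ → ℕ) (hh : Measurable h) :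
    ∃ θ : C → ℕ → ℕ, Measurable θ ∧ Function.Injective θ ∧ IsClosed (Set.range θ) ∧
      (∀ i m, ∃ l, ∀ x, θ (φ i x) m = θ x l) ∧ (∀ m, ∃ l, ∀ x, h x m = θ x l) := by
  classical
  obtain ⟨c, hc, hcinj⟩ :=
    MeasurableSpace.measurable_injection_nat_bool_of_countablySeparated C
  let H : C → ℕ → ℕ := fun x k => thH φ c h x (thE k)
  have hHm : Measurable H := by
    rw [measurable_pi_iff]
    intro k
    change Measurable fun x => thH φ c h x (thE k)
    rcases thE k with ⟨L, m | m⟩
    · exact (measurable_of_countable Bool.toNat).comp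
        ((measurable_pi_apply m).comp (hc.comp (thF_measurable φ hφ L)))
    · exact (measurable_pi_apply m).comp (hh.comp (thF_measurable φ hφ L))
  have hHi : Function.Injective H := by
    intro x y hxy
    apply hcinj
    funext m
    have h1 := congrFun hxy (thE.symm ([], Sum.inl m))
    change thH φ c h x (thE (thE.symm ([], Sum.inl m))) =
      thH φ c h y (thE (thE.symm ([], Sum.inl m))) at h1
    rw [Equiv.apply_symm_apply] at h1
    change (c x m).toNat = (c y m).toNat at h1
    cases hx : c x m <;> cases hy : c y m <;> simp [hx, hy] at h1 ⊢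
  have hrange : MeasurableSet (Set.range H) := (hHm.measurableEmbedding hHi).measurableSet_range
  obtain ⟨S, hS, hinj, himg⟩ := good_of_measurable (Set.range H) hrange
  have hw : ∀ x, ∃ b, (H x, b) ∈ S := by
    intro x
    have : H x ∈ Prod.fst '' S := by rw [himg]; exact ⟨x, rfl⟩
    obtain ⟨⟨a, b⟩, hab, rfl⟩ := this
    exact ⟨b, hab⟩
  choose w hwS using hw
  have huniq : ∀ x b, (H x, b) ∈ S → b = w x := by
    intro x b hb
    exact congrArg Prod.snd (hinj hb (hwS x) rfl)
  have hwm : Measurable w := by
    intro B hB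
    have h1 : w ⁻¹' B = H ⁻¹' (Prod.fst '' (S ∩ Prod.snd ⁻¹' B)) := by
      ext x
      constructor
      · intro hx
        exact ⟨(H x, w x), ⟨hwS x, hx⟩, rfl⟩
      · rintro ⟨⟨a, b⟩, ⟨hab, hb⟩, he⟩
        change a = H x at he
        subst he
        change w x ∈ B
        rw [← huniq x b hab]
        exact hb
    rw [h1]
    apply hHm
    apply MeasurableSet.image_of_measurable_injOn _ measurable_fst
      (hinj.mono Set.inter_subset_left)
    exact hS.measurableSet.inter (measurable_snd hB)
  let θ' : C → ThJ → ℕ := fun x j =>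
    match j with
    | (L, Sum.inl m) => H (thF φ L x) m
    | (L, Sum.inr m) => w (thF φ L x) m
  let θ : C → ℕ → ℕ := fun x k => θ' x (thE k)
  have hθ : ∀ x j, θ x (thE.symm j) = θ' x j := by
    intro x j
    change θ' x (thE (thE.symm j)) = θ' x j
    rw [Equiv.apply_symm_apply]
  have hθm : ∀ j : ThJ, Measurable fun x => θ' x j := by
    rintro ⟨L, m | m⟩
    · exact (measurable_pi_apply m).comp (hHm.comp (thF_measurable φ hφ L))
    · exact (measurable_pi_apply m).comp (hwm.comp (thF_measurable φ hφ L))
  refine ⟨θ, ?_, ?_, ?_, ?_, ?_⟩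
  · rw [measurable_pi_iff]
    intro k
    exact hθm (thE k)
  · intro x y hxy
    apply hHi
    funext m
    have h1 := congrFun hxy (thE.symm ([], Sum.inl m))
    rw [hθ, hθ] at h1
    exact h1
  · apply IsSeqClosed.isClosed
    intro z y hz hzy
    choose x hx using hz
    have hconv : ∀ j : ThJ, Tendsto (fun k => θ' (x k) j) atTop (𝓝 (y (thE.symm j))) := by
      intro j
      have h1 := (tendsto_pi_nhds.1 hzy) (thE.symm j)
      refine h1.congr fun k => ?_
      rw [← hx k, hθ]
    have hHc : ∀ L : List ℕ, Tendsto (fun k => H (thF φ L (x k))) atTop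
        (𝓝 (fun m => y (thE.symm (L, Sum.inl m)))) := by
      intro L
      rw [tendsto_pi_nhds]
      intro m
      exact hconv (L, Sum.inl m)
    have hwc : ∀ L : List ℕ, Tendsto (fun k => w (thF φ L (x k))) atTop
        (𝓝 (fun m => y (thE.symm (L, Sum.inr m)))) := by
      intro L
      rw [tendsto_pi_nhds]
      intro m
      exact hconv (L, Sum.inr m)
    have hSc : ∀ L : List ℕ, ((fun m => y (thE.symm (L, Sum.inl m))),
        (fun m => y (thE.symm (L, Sum.inr m)))) ∈ S := by
      intro L
      apply hS.mem_of_tendsto ((hHc L).prodMk_nhds (hwc L))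
      exact Eventually.of_forall fun k => hwS _
    have h0 : (fun m => y (thE.symm ([], Sum.inl m))) ∈ Set.range H := by
      rw [← himg]
      exact ⟨_, hSc [], rfl⟩
    obtain ⟨x0, hx0⟩ := h0
    have hH0 : ∀ L : List ℕ, (fun m => y (thE.symm (L, Sum.inl m))) = H (thF φ L x0) := by
      intro L
      refine tendsto_nhds_unique (hHc L) ?_
      rw [tendsto_pi_nhds]
      intro m
      obtain ⟨⟨M, s⟩, hm⟩ : ∃ j, j = thE m := ⟨_, rfl⟩
      have h2 : ∀ z, H (thF φ L z) m = H z (thE.symm (L ++ M, s)) := by
        intro z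
        change thH φ c h (thF φ L z) (thE m) = thH φ c h z (thE (thE.symm (L ++ M, s)))
        rw [Equiv.apply_symm_apply, ← hm, thH_append]
      simp only [h2]
      have h3 := (tendsto_pi_nhds.1 (hHc [])) (thE.symm (L ++ M, s))
      have h4 := congrFun hx0 (thE.symm (L ++ M, s))
      rw [h4]
      exact h3
    refine ⟨x0, ?_⟩
    funext k
    obtain ⟨j, rfl⟩ : ∃ j, k = thE.symm j := ⟨thE k, by simp⟩
    rw [hθ]
    obtain ⟨L, m | m⟩ := j
    · exact (congrFun (hH0 L) m).symm
    · have h5 := huniq (thF φ L x0) (fun m => y (thE.symm (L, Sum.inr m))) (by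
        rw [← hH0 L]
        exact hSc L)
      exact (congrFun h5 m).symm
  · intro i m
    obtain ⟨⟨L, s⟩, hm⟩ : ∃ j, j = thE m := ⟨_, rfl⟩
    refine ⟨thE.symm (i :: L, s), fun x => ?_⟩
    rw [hθ]
    change θ' (φ i x) (thE m) = _
    rw [← hm]
    cases s with
    | inl m => rfl
    | inr m => rfl
  · intro m
    refine ⟨thE.symm ([], Sum.inl (thE.symm ([], Sum.inr m))), fun x => ?_⟩
    rw [hθ]
    change h x m = thH φ c h x (thE (thE.symm ([], Sum.inr m)))
    rw [Equiv.apply_symm_apply]
    rfl

end Pool.Agent.W_MP_daea50_h85
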