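import Pool.Agent.W_MP_daea50_h85.Dat
import Pool.Agent.W_MP_daea50_h85.Theta

set_option autoImplicit false

/-!
# DatEx: existence of the data

`Y = {x // ¬ E c x}` is a standard Borel space (Borel subset, invariant).  `E`, `pi`, `rep`, `g` restrict
to `Y` (they stay in the class).  Let `C = {y : Y // ¬ InfZ (pi y)}` (Borel, invariant: if `E x y` and
`InfZ (pi y)` then `Tail (pi y) (pi x)` so `InfZ (pi x)`; nonempty).  The maps `g n` and
`rep n (fun i => s.getD i false)`, `n : ℕ`, `s : List Bool`, map `C` to `C` (`pi_rep`, `tail_spl`); enumerate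
them as `φ`.  Let `h : C → ℕ → ℕ` list the bits of `pi` (as `0/1`) and `uu (pi x)` (Borel).  Apply
`exists_theta`; extend `θ` by `0` outside `C`.
* `θrep` for arbitrary `v`: `rep n v = rep n (fun i => s.getD i false)` for `s = (List.range n).map v`
  (`rep_congr`).
* `θcl`: `range θ` (on `C`) is closed and `θ (x k) → t` in `ℕ → ℕ` (`tendsto_pi_nhds`, discrete).
* `d`: the set `P = {y | ∀ k, ¬ ZB (pi y) k}` is contained in `C` and not empty: for `x ∈ C` replace the
  bits of the zero blocks by `true`: `rep (bd n) (fun _ => true) x` with `n` larger than all zero blocks.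
  For every finite list `s` choose a point of `P` whose `θ` starts with `s`, if there is one.
-/

namespace Pool.Agent.W_MP_daea50_h85

universe u

theorem datEx_uu_measurable : Measurable uu := by
  classical
  have hp : ∀ z : ℕ → Bool, ∃ n, (z (bd n) = true ∨ ∀ m, z (bd m) = false) := by
    intro z
    by_cases h : ∃ n, z (bd n) = true
    · obtain ⟨n, hn⟩ := h
      exact ⟨n, Or.inl hn⟩
    · push Not at h
      exact ⟨0, Or.inr fun m => by simpa using h m⟩
  have hm : ∀ k, MeasurableSet {z : ℕ → Bool | z (bd k) = true ∨ ∀ m, z (bd m) = false} := by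
    intro k
    have e : {z : ℕ → Bool | z (bd k) = true ∨ ∀ m, z (bd m) = false} =
        {z : ℕ → Bool | z (bd k) = true} ∪ ⋂ m, {z : ℕ → Bool | z (bd m) = false} := by
      ext z; simp
    rw [e]
    refine MeasurableSet.union (measurableSet_eq_fun (measurable_pi_apply _) measurable_const)
      (MeasurableSet.iInter fun m =>
        measurableSet_eq_fun (measurable_pi_apply _) measurable_const)
  have h := measurable_find hp hm
  have e : uu = fun z => Nat.find (hp z) := by
    funext z
    by_cases hz : ∃ n, z (bd n) = true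
    · have e1 : uu z = Nat.find hz := by
        unfold uu
        refine le_antisymm (Nat.sInf_le (Nat.find_spec hz)) ?_
        exact Nat.find_min' hz (Nat.sInf_mem (s := {n | z (bd n) = true}) hz)
      rw [e1]
      apply Nat.find_congr'
      intro n
      constructor
      · exact Or.inl
      · rintro (h | h)
        · exact h
        · obtain ⟨k, hk⟩ := hz
          rw [h k] at hk
          exact absurd hk (by decide)
    · have e1 : uu z = 0 := by
        unfold uu
        have : {n | z (bd n) = true} = ∅ := by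
          ext n; simp only [Set.mem_ofPred_eq, Set.mem_empty_iff_false, iff_false]
          exact fun h => hz ⟨n, h⟩
        rw [this, Nat.sInf_empty]
      rw [e1]
      symm
      rw [Nat.find_eq_zero]
      right
      intro m
      by_contra h
      exact hz ⟨m, by simpa using h⟩
  rw [e]
  exact h

theorem datEx_dense {Y : Type u} (P : Y → Prop) (θ : Y → ℕ → ℕ) (y₀ : Y) (h0 : P y₀) :
    ∃ d : ℕ → Y, (∀ j, P (d j)) ∧ ∀ x, P x → ∀ m, ∃ j, ∀ i, i < m → θ (d j) i = θ x i := by
  classical
  have hex : ∀ s : List ℕ, ∃ y, P y ∧ ((∃ y', P y' ∧ ∀ i, i < s.length → θ y' i = s.getD i 0) →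
      ∀ i, i < s.length → θ y i = s.getD i 0) := by
    intro s
    by_cases h : ∃ y', P y' ∧ ∀ i, i < s.length → θ y' i = s.getD i 0
    · obtain ⟨y', h1, h2⟩ := h
      exact ⟨y', h1, fun _ => h2⟩
    · exact ⟨y₀, h0, fun h' => absurd h' h⟩
  choose dd hd1 hd2 using hex
  refine ⟨fun j => dd (Denumerable.ofNat (List ℕ) j), ?_, ?_⟩
  · intro j
    exact hd1 _
  · intro x hx m
    refine ⟨Encodable.encode ((List.range m).map (θ x)), fun i hi => ?_⟩
    have hlen : ((List.range m).map (θ x)).length = m := by simp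
    have hget : ∀ i, i < m → ((List.range m).map (θ x)).getD i 0 = θ x i := by
      intro i hi
      rw [List.getD_eq_getElem _ _ (by simpa using hi)]
      simp
    have := hd2 ((List.range m).map (θ x)) ⟨x, hx, fun i hi => by
      rw [hlen] at hi; exact (hget i hi).symm⟩ i (by rw [hlen]; exact hi)
    rw [hget i hi] at this
    simpa using this

theorem exists_dat {X : Type u} [MeasurableSpace X] [StandardBorelSpace X]
    (E : X → X → Prop) (hE : Equivalence E) (g : ℕ → X → X) (hg : ∀ n, Measurable (g n))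
    (hinv : ∀ n x, g n (g n x) = x) (hgE : ∀ x y, E x y ↔ ∃ n, g n x = y)
    (c : X) (pi : X → ℕ → Bool) (rep : ℕ → (ℕ → Bool) → X → X)
    (hb : BitOn E {x | ¬ E c x} pi rep)
    (h1 : ∀ x y, ¬ E c x → ¬ E c y → InfZ (pi x) → pi x = pi y → x = y)
    (h2 : ∀ z, InfZ z → ∃ x, ¬ E c x ∧ pi x = z)
    (h3 : ∀ x y, ¬ E c x → E x y → InfZ (pi x) → Tail (pi x) (pi y))
    (h4 : ∃ x, ¬ E c x ∧ ¬ InfZ (pi x)) :
    Nonempty (Dat {x : X // ¬ E c x} (fun x y => E x.1 y.1)) := by
  classical
  -- restricted maps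
  have hstay : ∀ x y : X, ¬ E c x → E x y → ¬ E c y := fun x y hx hxy => hb.inv x y hx hxy
  have hrepE : ∀ n v (x : X), ¬ E c x → E x (rep n v x) := fun n v x hx => hb.rep_E n v x hx
  have hgE' : ∀ n (x : X), E x (g n x) := fun n x => (hgE x _).mpr ⟨n, rfl⟩
  let Y : Type u := {x : X // ¬ E c x}
  let piY : Y → ℕ → Bool := fun y => pi y.1
  let repY : ℕ → (ℕ → Bool) → Y → Y := fun n v y =>
    ⟨rep n v y.1, hstay _ _ y.2 (hrepE n v y.1 y.2)⟩
  let gY : ℕ → Y → Y := fun n y => ⟨g n y.1, hstay _ _ y.2 (hgE' n y.1)⟩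
  have hpiY : Measurable piY := hb.pi_meas.comp measurable_subtype_coe
  have hrepY : ∀ n v, Measurable (repY n v) := fun n v =>
    Measurable.subtype_mk ((hb.rep_meas n v).comp measurable_subtype_coe)
  have hgY : ∀ n, Measurable (gY n) := fun n =>
    Measurable.subtype_mk ((hg n).comp measurable_subtype_coe)
  have hYsb : StandardBorelSpace Y := hb.zmeas.standardBorel
  have hbY : BitOn (fun x y : Y => E x.1 y.1) Set.univ piY repY :=
    { zmeas := MeasurableSet.univ
      inv := fun _ _ _ _ => Set.mem_univ _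
      pi_meas := hpiY
      rep_meas := hrepY
      rep_congr := fun n u v y h => Subtype.ext (hb.rep_congr n u v y.1 h)
      rep_E := fun n v y _ => hb.rep_E n v y.1 y.2
      pi_rep := fun n v y _ => hb.pi_rep n v y.1 y.2
      rep_pi := fun n y _ => Subtype.ext (hb.rep_pi n y.1 y.2)
      rep_rep := fun n m hnm u v y _ => Subtype.ext (hb.rep_rep n m hnm u v y.1 y.2) }
  have heqv : Equivalence (fun x y : Y => E x.1 y.1) :=
    ⟨fun x => hE.refl x.1, fun h => hE.symm h, fun h h' => hE.trans h h'⟩
  have hG3 : ∀ x y : Y, E x.1 y.1 → InfZ (piY x) → Tail (piY x) (piY y) :=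
    fun x y hxy hx => h3 x.1 y.1 x.2 hxy hx
  -- the set C
  have hCinv : ∀ x y : Y, E x.1 y.1 → ¬ InfZ (piY x) → ¬ InfZ (piY y) := by
    intro x y hxy hx hy
    exact hx (hy.tail (hG3 y x (hE.symm hxy) hy))
  have hCmeas : MeasurableSet {y : Y | ¬ InfZ (piY y)} := by
    have := hpiY measurableSet_InfZ
    exact this.compl
  let C : Type u := {y : Y // ¬ InfZ (piY y)}
  have hCsb : StandardBorelSpace C := hCmeas.standardBorel
  let ψ : ℕ ⊕ (ℕ × List Bool) → C → C := fun i x => match i with
    | Sum.inl n => ⟨gY n x.1, hCinv _ _ (hgE' n x.1.1) x.2⟩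
    | Sum.inr p => ⟨repY p.1 (fun i => p.2.getD i false) x.1,
        hCinv _ _ (hrepE p.1 _ x.1.1 x.1.2) x.2⟩
  have hψ : ∀ i, Measurable (ψ i) := by
    rintro (n | p)
    · exact Measurable.subtype_mk ((hgY n).comp measurable_subtype_coe)
    · exact Measurable.subtype_mk ((hrepY _ _).comp measurable_subtype_coe)
  let φ : ℕ → C → C := fun n =>
    ((Encodable.decode (α := ℕ ⊕ (ℕ × List Bool)) n).map ψ).getD id
  have hφ : ∀ n, Measurable (φ n) := by
    intro n
    change Measurable (((Encodable.decode (α := ℕ ⊕ (ℕ × List Bool)) n).map ψ).getD id)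
    generalize Encodable.decode (α := ℕ ⊕ (ℕ × List Bool)) n = o
    cases o with
    | none => exact measurable_id
    | some s => exact hψ s
  have hφψ : ∀ i, φ (Encodable.encode i) = ψ i := by
    intro i
    change ((Encodable.decode (α := ℕ ⊕ (ℕ × List Bool)) (Encodable.encode i)).map ψ).getD id = ψ i
    rw [Encodable.encodek]
    rfl
  let hh : C → ℕ → ℕ := fun x m =>
    if m % 2 = 0 then (if piY x.1 (m / 2) = true then 1 else 0) else uu (piY x.1)
  have hhm : Measurable hh := by
    refine measurable_pi_lambda _ fun m => ?_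
    by_cases hm : m % 2 = 0
    · simp only [hh, hm, if_true]
      refine Measurable.ite ?_ measurable_const measurable_const
      exact measurableSet_eq_fun ((measurable_pi_apply (m / 2)).comp
        (hpiY.comp measurable_subtype_coe)) measurable_const
    · simp only [hh, hm, if_false]
      exact datEx_uu_measurable.comp (hpiY.comp measurable_subtype_coe)
  obtain ⟨θ₀, hθm, hθi, hθc, hθφ, hθh⟩ := exists_theta φ hφ hh hhm
  let θ : Y → ℕ → ℕ := fun y => if hy : ¬ InfZ (piY y) then θ₀ ⟨y, hy⟩ else 0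
  have hθC : ∀ (y : Y) (hy : ¬ InfZ (piY y)), θ y = θ₀ ⟨y, hy⟩ := by
    intro y hy
    simp only [θ, hy, not_false_eq_true, dite_true]
  have hθmeas : Measurable θ :=
    Measurable.dite (s := {y : Y | ¬ InfZ (piY y)}) (f := θ₀)
      (g := fun _ => 0) hθm measurable_const hCmeas
  -- the dense sequence
  have hP0 : ∃ y₀ : Y, ∀ k, ¬ ZB (piY y₀) k := by
    obtain ⟨x, hx, hxz⟩ := h4
    unfold InfZ at hxz
    push Not at hxz
    obtain ⟨n, hn⟩ := hxz
    refine ⟨repY (bd n) (fun _ => true) ⟨x, hx⟩, fun k hk => ?_⟩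
    have e : piY (repY (bd n) (fun _ => true) ⟨x, hx⟩) = spl (bd n) (fun _ => true) (pi x) :=
      hb.pi_rep (bd n) (fun _ => true) x hx
    rw [e] at hk
    by_cases hkn : k < n
    · have h5 := hk (bd k) le_rfl (bd_lt k)
      have h6 : bd k < bd n := bd_strictMono hkn
      rw [spl_lt _ _ h6] at h5
      exact absurd h5 (by decide)
    · apply hn k (Nat.not_lt.mp hkn)
      intro i hi1 hi2
      have h5 := hk i hi1 hi2
      have h6 : bd n ≤ i := (bd_mono (Nat.not_lt.mp hkn)).trans hi1
      rw [spl_ge _ _ h6] at h5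
      exact h5
  obtain ⟨y₀, hy₀⟩ := hP0
  obtain ⟨d, hd1, hd2⟩ := datEx_dense (fun y : Y => ∀ k, ¬ ZB (piY y) k) θ y₀ hy₀
  exact ⟨{
    eqv := heqv
    pi := piY
    rep := repY
    hb := hbY
    g := gY
    gm := hgY
    ginv := fun n x => Subtype.ext (hinv n x.1)
    gE := fun x y => by
      rw [hgE]
      constructor
      · rintro ⟨n, hn⟩; exact ⟨n, Subtype.ext hn⟩
      · rintro ⟨n, hn⟩; exact ⟨n, congrArg Subtype.val hn⟩
    G1 := fun x y hx hxy => Subtype.ext (h1 x.1 y.1 x.2 y.2 hx hxy)
    G2 := fun z hz => by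
      obtain ⟨x, hx, hxz⟩ := h2 z hz
      exact ⟨⟨x, hx⟩, hxz⟩
    G3 := hG3
    d := d
    dF := hd1
    θ := θ
    θm := hθmeas
    θinj := fun x y hx hy hxy => by
      rw [hθC x hx, hθC y hy] at hxy
      exact congrArg Subtype.val (hθi hxy)
    θcl := fun x t hx ht => by
      have htend : Filter.Tendsto (fun k => θ₀ ⟨x k, hx k⟩) Filter.atTop (nhds t) := by
        rw [tendsto_pi_nhds]
        intro j
        refine (tendsto_const_nhds (x := t j)).congr' ?_
        filter_upwards [ht j] with k hk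
        rw [← hk, hθC (x k) (hx k)]
      obtain ⟨y, hy⟩ := hθc.mem_of_tendsto htend
        (Filter.Eventually.of_forall fun k => Set.mem_range_self _)
      exact ⟨y.1, y.2, by rw [hθC y.1 y.2]; exact hy⟩
    θpi := fun i => by
      obtain ⟨l, hl⟩ := hθh (2 * i)
      refine ⟨l, fun x y hx hy hxy => ?_⟩
      rw [hθC x hx, hθC y hy, ← hl, ← hl] at hxy
      have e1 : (2 * i) % 2 = 0 := by omega
      have e2 : (2 * i) / 2 = i := by omega
      simp only [hh, e1, e2, if_true] at hxy
      cases hxi : piY x i <;> cases hyi : piY y i <;> simp [hxi, hyi] at hxy ⊢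
    θrep := fun n v m => by
      obtain ⟨l, hl⟩ := hθφ (Encodable.encode
        (Sum.inr (n, (List.range n).map v) : ℕ ⊕ (ℕ × List Bool))) m
      refine ⟨l, fun x hx => ?_⟩
      have hx' : ¬ InfZ (piY (repY n v x)) := hCinv _ _ (hrepE n v x.1 x.2) hx
      rw [hθC _ hx', hθC x hx, ← hl, hφψ]
      have e : repY n v x = repY n (fun i => ((List.range n).map v).getD i false) x := by
        apply hbY.rep_congr
        intro i hi
        rw [List.getD_eq_getElem _ _ (by simpa using hi)]
        simp
      congr 2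
    θg := fun n m => by
      obtain ⟨l, hl⟩ := hθφ (Encodable.encode (Sum.inl n : ℕ ⊕ (ℕ × List Bool))) m
      refine ⟨l, fun x hx => ?_⟩
      have hx' : ¬ InfZ (piY (gY n x)) := hCinv _ _ (hgE' n x.1) hx
      rw [hθC _ hx', hθC x hx, ← hl, hφψ]
    θu := by
      obtain ⟨l, hl⟩ := hθh 1
      refine ⟨l, fun x hx => ?_⟩
      rw [hθC x hx, ← hl]
      simp [hh]
    dense := hd2 }⟩

end Pool.Agent.W_MP_daea50_h85
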