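import Mathlib

set_option autoImplicit false

/-!
# MP_daea50_lc, Q2: minimal `K_σ` realizations.  Definitions

Binary sequences are cut into blocks `[bd n, bd (n+1))`.
A *bit structure* on an invariant Borel set `Z` for an equivalence relation `E` assigns to `y ∈ Z` a
sequence `pi y` of bits and lets one replace the first `n` bits of `y` by those of `v`
(`rep n v y`), staying in the `E`-class of `y`.
-/

namespace Pool.Agent.W_MP_daea50_h85

universe u

/-- tail equality of binary sequences -/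
def Tail (z w : ℕ → Bool) : Prop := ∃ n, ∀ i, n ≤ i → z i = w i

/-- the first `n` bits of `v`, followed by the bits of `z` -/
def spl (n : ℕ) (v z : ℕ → Bool) : ℕ → Bool := fun i => if i < n then v i else z i

/-- block boundaries: block `n` is `[bd n, bd (n+1))`, of length `bd n + n + 3` -/
def bd : ℕ → ℕ
  | 0 => 0
  | n + 1 => 2 * bd n + n + 3

/-- block `n` of `z` is zero -/
def ZB (z : ℕ → Bool) (n : ℕ) : Prop := ∀ i, bd n ≤ i → i < bd (n + 1) → z i = false

/-- infinitely many blocks are zero -/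
def InfZ (z : ℕ → Bool) : Prop := ∀ n, ∃ k, n ≤ k ∧ ZB z k

/-- bit structure for `E` on the invariant Borel set `Z` -/
structure BitOn {X : Type u} [MeasurableSpace X] (E : X → X → Prop) (Z : Set X)
    (pi : X → ℕ → Bool) (rep : ℕ → (ℕ → Bool) → X → X) : Prop where
  zmeas : MeasurableSet Z
  inv : ∀ x y, x ∈ Z → E x y → y ∈ Z
  pi_meas : Measurable pi
  rep_meas : ∀ n v, Measurable (rep n v)
  rep_congr : ∀ n u v y, (∀ i, i < n → u i = v i) → rep n u y = rep n v y
  rep_E : ∀ n v, ∀ y ∈ Z, E y (rep n v y)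
  pi_rep : ∀ n v, ∀ y ∈ Z, pi (rep n v y) = spl n v (pi y)
  rep_pi : ∀ n, ∀ y ∈ Z, rep n (pi y) y = y
  rep_rep : ∀ n m, n ≤ m → ∀ u v, ∀ y ∈ Z, rep m u (rep n v y) = rep m u y

theorem bd_zero : bd 0 = 0 := rfl

theorem bd_succ (n : ℕ) : bd (n + 1) = 2 * bd n + n + 3 := rfl

theorem bd_lt (n : ℕ) : bd n < bd (n + 1) := by rw [bd_succ]; omega

theorem bd_strictMono : StrictMono bd := strictMono_nat_of_lt_succ bd_lt

theorem bd_mono {m n : ℕ} (h : m ≤ n) : bd m ≤ bd n := bd_strictMono.monotone h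

theorem le_bd (n : ℕ) : n ≤ bd n := bd_strictMono.le_apply

theorem spl_lt {n i : ℕ} (v z : ℕ → Bool) (h : i < n) : spl n v z i = v i := by simp [spl, h]

theorem spl_ge {n i : ℕ} (v z : ℕ → Bool) (h : n ≤ i) : spl n v z i = z i := by
  simp [spl, Nat.not_lt.2 h]

theorem tail_spl (n : ℕ) (v z : ℕ → Bool) : Tail z (spl n v z) :=
  ⟨n, fun _ hi => (spl_ge v z hi).symm⟩

theorem Tail.refl (z : ℕ → Bool) : Tail z z := ⟨0, fun _ _ => rfl⟩

theorem Tail.symm {z w : ℕ → Bool} (h : Tail z w) : Tail w z :=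
  ⟨h.choose, fun i hi => (h.choose_spec i hi).symm⟩

theorem Tail.trans {z w t : ℕ → Bool} (h : Tail z w) (h' : Tail w t) : Tail z t := by
  obtain ⟨n, hn⟩ := h
  obtain ⟨m, hm⟩ := h'
  exact ⟨max n m, fun i hi => (hn i (le_trans (le_max_left _ _) hi)).trans
    (hm i (le_trans (le_max_right _ _) hi))⟩

theorem Tail.eq_spl {z w : ℕ → Bool} (h : Tail z w) : ∃ n, w = spl n w z := by
  obtain ⟨n, hn⟩ := h
  refine ⟨n, ?_⟩
  funext i
  by_cases hi : i < n
  · rw [spl_lt _ _ hi]
  · rw [spl_ge _ _ (Nat.not_lt.1 hi)]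
    exact (hn i (Nat.not_lt.1 hi)).symm

theorem ZB.tail {z w : ℕ → Bool} {m n : ℕ} (h : ∀ i, m ≤ i → z i = w i) (hmn : m ≤ bd n)
    (hz : ZB z n) : ZB w n := by
  intro i hi hi'
  rw [← h i (hmn.trans hi)]
  exact hz i hi hi'

theorem InfZ.tail {z w : ℕ → Bool} (h : Tail z w) (hz : InfZ z) : InfZ w := by
  obtain ⟨m, hm⟩ := h
  intro n
  obtain ⟨k, hk, hk'⟩ := hz (max n m)
  exact ⟨k, (le_max_left _ _).trans hk,
    hk'.tail hm (((le_max_right n m).trans hk).trans (le_bd k))⟩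

theorem infZ_tail_iff {z w : ℕ → Bool} (h : Tail z w) : InfZ z ↔ InfZ w :=
  ⟨fun hz => hz.tail h, fun hw => hw.tail h.symm⟩

theorem measurableSet_ZB (n : ℕ) : MeasurableSet {z : ℕ → Bool | ZB z n} := by
  have : {z : ℕ → Bool | ZB z n} = ⋂ i, {z : ℕ → Bool | bd n ≤ i → i < bd (n + 1) → z i = false} := by
    ext z; simp [ZB]
  rw [this]
  refine MeasurableSet.iInter fun i => ?_
  by_cases h1 : bd n ≤ i
  · by_cases h2 : i < bd (n + 1)
    · simp only [h1, h2, forall_const]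
      exact measurableSet_eq_fun (measurable_pi_apply i) measurable_const
    · simp [h2]
  · simp [h1]

theorem measurableSet_InfZ : MeasurableSet {z : ℕ → Bool | InfZ z} := by
  have : {z : ℕ → Bool | InfZ z} = ⋂ n, ⋃ k, {z : ℕ → Bool | n ≤ k ∧ ZB z k} := by
    ext z; simp [InfZ]
  rw [this]
  refine MeasurableSet.iInter fun n => MeasurableSet.iUnion fun k => ?_
  by_cases h : n ≤ k
  · simpa [h] using measurableSet_ZB k
  · simp [h]

end Pool.Agent.W_MP_daea50_h85
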