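import Pool.Agent.W_MP_daea50_lc.Generating
import Pool.Agent.W_MP_daea50_h85.Defs

set_option autoImplicit false

/-!
# FM: a countable Borel equivalence relation is given by countably many Borel involutions

Let `P = {p | E p.1 p.2}` (a standard Borel space).  `fst` and `snd : P → X` are countable-to-one
Borel maps, so by `W_MP_daea50_lc.small_univ_of_measurable` (in `Generating.lean`) `P` is covered by
countably many Borel sets `B n` on which `fst` is injective and by countably many Borel sets `B' m` on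
which `snd` is injective.  Let `U k` be countably many Borel sets of `X` separating points
(`MeasurableSpace.measurable_injection_nat_bool_of_countablySeparated` or a countable separating
family).  For `n, m, k` let `Q = B n ∩ B' m ∩ {p | p.1 ∈ U k, p.2 ∉ U k}` (Borel); then `fst` and `snd`
are injective on `Q`, `A₁ = fst '' Q` and `A₂ = snd '' Q` are Borel
(`MeasurableSet.image_of_measurable_injOn`, Lusin-Souslin) and disjoint.  The involution
`g = g_{n,m,k}` exchanges `p.1` and `p.2` for `p ∈ Q` and is the identity elsewhere.  It is Borel: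
`g ⁻¹' S = (fst '' (Q ∩ snd ⁻¹' S)) ∪ (snd '' (Q ∩ fst ⁻¹' S)) ∪ (S \ (A₁ ∪ A₂))`, images of Borel sets
under injective Borel maps.  If `x E y`, `x ≠ y`, choose `k` with `x ∈ U k`, `y ∉ U k` (take the
family `U` closed under complement, or exchange the roles of `x` and `y`: an involution with
`g x = y` also has `g y = x`); `x = y`: add the identity to the family.
-/

open Set Function MeasureTheory

namespace Pool.Agent.W_MP_daea50_h85

universe u

/-- The partial Borel injection `f p ↦ s p` (`p ∈ Q`) with disjoint domain and range extends to a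
Borel involution which is the identity off the domain and the range. -/
theorem exists_involution_of_injOn {X P : Type u} [MeasurableSpace X] [StandardBorelSpace X]
    [MeasurableSpace P] [StandardBorelSpace P] {f s : P → X} (hf : Measurable f)
    (hs : Measurable s) {Q : Set P} (hQ : MeasurableSet Q) (hfi : InjOn f Q) (hsi : InjOn s Q)
    (hd : ∀ p ∈ Q, ∀ q ∈ Q, f p ≠ s q) :
    ∃ g : X → X, Measurable g ∧ (∀ x, g (g x) = x) ∧ (∀ p ∈ Q, g (f p) = s p) ∧
      (∀ p ∈ Q, g (s p) = f p) ∧
      (∀ x, g x = x ∨ (∃ p ∈ Q, f p = x ∧ g x = s p) ∨ (∃ p ∈ Q, s p = x ∧ g x = f p)) := by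
  classical
  let g : X → X := fun x => if h : ∃ p ∈ Q, f p = x then s h.choose else
    if h' : ∃ p ∈ Q, s p = x then f h'.choose else x
  have g1 : ∀ p ∈ Q, g (f p) = s p := by
    intro p hp
    have h : ∃ q ∈ Q, f q = f p := ⟨p, hp, rfl⟩
    have e : g (f p) = s h.choose := dif_pos h
    rw [e, hfi h.choose_spec.1 hp h.choose_spec.2]
  have g2 : ∀ p ∈ Q, g (s p) = f p := by
    intro p hp
    have h : ¬ ∃ q ∈ Q, f q = s p := by
      rintro ⟨q, hq, e⟩
      exact hd q hq p hp e
    have h' : ∃ q ∈ Q, s q = s p := ⟨p, hp, rfl⟩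
    have e : g (s p) = f h'.choose := (dif_neg h).trans (dif_pos h')
    rw [e, hsi h'.choose_spec.1 hp h'.choose_spec.2]
  have g3 : ∀ x, (¬ ∃ p ∈ Q, f p = x) → (¬ ∃ p ∈ Q, s p = x) → g x = x := by
    intro x h h'
    exact (dif_neg h).trans (dif_neg h')
  refine ⟨g, ?_, ?_, g1, g2, ?_⟩
  · intro S hS
    have e : g ⁻¹' S = f '' (Q ∩ s ⁻¹' S) ∪ s '' (Q ∩ f ⁻¹' S) ∪ (S \ (f '' Q ∪ s '' Q)) := by
      ext x
      constructor
      · intro hx
        have hx' : g x ∈ S := hx
        by_cases h : ∃ p ∈ Q, f p = x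
        · obtain ⟨p, hp, rfl⟩ := h
          rw [g1 p hp] at hx'
          exact Or.inl (Or.inl ⟨p, ⟨hp, hx'⟩, rfl⟩)
        · by_cases h' : ∃ p ∈ Q, s p = x
          · obtain ⟨p, hp, rfl⟩ := h'
            rw [g2 p hp] at hx'
            exact Or.inl (Or.inr ⟨p, ⟨hp, hx'⟩, rfl⟩)
          · rw [g3 x h h'] at hx'
            refine Or.inr ⟨hx', ?_⟩
            rintro (h1 | h1)
            · exact h h1
            · exact h' h1
      · rintro ((⟨p, ⟨hp, hpS⟩, rfl⟩ | ⟨p, ⟨hp, hpS⟩, rfl⟩) | ⟨hx, hn⟩)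
        · change g (f p) ∈ S
          rw [g1 p hp]; exact hpS
        · change g (s p) ∈ S
          rw [g2 p hp]; exact hpS
        · change g x ∈ S
          rw [g3 x (fun h => hn (Or.inl h)) (fun h => hn (Or.inr h))]
          exact hx
    rw [e]
    refine MeasurableSet.union (MeasurableSet.union ?_ ?_) (hS.diff (MeasurableSet.union ?_ ?_))
    · exact (hQ.inter (hs hS)).image_of_measurable_injOn hf (hfi.mono inter_subset_left)
    · exact (hQ.inter (hf hS)).image_of_measurable_injOn hs (hsi.mono inter_subset_left)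
    · exact hQ.image_of_measurable_injOn hf hfi
    · exact hQ.image_of_measurable_injOn hs hsi
  · intro x
    by_cases h : ∃ p ∈ Q, f p = x
    · obtain ⟨p, hp, rfl⟩ := h
      rw [g1 p hp, g2 p hp]
    · by_cases h' : ∃ p ∈ Q, s p = x
      · obtain ⟨p, hp, rfl⟩ := h'
        rw [g2 p hp, g1 p hp]
      · rw [g3 x h h', g3 x h h']
  · intro x
    by_cases h : ∃ p ∈ Q, f p = x
    · obtain ⟨p, hp, rfl⟩ := h
      exact Or.inr (Or.inl ⟨p, hp, rfl, g1 p hp⟩)
    · by_cases h' : ∃ p ∈ Q, s p = x
      · obtain ⟨p, hp, rfl⟩ := h'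
        exact Or.inr (Or.inr ⟨p, hp, rfl, g2 p hp⟩)
      · exact Or.inl (g3 x h h')

theorem exists_involutions {X : Type u} [MeasurableSpace X] [StandardBorelSpace X]
    (E : X → X → Prop) (hE : Equivalence E) (hB : MeasurableSet {p : X × X | E p.1 p.2})
    (hc : ∀ x, {y | E x y}.Countable) :
    ∃ g : ℕ → X → X, (∀ n, Measurable (g n)) ∧ (∀ n x, g n (g n x) = x) ∧
      ∀ x y, E x y ↔ ∃ n, g n x = y := by
  classical
  let P : Set (X × X) := {p : X × X | E p.1 p.2}
  have : StandardBorelSpace P := hB.standardBorel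
  let f : P → X := fun p => p.1.1
  let s : P → X := fun p => p.1.2
  have hf : Measurable f := measurable_fst.comp measurable_subtype_coe
  have hs : Measurable s := measurable_snd.comp measurable_subtype_coe
  have hfibf : ∀ x, {y | f y = f x}.Countable := by
    intro x
    refine MapsTo.countable_of_injOn (t := {y | E (f x) y}) (f := s) ?_ ?_ (hc (f x))
    · intro y hy
      have h1 : E y.1.1 y.1.2 := y.2
      have h2 : y.1.1 = f x := hy
      change E (f x) y.1.2
      rw [← h2]
      exact h1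
    · intro y hy z hz h
      have h2 : y.1.1 = f x := hy
      have h3 : z.1.1 = f x := hz
      exact Subtype.ext (Prod.ext (h2.trans h3.symm) h)
  have hfibs : ∀ x, {y | s y = s x}.Countable := by
    intro x
    refine MapsTo.countable_of_injOn (t := {y | E (s x) y}) (f := f) ?_ ?_ (hc (s x))
    · intro y hy
      have h1 : E y.1.1 y.1.2 := y.2
      have h2 : y.1.2 = s x := hy
      change E (s x) y.1.1
      rw [← h2]
      exact hE.symm h1
    · intro y hy z hz h
      have h2 : y.1.2 = s x := hy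
      have h3 : z.1.2 = s x := hz
      exact Subtype.ext (Prod.ext h (h2.trans h3.symm))
  obtain ⟨B, hB1, hB2, hB3⟩ := W_MP_daea50_lc.small_univ_of_measurable hf hfibf
  obtain ⟨B', hB1', hB2', hB3'⟩ := W_MP_daea50_lc.small_univ_of_measurable hs hfibs
  obtain ⟨φ, hφ, hφi⟩ :=
    MeasurableSpace.measurable_injection_nat_bool_of_countablySeparated X
  let Q : ℕ × ℕ × ℕ → Set P := fun t =>
    B t.1 ∩ B' t.2.1 ∩ {p : P | φ (f p) t.2.2 = true ∧ φ (s p) t.2.2 = false}
  have hQm : ∀ t, MeasurableSet (Q t) := by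
    intro t
    refine ((hB1 _).inter (hB1' _)).inter (MeasurableSet.inter ?_ ?_)
    · exact measurableSet_eq_fun ((measurable_pi_apply t.2.2).comp (hφ.comp hf))
        measurable_const
    · exact measurableSet_eq_fun ((measurable_pi_apply t.2.2).comp (hφ.comp hs))
        measurable_const
  have hex : ∀ t, ∃ g : X → X, Measurable g ∧ (∀ x, g (g x) = x) ∧
      (∀ p ∈ Q t, g (f p) = s p) ∧ (∀ p ∈ Q t, g (s p) = f p) ∧
      (∀ x, g x = x ∨ (∃ p ∈ Q t, f p = x ∧ g x = s p) ∨ (∃ p ∈ Q t, s p = x ∧ g x = f p)) := by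
    intro t
    refine exists_involution_of_injOn hf hs (hQm t)
      ((hB2 t.1).mono (inter_subset_left.trans inter_subset_left))
      ((hB2' t.2.1).mono (inter_subset_left.trans inter_subset_right)) ?_
    intro p hp q hq e
    have h1 : φ (f p) t.2.2 = true := hp.2.1
    have h2 : φ (s q) t.2.2 = false := hq.2.2
    rw [e, h2] at h1
    exact Bool.false_ne_true h1
  choose g hg1 hg2 hg3 hg4 hg5 using hex
  let G : Option (ℕ × ℕ × ℕ) → X → X := fun o => o.elim id g
  let ι : ℕ ≃ Option (ℕ × ℕ × ℕ) := (Denumerable.eqv (Option (ℕ × ℕ × ℕ))).symm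
  refine ⟨fun n => G (ι n), fun n => ?_, fun n x => ?_, fun x y => ⟨fun h => ?_, ?_⟩⟩
  · change Measurable (G (ι n))
    cases h : ι n with
    | none => exact measurable_id
    | some t => exact hg1 t
  · change G (ι n) (G (ι n) x) = x
    cases h : ι n with
    | none => rfl
    | some t => exact hg2 t x
  · suffices h' : ∃ o, G o x = y by
      obtain ⟨o, ho⟩ := h'
      exact ⟨ι.symm o, by simpa using ho⟩
    by_cases hxy : x = y
    · exact ⟨none, hxy⟩
    have hne : φ x ≠ φ y := fun e => hxy (hφi e)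
    obtain ⟨k, hk⟩ := Function.ne_iff.1 hne
    cases hx : φ x k with
    | true =>
      have hy : φ y k = false := by
        cases hy : φ y k with
        | true => exact absurd (hx.trans hy.symm) hk
        | false => rfl
      obtain ⟨n, hn⟩ := mem_iUnion.1 (hB3 (mem_univ (⟨(x, y), h⟩ : P)))
      obtain ⟨m, hm⟩ := mem_iUnion.1 (hB3' (mem_univ (⟨(x, y), h⟩ : P)))
      exact ⟨some (n, m, k), hg3 (n, m, k) ⟨(x, y), h⟩ ⟨⟨hn, hm⟩, hx, hy⟩⟩
    | false =>
      have hy : φ y k = true := by
        cases hy : φ y k with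
        | true => rfl
        | false => exact absurd (hx.trans hy.symm) hk
      obtain ⟨n, hn⟩ := mem_iUnion.1 (hB3 (mem_univ (⟨(y, x), hE.symm h⟩ : P)))
      obtain ⟨m, hm⟩ := mem_iUnion.1 (hB3' (mem_univ (⟨(y, x), hE.symm h⟩ : P)))
      exact ⟨some (n, m, k), hg4 (n, m, k) ⟨(y, x), hE.symm h⟩ ⟨⟨hn, hm⟩, hy, hx⟩⟩
  · rintro ⟨n, rfl⟩
    change E x (G (ι n) x)
    cases h : ι n with
    | none => exact hE.refl x
    | some t =>
      change E x (g t x)
      rcases hg5 t x with h1 | ⟨p, -, rfl, h1⟩ | ⟨p, -, rfl, h1⟩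
      · rw [h1]; exact hE.refl x
      · rw [h1]; exact p.2
      · rw [h1]; exact hE.symm p.2

end Pool.Agent.W_MP_daea50_h85
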