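import Pool.Agent.W_MP_daea50_h85.GEa
import Pool.Agent.W_MP_daea50_lc.Generating

set_option autoImplicit false

/-!
# GEb: Glimm-Effros dichotomy for countable Borel equivalence relations

`exists_transversal_of_isolated`: let `(U n)` be a countable basis.  For every `x` there is `n` such that
`U n` meets the class of `x` in exactly one point; let `n(x)` be the least such `n`, it only depends on
the class; `T = {x | x ∈ U (n(x))}` is a transversal.  Borel: `{x | U n ∩ [x] = {x}}`
`= {x ∈ U n | ∀ m, g m x ∈ U n → g m x = x}` and (`U n` meets `[x]` in exactly one point) is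
`∃ m, g m x ∈ {x | U n ∩ [x] = {x}}`.

`glimm_effros`: by `W_MP_daea50_lc.exists_polish_continuous` (with a constant map `φ`) there is a Polish
topology with the same Borel sets for which all `g n` are continuous.  If every class has an isolated
point, `exists_transversal_of_isolated` contradicts `hns`.  Otherwise apply `exists_embedding` (with
`upgradeIsCompletelyMetrizable` or similar): an orbit with no isolated point at one of its points...
note: the homeomorphisms act transitively on a class, so if one point of the class is isolated in the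
class then all are; hence if no open set meets the class of `x₀` in exactly one point, then `hx₀` holds.
-/

namespace Pool.Agent.W_MP_daea50_h85

universe u

theorem exists_transversal_of_isolated {X : Type u} [TopologicalSpace X]
    [SecondCountableTopology X] [T2Space X] [MeasurableSpace X] [BorelSpace X]
    (E : X → X → Prop) (hE : Equivalence E) (g : ℕ → X → X) (hg : ∀ n, Measurable (g n))
    (hinv : ∀ n x, g n (g n x) = x) (hgE : ∀ x y, E x y ↔ ∃ n, g n x = y)
    (h : ∀ x, ∃ U : Set X, IsOpen U ∧ ∃ y ∈ U, E x y ∧ ∀ z ∈ U, E x z → z = y) :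
    ∃ T : Set X, MeasurableSet T ∧ ∀ x, ∃! y, y ∈ T ∧ E x y := by
  classical
  obtain ⟨b, hbc, -, hb⟩ := TopologicalSpace.exists_countable_basis X
  obtain ⟨U, hU⟩ := (hbc.insert (∅ : Set X)).exists_eq_range (Set.insert_nonempty _ _)
  have hUo : ∀ n, IsOpen (U n) := by
    intro n
    have h1 : U n ∈ insert (∅ : Set X) b := by rw [hU]; exact Set.mem_range_self n
    rcases h1 with h1 | h1
    · rw [h1]; exact isOpen_empty
    · exact hb.isOpen h1
  let A : ℕ → Set X := fun n => {x | x ∈ U n ∧ ∀ m, g m x ∈ U n → g m x = x}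
  let C : ℕ → Set X := fun n => {x | ∃ m, g m x ∈ A n}
  have hA : ∀ n, MeasurableSet (A n) := by
    intro n
    have e : A n = U n ∩ ⋂ m, ((g m ⁻¹' U n)ᶜ ∪ {x | g m x = x}) := by
      ext x
      simp only [A, Set.mem_inter_iff, Set.mem_iInter, Set.mem_union, Set.mem_compl_iff,
        Set.mem_preimage]
      constructor
      · rintro ⟨h1, h2⟩
        refine ⟨h1, fun m => ?_⟩
        by_cases h3 : g m x ∈ U n
        · exact Or.inr (h2 m h3)
        · exact Or.inl h3
      · rintro ⟨h1, h2⟩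
        refine ⟨h1, fun m h3 => ?_⟩
        rcases h2 m with h4 | h4
        · exact absurd h3 h4
        · exact h4
    rw [e]
    refine (hUo n).measurableSet.inter (MeasurableSet.iInter fun m => ?_)
    refine MeasurableSet.union ((hg m) (hUo n).measurableSet).compl ?_
    exact measurableSet_eq_fun (hg m) measurable_id
  have hC : ∀ n, MeasurableSet (C n) := by
    intro n
    have e : C n = ⋃ m, g m ⁻¹' A n := by
      ext x; simp [C]
    rw [e]
    exact MeasurableSet.iUnion fun m => (hg m) (hA n)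
  have hCE : ∀ n x, x ∈ C n ↔ ∃ y, E x y ∧ y ∈ A n := by
    intro n x
    constructor
    · rintro ⟨m, hm⟩
      exact ⟨g m x, (hgE x _).2 ⟨m, rfl⟩, hm⟩
    · rintro ⟨y, h1, h2⟩
      obtain ⟨m, rfl⟩ := (hgE x y).1 h1
      exact ⟨m, h2⟩
  have hex : ∀ x, ∃ n, x ∈ C n := by
    intro x
    obtain ⟨V, hV, y, hyV, hxy, hy⟩ := h x
    obtain ⟨W, hWb, hyW, hWV⟩ := hb.exists_subset_of_mem_open hyV hV
    have h1 : W ∈ Set.range U := by rw [← hU]; exact Set.mem_insert_of_mem _ hWb
    obtain ⟨n, rfl⟩ := h1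
    refine ⟨n, (hCE n x).2 ⟨y, hxy, hyW, fun m hm => ?_⟩⟩
    exact hy _ (hWV hm) (hE.trans hxy ((hgE y _).2 ⟨m, rfl⟩))
  let T : Set X := ⋃ n, (A n ∩ ⋂ k, ⋂ (_ : k < n), (C k)ᶜ)
  have hT : MeasurableSet T :=
    MeasurableSet.iUnion fun n => (hA n).inter
      (MeasurableSet.iInter fun k => MeasurableSet.iInter fun _ => (hC k).compl)
  refine ⟨T, hT, fun x => ?_⟩
  have hinvC : ∀ k y, E x y → (y ∈ C k ↔ x ∈ C k) := by
    intro k y hxy
    rw [hCE, hCE]
    constructor
    · rintro ⟨z, h1, h2⟩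
      exact ⟨z, hE.trans hxy h1, h2⟩
    · rintro ⟨z, h1, h2⟩
      exact ⟨z, hE.trans (hE.symm hxy) h1, h2⟩
  let N := Nat.find (hex x)
  have hN : x ∈ C N := Nat.find_spec (hex x)
  have hN' : ∀ k, k < N → x ∉ C k := fun k hk => Nat.find_min (hex x) hk
  obtain ⟨y, hxy, hyA⟩ := (hCE N x).1 hN
  refine ⟨y, ⟨?_, hxy⟩, ?_⟩
  · refine Set.mem_iUnion.2 ⟨N, hyA, ?_⟩
    refine Set.mem_iInter.2 fun k => Set.mem_iInter.2 fun hk => ?_
    intro hyk
    exact hN' k hk ((hinvC k y hxy).1 hyk)
  · rintro z ⟨hzT, hxz⟩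
    obtain ⟨n, hzA, hzC⟩ := Set.mem_iUnion.1 hzT
    have h1 : n = N := by
      rcases lt_trichotomy n N with h2 | h2 | h2
      · exact absurd ((hCE n x).2 ⟨z, hxz, hzA⟩) (hN' n h2)
      · exact h2
      · have h3 := Set.mem_iInter.1 (Set.mem_iInter.1 hzC N) h2
        exact absurd ((hinvC N z hxz).2 hN) h3
    subst h1
    have hyz : E y z := hE.trans (hE.symm hxy) hxz
    obtain ⟨m, hm⟩ := (hgE y z).1 hyz
    have h4 := hyA.2 m (by rw [hm]; exact hzA.1)
    rw [← hm, h4]

theorem glimm_effros {X : Type u} [MeasurableSpace X] [StandardBorelSpace X]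
    (E : X → X → Prop) (hE : Equivalence E) (g : ℕ → X → X) (hg : ∀ n, Measurable (g n))
    (hinv : ∀ n x, g n (g n x) = x) (hgE : ∀ x y, E x y ↔ ∃ n, g n x = y)
    (hns : ¬ ∃ T : Set X, MeasurableSet T ∧ ∀ x, ∃! y, y ∈ T ∧ E x y) :
    ∃ ψ : (ℕ → Bool) → X, Measurable ψ ∧ Function.Injective ψ ∧
      ∀ z w, E (ψ z) (ψ w) ↔ Tail z w := by
  classical
  obtain ⟨t, htp, htb, htg, -⟩ := W_MP_daea50_lc.exists_polish_continuous g hg
    (fun _ : X => ()) measurable_const
  letI : TopologicalSpace X := t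
  haveI : PolishSpace X := htp
  haveI : BorelSpace X := htb
  by_cases h : ∀ x, ∃ U : Set X, IsOpen U ∧ ∃ y ∈ U, E x y ∧ ∀ z ∈ U, E x z → z = y
  · exact absurd (exists_transversal_of_isolated E hE g hg hinv hgE h) hns
  · push Not at h
    obtain ⟨x₀, hx₀⟩ := h
    letI := TopologicalSpace.upgradeIsCompletelyMetrizable X
    obtain ⟨ψ, h1, h2, h3⟩ := exists_embedding E hE g htg hinv hgE x₀ hx₀
    exact ⟨ψ, h1.measurable, h2, h3⟩

end Pool.Agent.W_MP_daea50_h85
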