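import Pool.Agent.W_MP_daea50_h85.Defs

set_option autoImplicit false

/-!
# CPb: injective enumeration of the classes of the points of a partial transversal

For `x` let `S x = {n | ∀ m < n, g m x ≠ g n x}` (infinite if the class is), `f x i = g (nth (S x) i) x`
(`Nat.nth`).  `f x` is injective for `x ∈ T`, and `f x i = f y j` with `x, y ∈ T` gives `E x y`, so
`x = y`.  Measurability of `x ↦ Nat.nth (· ∈ S x) i`: `{x | n ∈ S x}` is Borel for every `n`, and
`nth (S x) i = n` iff `n ∈ S x` and `Nat.count (· ∈ S x) n = i` (for infinite `S x`; for the others use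
any default, e.g. define `f` with `if` on the measurable set where ... or use that the preimage of each
value is Borel also in the finite case); alternatively define by recursion
`ν x 0 = 0`, `ν x (i+1) =` least `n > ν x i` in `S x` (and `0` if none).
-/

namespace Pool.Agent.W_MP_daea50_h85

universe u

theorem exists_enum {X : Type u} [MeasurableSpace X] [StandardBorelSpace X]
    (E : X → X → Prop) (hE : Equivalence E) (g : ℕ → X → X) (hg : ∀ n, Measurable (g n))
    (hgE : ∀ x y, E x y ↔ ∃ n, g n x = y) (T : Set X)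
    (hTu : ∀ x ∈ T, ∀ y ∈ T, E x y → x = y) (hinf : ∀ x ∈ T, {y | E x y}.Infinite) :
    ∃ f : X → ℕ → X, (∀ i, Measurable fun x => f x i) ∧ (∀ x ∈ T, ∀ i, E x (f x i)) ∧
      ∀ x ∈ T, ∀ y ∈ T, ∀ i j, f x i = f y j → x = y ∧ i = j := by
  classical
  let S : X → ℕ → Prop := fun x n => ∀ m, m < n → g m x ≠ g n x
  have hSm : ∀ n, MeasurableSet {x | S x n} := by
    intro n
    have : {x | S x n} = ⋂ m, {x | m < n → g m x ≠ g n x} := by
      ext x; simp [S]
    rw [this]
    refine MeasurableSet.iInter fun m => ?_
    by_cases h : m < n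
    · simp only [h, forall_const]
      exact (measurableSet_eq_fun (hg m) (hg n)).compl
    · simp [h]
  have hcm : ∀ n, Measurable fun x => Nat.count (S x) n := by
    intro n
    induction n with
    | zero => simp only [Nat.count_zero]; exact measurable_const
    | succ n ih =>
      simp only [Nat.count_succ]
      exact ih.add (Measurable.ite (hSm n) measurable_const measurable_const)
  let P : ℕ → ℕ → X → Prop := fun i n x => S x n ∧ Nat.count (S x) n = i
  have hPm : ∀ i n, MeasurableSet {x | P i n x} := by
    intro i n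
    exact (hSm n).inter (hcm n (measurableSet_singleton i))
  let Q : ℕ → ℕ → X → Prop := fun i n x => P i n x ∨ ∀ m, ¬ P i m x
  have hQm : ∀ i n, MeasurableSet {x | Q i n x} := by
    intro i n
    have h2 : MeasurableSet {x | ∀ m, ¬ P i m x} := by
      have : {x | ∀ m, ¬ P i m x} = ⋂ m, {x | P i m x}ᶜ := by
        ext x; simp
      rw [this]
      exact MeasurableSet.iInter fun m => (hPm i m).compl
    exact (hPm i n).union h2
  have hex : ∀ i x, ∃ n, Q i n x := by
    intro i x
    by_cases h : ∃ n, P i n x
    · obtain ⟨n, hn⟩ := h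
      exact ⟨n, Or.inl hn⟩
    · exact ⟨0, Or.inr (fun m hm => h ⟨m, hm⟩)⟩
  -- for points of `T` the index set is infinite
  have hSinf : ∀ x ∈ T, (Set.ofPred (S x)).Infinite := by
    intro x hx hfin
    apply hinf x hx
    refine (hfin.image (fun n => g n x)).subset ?_
    intro y hy
    have hy' : ∃ n, g n x = y := (hgE x y).1 hy
    refine ⟨Nat.find hy', ?_, Nat.find_spec hy'⟩
    intro m hm he
    exact Nat.find_min hy' hm (he.trans (Nat.find_spec hy'))
  have hPex : ∀ x ∈ T, ∀ i, ∃ n, P i n x := fun x hx i =>
    ⟨Nat.nth (S x) i, Nat.nth_mem_of_infinite (hSinf x hx) i,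
      Nat.count_nth_of_infinite (hSinf x hx) i⟩
  have hPf : ∀ x ∈ T, ∀ i, P i (Nat.find (hex i x)) x := by
    intro x hx i
    rcases Nat.find_spec (hex i x) with h | h
    · exact h
    · obtain ⟨n, hn⟩ := hPex x hx i
      exact absurd hn (h n)
  refine ⟨fun x i => g (Nat.find (hex i x)) x, ?_, ?_, ?_⟩
  · intro i
    exact Measurable.find hg (hQm i) (hex i)
  · intro x _ i
    exact (hgE _ _).2 ⟨_, rfl⟩
  · intro x hx y hy i j h
    have hxy : x = y := by
      apply hTu x hx y hy
      refine hE.trans ((hgE _ _).2 ⟨_, rfl⟩ : E x (g (Nat.find (hex i x)) x)) ?_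
      simp only at h
      rw [h]
      exact hE.symm ((hgE _ _).2 ⟨_, rfl⟩)
    subst hxy
    refine ⟨rfl, ?_⟩
    have h1 := hPf x hx i
    have h2 := hPf x hx j
    simp only at h
    have hn : Nat.find (hex i x) = Nat.find (hex j x) := by
      rcases lt_trichotomy (Nat.find (hex i x)) (Nat.find (hex j x)) with h3 | h3 | h3
      · exact absurd h (h2.1 _ h3)
      · exact h3
      · exact absurd h.symm (h1.1 _ h3)
    rw [← h1.2, ← h2.2, hn]

end Pool.Agent.W_MP_daea50_h85
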