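import Pool.Agent.W_MP_daea50_h85.SB

set_option autoImplicit false

/-!
# CPc: absorption, and the bit structure on a compressible part

`exists_absorb`: by `schroeder` for the relation `R x p := E x p.1` (subtype values) between `W` and
`W × ℕ` (then take `symm`): `x ↦ (x, 0)` is injective; in the other direction
`(x, m) ↦ f (g i x) (Nat.pair i m)` with `i` the least `i` such that `g i x ∈ A`; it is injective since
`f a p = f a' p'` gives `a = a'`, `p = p'`, so `i = i'`, `m = m'`, `g i x = g i x'` and `g i` is an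
involution.

`bits_of_absorb`: `D₁ = {z | Tail z (fun _ => true)}` is countably infinite; let `e : ℕ ≃ D₁`.  For
`y ∈ W`, `h.symm y = (x, k)`: `pi y = e k`, `rep n v y = h (x, e.symm (spl n v (e k)))`; outside `W`:
`pi y = fun _ => false`, `rep n v y = y`.  A sequence which is eventually `true` has only finitely many
zero blocks.
-/

namespace Pool.Agent.W_MP_daea50_h85

universe u

theorem exists_absorb {X : Type u} [MeasurableSpace X] [StandardBorelSpace X]
    (E : X → X → Prop) (hE : Equivalence E) (g : ℕ → X → X) (hg : ∀ n, Measurable (g n))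
    (hinv : ∀ n x, g n (g n x) = x) (hgE : ∀ x y, E x y ↔ ∃ n, g n x = y)
    (W A : Set X) (hW : MeasurableSet W) (hA : MeasurableSet A)
    (hfull : ∀ x ∈ W, ∃ y ∈ A, E x y)
    (f : X → ℕ → X) (hf : ∀ i, Measurable fun x => f x i)
    (hfE : ∀ x ∈ A, ∀ i, f x i ∈ W ∧ E x (f x i))
    (hfi : ∀ x ∈ A, ∀ y ∈ A, ∀ i j, f x i = f y j → x = y ∧ i = j) :
    ∃ h : (W × ℕ) ≃ᵐ W, ∀ p : W × ℕ, E (p.1 : X) (h p : X) := by
  classical
  have : StandardBorelSpace W := hW.standardBorel
  have hex : ∀ x : W, ∃ n, g n (x : X) ∈ A := by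
    intro x
    obtain ⟨y, hy, hxy⟩ := hfull x x.2
    obtain ⟨n, hn⟩ := (hgE _ _).1 hxy
    exact ⟨n, by rw [hn]; exact hy⟩
  let I : W → ℕ := fun x => Nat.find (hex x)
  have hI : ∀ x : W, g (I x) (x : X) ∈ A := fun x => Nat.find_spec (hex x)
  have hIm : Measurable I := by
    refine measurable_find (p := fun (x : W) n => g n (x : X) ∈ A) hex fun k => ?_
    exact ((hg k).comp measurable_subtype_coe) hA
  let G : W × ℕ → W := fun q => ⟨f (g (I q.1) (q.1 : X)) (Nat.pair (I q.1) q.2),
    (hfE _ (hI q.1) _).1⟩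
  have hGm : Measurable G := by
    refine Measurable.subtype_mk ?_
    refine measurable_from_prod_countable_left fun m => ?_
    have h1 : Measurable fun r : W × ℕ => f (g r.2 (r.1 : X)) (Nat.pair r.2 m) := by
      refine measurable_from_prod_countable_left fun i => ?_
      exact (hf (Nat.pair i m)).comp ((hg i).comp measurable_subtype_coe)
    exact h1.comp (measurable_id.prodMk hIm)
  have hGi : Function.Injective G := by
    rintro ⟨x, m⟩ ⟨x', m'⟩ hxx
    have h1 : f (g (I x) (x : X)) (Nat.pair (I x) m) =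
        f (g (I x') (x' : X)) (Nat.pair (I x') m') := congrArg Subtype.val hxx
    obtain ⟨h2, h3⟩ := hfi _ (hI x) _ (hI x') _ _ h1
    obtain ⟨h4, h5⟩ := Nat.pair_eq_pair.1 h3
    rw [h4] at h2
    have h6 : (x : X) = x' := by rw [← hinv (I x') (x : X), h2, hinv]
    exact Prod.ext (Subtype.ext h6) h5
  obtain ⟨h, hh⟩ := schroeder (A := W) (B := W × ℕ) (fun x p => E (x : X) (p.1 : X))
    (fun x => (x, 0)) (measurable_id.prodMk measurable_const)
    (fun x y hxy => congrArg Prod.fst hxy) G hGm hGi (fun a => hE.refl _)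
    (fun b => hE.symm (hE.trans ((hgE _ _).2 ⟨I b.1, rfl⟩) (hfE _ (hI b.1) _).2))
  refine ⟨h.symm, fun p => ?_⟩
  have h1 := hh (h.symm p)
  rw [h.apply_symm_apply] at h1
  exact hE.symm h1

/-- the sequences which are eventually `true` -/
def DOne : Set (ℕ → Bool) := {z | Tail z (fun _ => true)}

theorem countable_DOne : DOne.Countable := by
  classical
  refine (Set.countable_range (fun s : Finset ℕ => fun i => decide (i ∉ s))).mono ?_
  rintro z ⟨n, hn⟩
  refine ⟨(Finset.range n).filter fun i => z i = false, ?_⟩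
  funext i
  by_cases hi : i < n
  · cases hz : z i <;> simp [hi, hz]
  · have := hn i (Nat.not_lt.1 hi)
    simp [this]

theorem infinite_DOne : DOne.Infinite := by
  refine Set.infinite_of_injective_forall_mem (f := fun n : ℕ => fun i => decide (i ≠ n)) ?_ ?_
  · intro n m hnm
    have := congrFun hnm n
    simpa using this
  · intro n
    refine ⟨n + 1, fun i hi => ?_⟩
    simp only [decide_eq_true_eq]
    omega

theorem not_infZ_of_mem_DOne {z : ℕ → Bool} (hz : z ∈ DOne) : ¬ InfZ z := by
  intro h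
  obtain ⟨k, -, hk⟩ := (h.tail hz) 0
  have := hk (bd k) le_rfl (bd_lt k)
  simp at this

theorem bits_of_absorb {X : Type u} [MeasurableSpace X] [StandardBorelSpace X]
    (E : X → X → Prop) (hE : Equivalence E) (W : Set X) (hW : MeasurableSet W)
    (hWi : ∀ x y, x ∈ W → E x y → y ∈ W)
    (h : (W × ℕ) ≃ᵐ W) (hh : ∀ p : W × ℕ, E (p.1 : X) (h p : X)) :
    ∃ (pi : X → ℕ → Bool) (rep : ℕ → (ℕ → Bool) → X → X), BitOn E W pi rep ∧
      ∀ y ∈ W, ¬ InfZ (pi y) := by
  classical
  have : Countable DOne := countable_DOne.to_subtype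
  have : Infinite DOne := infinite_DOne.to_subtype
  obtain ⟨e⟩ : Nonempty (ℕ ≃ DOne) := nonempty_equiv_of_countable
  have hspl : ∀ (n : ℕ) (v : ℕ → Bool) (z : DOne), spl n v z ∈ DOne := fun n v z =>
    (tail_spl n v z).symm.trans z.2
  -- the index after replacing the first `n` bits
  let c : ℕ → (ℕ → Bool) → ℕ → ℕ := fun n v k => e.symm ⟨spl n v (e k), hspl n v (e k)⟩
  have hc : ∀ n v k, (e (c n v k) : ℕ → Bool) = spl n v (e k) := by
    intro n v k
    simp only [c, Equiv.apply_symm_apply]
  let pi : X → ℕ → Bool := fun y => if hy : y ∈ W then (e (h.symm ⟨y, hy⟩).2 : ℕ → Bool)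
    else fun _ => false
  let rep : ℕ → (ℕ → Bool) → X → X := fun n v y => if hy : y ∈ W then
    (h ((h.symm ⟨y, hy⟩).1, c n v (h.symm ⟨y, hy⟩).2) : X) else y
  have hpi : ∀ p : W × ℕ, pi (h p) = e p.2 := by
    intro p
    simp only [pi, (h p).2, dif_pos, Subtype.coe_eta, MeasurableEquiv.symm_apply_apply]
  have hrep : ∀ n v (p : W × ℕ), rep n v (h p) = h (p.1, c n v p.2) := by
    intro n v p
    simp only [rep, (h p).2, dif_pos, Subtype.coe_eta, MeasurableEquiv.symm_apply_apply]
  have hsurj : ∀ y ∈ W, ∃ p : W × ℕ, (h p : X) = y := by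
    intro y hy
    exact ⟨h.symm ⟨y, hy⟩, by rw [h.apply_symm_apply]⟩
  refine ⟨pi, rep, ⟨hW, hWi, ?_, ?_, ?_, ?_, ?_, ?_, ?_⟩, ?_⟩
  · refine Measurable.dite (f := fun y : W => (e (h.symm y).2 : ℕ → Bool))
      (g := fun _ => fun _ => false) ?_ measurable_const hW
    have h1 : Measurable fun k : ℕ => (e k : ℕ → Bool) := measurable_from_nat
    exact h1.comp (measurable_snd.comp h.symm.measurable)
  · intro n v
    refine Measurable.dite (f := fun y : W => (h ((h.symm y).1, c n v (h.symm y).2) : X))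
      (g := fun y => (y : X)) ?_ measurable_subtype_coe hW
    refine measurable_subtype_coe.comp (h.measurable.comp ?_)
    have h1 : Measurable (c n v) := measurable_from_nat
    exact (measurable_fst.comp h.symm.measurable).prodMk
      (h1.comp (measurable_snd.comp h.symm.measurable))
  · intro n u v y huv
    have hs : ∀ z, spl n u z = spl n v z := by
      intro z
      funext i
      by_cases hi : i < n
      · rw [spl_lt _ _ hi, spl_lt _ _ hi, huv i hi]
      · rw [spl_ge _ _ (Nat.not_lt.1 hi), spl_ge _ _ (Nat.not_lt.1 hi)]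
    simp only [rep, c, hs]
  · intro n v y hy
    obtain ⟨p, rfl⟩ := hsurj y hy
    rw [hrep]
    exact hE.trans (hE.symm (hh p)) (hh (p.1, c n v p.2))
  · intro n v y hy
    obtain ⟨p, rfl⟩ := hsurj y hy
    rw [hrep, hpi, hpi, hc]
  · intro n y hy
    obtain ⟨p, rfl⟩ := hsurj y hy
    rw [hrep, hpi]
    have : c n (e p.2) p.2 = p.2 := by
      apply e.injective
      apply Subtype.ext
      rw [hc]
      funext i
      simp [spl]
    rw [this]
  · intro n m hnm u v y hy
    obtain ⟨p, rfl⟩ := hsurj y hy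
    rw [hrep, hrep, hrep]
    have : c m u (c n v p.2) = c m u p.2 := by
      apply e.injective
      apply Subtype.ext
      rw [hc, hc, hc]
      funext i
      by_cases hi : i < m
      · rw [spl_lt _ _ hi, spl_lt _ _ hi]
      · rw [spl_ge _ _ (Nat.not_lt.1 hi), spl_ge _ _ (Nat.not_lt.1 hi),
          spl_ge _ _ (hnm.trans (Nat.not_lt.1 hi))]
    rw [this]
  · intro y hy
    obtain ⟨p, rfl⟩ := hsurj y hy
    rw [hpi]
    exact not_infZ_of_mem_DOne (e p.2).2

end Pool.Agent.W_MP_daea50_h85
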