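import Pool.Agent.W_MP_daea50_h85.MTa

set_option autoImplicit false

/-!
# MTb: bit structure from nested matchings

`T n = T (n+1) ⊔ ι n (T (n+1))`.  For `x ∈ Z` define `t 0 x = x`,
`t (n+1) x = if t n x ∈ T (n+1) then t n x else ι n (t n x)` (so `t n x ∈ T n`),
`pi x n = true ↔ t n x ∉ T (n+1)`.  For `v : ℕ → Bool` define `build 0 v s = s`,
`build (n+1) v s = build n v (if v n then ι n s else s)`.  For `s ∈ T n`: `build n v s ∈ Z`,
`t n (build n v s) = s`, `pi (build n v s) i = v i` for `i < n`, `build n (pi x) (t n x) = x`,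
`t m x` depends only on `t n x` for `m ≥ n`.  Put `rep n v x = build n v (t n x)` for `x ∈ Z` and
`rep n v x = x`, `pi x = fun _ => false` for `x ∉ Z`.
-/

namespace Pool.Agent.W_MP_daea50_h85

universe u

open Classical in
/-- the representative of `x` at level `n` -/
noncomputable def tMB {X : Type u} (T : ℕ → Set X) (ι : ℕ → X → X) : ℕ → X → X
  | 0, x => x
  | n + 1, x => if tMB T ι n x ∈ T (n + 1) then tMB T ι n x else ι n (tMB T ι n x)

/-- insert the first `n` bits of `v` -/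
def buildMB {X : Type u} (ι : ℕ → X → X) : ℕ → (ℕ → Bool) → X → X
  | 0, _, s => s
  | n + 1, v, s => buildMB ι n v (if v n then ι n s else s)

open Classical in
/-- the bits of `x` -/
noncomputable def piMB {X : Type u} (Z : Set X) (T : ℕ → Set X) (ι : ℕ → X → X) (x : X) (n : ℕ) :
    Bool := if x ∈ Z ∧ tMB T ι n x ∉ T (n + 1) then true else false

open Classical in
/-- replace the first `n` bits of `x` by those of `v` -/
noncomputable def repMB {X : Type u} (Z : Set X) (T : ℕ → Set X) (ι : ℕ → X → X) (n : ℕ)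
    (v : ℕ → Bool) (x : X) : X := if x ∈ Z then buildMB ι n v (tMB T ι n x) else x

section

variable {X : Type u} {Z : Set X} {T : ℕ → Set X} {ι : ℕ → X → X}

theorem tMB_succ (n : ℕ) (x : X) : (tMB T ι n x ∈ T (n + 1) → tMB T ι (n + 1) x = tMB T ι n x) ∧
    (tMB T ι n x ∉ T (n + 1) → tMB T ι (n + 1) x = ι n (tMB T ι n x)) :=
  ⟨fun h => by rw [tMB, if_pos h], fun h => by rw [tMB, if_neg h]⟩

theorem buildMB_succ (n : ℕ) (v : ℕ → Bool) (s : X) :
    (v n = true → buildMB ι (n + 1) v s = buildMB ι n v (ι n s)) ∧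
    (v n = false → buildMB ι (n + 1) v s = buildMB ι n v s) :=
  ⟨fun h => by rw [buildMB, if_pos h], fun h => by rw [buildMB, if_neg (by simp [h])]⟩

theorem piMB_true {x : X} (hx : x ∈ Z) {n : ℕ} (h : tMB T ι n x ∉ T (n + 1)) :
    piMB Z T ι x n = true := by
  rw [piMB, if_pos ⟨hx, h⟩]

theorem piMB_false {x : X} {n : ℕ} (h : tMB T ι n x ∈ T (n + 1)) : piMB Z T ι x n = false := by
  rw [piMB, if_neg fun h' => h'.2 h]

theorem tMB_mem (hT0 : T 0 = Z) (h1 : ∀ n, ∀ x ∈ T n, (ι n x ∈ T (n + 1) ↔ x ∉ T (n + 1)))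
    {x : X} (hx : x ∈ Z) : ∀ n, tMB T ι n x ∈ T n
  | 0 => by rw [hT0]; exact hx
  | n + 1 => by
    have ih := tMB_mem hT0 h1 hx n
    by_cases h : tMB T ι n x ∈ T (n + 1)
    · rw [(tMB_succ n x).1 h]; exact h
    · rw [(tMB_succ n x).2 h]; exact (h1 n _ ih).2 h

theorem tMB_E {E : X → X → Prop} (hE : Equivalence E) (hT0 : T 0 = Z)
    (h1 : ∀ n, ∀ x ∈ T n, (ι n x ∈ T (n + 1) ↔ x ∉ T (n + 1)))
    (h2 : ∀ n, ∀ x ∈ T n, E x (ι n x)) {x : X} (hx : x ∈ Z) : ∀ n, E x (tMB T ι n x)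
  | 0 => hE.refl x
  | n + 1 => by
    have ih := tMB_E hE hT0 h1 h2 hx n
    by_cases h : tMB T ι n x ∈ T (n + 1)
    · rw [(tMB_succ n x).1 h]; exact ih
    · rw [(tMB_succ n x).2 h]; exact hE.trans ih (h2 n _ (tMB_mem hT0 h1 hx n))

theorem buildMB_congr {u v : ℕ → Bool} :
    ∀ {n : ℕ}, (∀ i, i < n → u i = v i) → ∀ s : X, buildMB ι n u s = buildMB ι n v s
  | 0, _, _ => rfl
  | n + 1, h, s => by
    rw [buildMB, buildMB, h n (Nat.lt_succ_self n)]
    exact buildMB_congr (fun i hi => h i (Nat.lt_succ_of_lt hi)) _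

theorem tMB_congr {x y : X} {n : ℕ} (h : tMB T ι n x = tMB T ι n y) :
    ∀ k, tMB T ι (n + k) x = tMB T ι (n + k) y
  | 0 => h
  | k + 1 => by
    have ih := tMB_congr h k
    show tMB T ι (n + k + 1) x = tMB T ι (n + k + 1) y
    by_cases h' : tMB T ι (n + k) x ∈ T (n + k + 1)
    · rw [(tMB_succ _ x).1 h', (tMB_succ _ y).1 (ih ▸ h'), ih]
    · rw [(tMB_succ _ x).2 h', (tMB_succ _ y).2 (ih ▸ h'), ih]

theorem buildMB_spec {E : X → X → Prop} (hE : Equivalence E) (hT0 : T 0 = Z)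
    (hTs : ∀ n, T (n + 1) ⊆ T n)
    (h : ∀ n, ∀ x ∈ T n, ι n x ∈ T n ∧ ι n (ι n x) = x ∧ E x (ι n x) ∧
        (ι n x ∈ T (n + 1) ↔ x ∉ T (n + 1))) (v : ℕ → Bool) :
    ∀ n, ∀ s ∈ T n, buildMB ι n v s ∈ Z ∧ tMB T ι n (buildMB ι n v s) = s ∧
      E s (buildMB ι n v s) ∧ ∀ i, i < n → piMB Z T ι (buildMB ι n v s) i = v i
  | 0, s, hs => ⟨hT0 ▸ hs, rfl, hE.refl s, fun i hi => absurd hi (Nat.not_lt_zero i)⟩
  | n + 1, s, hs => by
    have hsn : s ∈ T n := hTs n hs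
    obtain ⟨a1, a2, a3, a4⟩ := h n s hsn
    cases hv : v n
    · rw [(buildMB_succ n v s).2 hv]
      obtain ⟨b1, b2, b3, b4⟩ := buildMB_spec hE hT0 hTs h v n s hsn
      refine ⟨b1, ?_, b3, fun i hi => ?_⟩
      · rw [(tMB_succ n _).1 (by rw [b2]; exact hs), b2]
      · rcases Nat.lt_succ_iff_lt_or_eq.1 hi with hi | rfl
        · exact b4 i hi
        · rw [hv]; exact piMB_false (by rw [b2]; exact hs)
    · rw [(buildMB_succ n v s).1 hv]
      obtain ⟨b1, b2, b3, b4⟩ := buildMB_spec hE hT0 hTs h v n (ι n s) a1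
      have hn : ι n s ∉ T (n + 1) := fun hc => (a4.1 hc) hs
      refine ⟨b1, ?_, hE.trans a3 b3, fun i hi => ?_⟩
      · rw [(tMB_succ n _).2 (by rw [b2]; exact hn), b2, a2]
      · rcases Nat.lt_succ_iff_lt_or_eq.1 hi with hi | rfl
        · exact b4 i hi
        · rw [hv]; exact piMB_true b1 (by rw [b2]; exact hn)

theorem buildMB_pi (hT0 : T 0 = Z)
    (h1 : ∀ n, ∀ x ∈ T n, (ι n x ∈ T (n + 1) ↔ x ∉ T (n + 1)))
    (h2 : ∀ n, ∀ x ∈ T n, ι n (ι n x) = x) {x : X} (hx : x ∈ Z) :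
    ∀ n, buildMB ι n (piMB Z T ι x) (tMB T ι n x) = x
  | 0 => rfl
  | n + 1 => by
    have ih := buildMB_pi hT0 h1 h2 hx n
    by_cases h : tMB T ι n x ∈ T (n + 1)
    · rw [(buildMB_succ n _ _).2 (piMB_false h), (tMB_succ n x).1 h]
      exact ih
    · rw [(buildMB_succ n _ _).1 (piMB_true hx h), (tMB_succ n x).2 h,
        h2 n _ (tMB_mem hT0 h1 hx n)]
      exact ih

theorem measurable_tMB [MeasurableSpace X] (hT : ∀ n, MeasurableSet (T n))
    (hι : ∀ n, Measurable (ι n)) : ∀ n, Measurable (tMB T ι n)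
  | 0 => measurable_id
  | n + 1 => by
    have ih := measurable_tMB hT hι n
    exact Measurable.ite (ih (hT (n + 1))) ih ((hι n).comp ih)

theorem measurable_buildMB [MeasurableSpace X] (hι : ∀ n, Measurable (ι n)) (v : ℕ → Bool) :
    ∀ n, Measurable (buildMB ι n v)
  | 0 => measurable_id
  | n + 1 => by
    have ih := measurable_buildMB hι v n
    cases hv : v n
    · have : buildMB ι (n + 1) v = buildMB ι n v := funext fun s => (buildMB_succ n v s).2 hv
      rw [this]; exact ih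
    · have : buildMB ι (n + 1) v = fun s => buildMB ι n v (ι n s) :=
        funext fun s => (buildMB_succ n v s).1 hv
      rw [this]; exact ih.comp (hι n)

end

theorem bits_of_matchings {X : Type u} [MeasurableSpace X]
    (E : X → X → Prop) (hE : Equivalence E) (Z : Set X) (T : ℕ → Set X) (ι : ℕ → X → X)
    (hZ : MeasurableSet Z) (hZi : ∀ x y, x ∈ Z → E x y → y ∈ Z)
    (hT : ∀ n, MeasurableSet (T n)) (hι : ∀ n, Measurable (ι n)) (hT0 : T 0 = Z)
    (hTs : ∀ n, T (n + 1) ⊆ T n)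
    (h : ∀ n, ∀ x ∈ T n, ι n x ∈ T n ∧ ι n (ι n x) = x ∧ E x (ι n x) ∧
        (ι n x ∈ T (n + 1) ↔ x ∉ T (n + 1))) :
    ∃ (pi : X → ℕ → Bool) (rep : ℕ → (ℕ → Bool) → X → X), BitOn E Z pi rep := by
  classical
  have h1 : ∀ n, ∀ x ∈ T n, (ι n x ∈ T (n + 1) ↔ x ∉ T (n + 1)) := fun n x hx => (h n x hx).2.2.2
  have h2 : ∀ n, ∀ x ∈ T n, E x (ι n x) := fun n x hx => (h n x hx).2.2.1
  have h3 : ∀ n, ∀ x ∈ T n, ι n (ι n x) = x := fun n x hx => (h n x hx).2.1
  have hrep : ∀ n v y, y ∈ Z → repMB Z T ι n v y = buildMB ι n v (tMB T ι n y) := by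
    intro n v y hy
    rw [repMB, if_pos hy]
  have hsp : ∀ n v y, y ∈ Z → repMB Z T ι n v y ∈ Z ∧
      tMB T ι n (repMB Z T ι n v y) = tMB T ι n y ∧ E (tMB T ι n y) (repMB Z T ι n v y) ∧
      ∀ i, i < n → piMB Z T ι (repMB Z T ι n v y) i = v i := by
    intro n v y hy
    rw [hrep n v y hy]
    exact buildMB_spec hE hT0 hTs h v n _ (tMB_mem hT0 h1 hy n)
  refine ⟨piMB Z T ι, repMB Z T ι, hZ, hZi, ?_, ?_, ?_, ?_, ?_, ?_, ?_⟩
  · refine measurable_pi_lambda _ fun n => ?_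
    exact Measurable.ite (hZ.inter ((measurable_tMB hT hι n) (hT (n + 1)).compl))
      measurable_const measurable_const
  · intro n v
    exact Measurable.ite hZ ((measurable_buildMB hι v n).comp (measurable_tMB hT hι n))
      measurable_id
  · intro n u v y huv
    by_cases hy : y ∈ Z
    · rw [hrep n u y hy, hrep n v y hy]
      exact buildMB_congr huv _
    · rw [repMB, repMB, if_neg hy, if_neg hy]
  · intro n v y hy
    exact hE.trans (tMB_E hE hT0 h1 h2 hy n) (hsp n v y hy).2.2.1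
  · intro n v y hy
    obtain ⟨a1, a2, -, a4⟩ := hsp n v y hy
    funext i
    rcases Nat.lt_or_ge i n with hi | hi
    · rw [a4 i hi, spl_lt _ _ hi]
    · rw [spl_ge _ _ hi]
      obtain ⟨k, rfl⟩ := Nat.exists_eq_add_of_le hi
      have e := tMB_congr a2 k
      unfold piMB
      rw [e]
      simp only [a1, hy]
  · intro n y hy
    rw [hrep n _ y hy]
    exact buildMB_pi hT0 h1 h3 hy n
  · intro n m hnm u v y hy
    obtain ⟨a1, a2, -, -⟩ := hsp n v y hy
    obtain ⟨k, rfl⟩ := Nat.exists_eq_add_of_le hnm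
    rw [hrep _ u _ a1, hrep _ u y hy, tMB_congr a2 k]

end Pool.Agent.W_MP_daea50_h85
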