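import Pool.Agent.W_MP_daea50_h85.CPa
import Pool.Agent.W_MP_daea50_h85.CPb
import Pool.Agent.W_MP_daea50_h85.CPc
import Pool.Agent.W_MP_daea50_h85.MTb

set_option autoImplicit false

/-!
# CPd: every aperiodic `E` has a bit structure with finitely many zero blocks at every point

`BitOn.glue`: piecewise definition.  `BitOn.restrict`: same `pi, rep`.
`exists_finZ`: take `Z, pi, rep` from `exists_matchings`, `bits_of_matchings`, and the transversal `S` of
`Zᶜ`.  Let `A₁ = {x ∈ Z | InfZ (pi x)}`, `A = S ∪ A₁`,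
`W = Zᶜ ∪ {x ∈ Z | ∃ n, g n x ∈ A₁}` (Borel, invariant), `f` = the map of `exists_enum` on `S` and that
of `compress` on `A₁` (`S` and `A₁` are in the disjoint invariant sets `Zᶜ` and `Z`).  By `exists_absorb`
and `bits_of_absorb` there is a bit structure on `W` without `InfZ`; on `Z \ W` (invariant) restrict the
first one, there `¬ InfZ (pi x)` as `g 0`.. some `g n x = x`.  Glue.
-/

namespace Pool.Agent.W_MP_daea50_h85

universe u

open Classical in
theorem BitOn.glue {X : Type u} [MeasurableSpace X] {E : X → X → Prop} {Z W : Set X}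
    {pi pi' : X → ℕ → Bool} {rep rep' : ℕ → (ℕ → Bool) → X → X} (h : BitOn E Z pi rep)
    (h' : BitOn E W pi' rep') :
    BitOn E (Z ∪ W) (fun x => if x ∈ Z then pi x else pi' x)
      (fun n v x => if x ∈ Z then rep n v x else rep' n v x) := by
  have hin : ∀ n v, ∀ y ∈ Z, rep n v y ∈ Z := fun n v y hy => h.inv y _ hy (h.rep_E n v y hy)
  have hin' : ∀ n v, ∀ y ∈ W, rep' n v y ∈ W := fun n v y hy => h'.inv y _ hy (h'.rep_E n v y hy)
  have hout : ∀ n v, ∀ y ∈ W, y ∉ Z → rep' n v y ∉ Z := by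
    intro n v y hy hyZ hc
    have e1 : rep' n (pi' y) (rep' n v y) = y := by
      rw [h'.rep_rep n n le_rfl _ _ y hy, h'.rep_pi n y hy]
    have e2 := h'.rep_E n (pi' y) (rep' n v y) (hin' n v y hy)
    rw [e1] at e2
    exact hyZ (h.inv _ _ hc e2)
  have hW : ∀ y, y ∈ Z ∪ W → y ∉ Z → y ∈ W := fun y hy hyZ => hy.resolve_left hyZ
  refine ⟨h.zmeas.union h'.zmeas, ?_, ?_, ?_, ?_, ?_, ?_, ?_, ?_⟩
  · rintro x y (hx | hx) hxy
    · exact Or.inl (h.inv x y hx hxy)
    · exact Or.inr (h'.inv x y hx hxy)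
  · exact Measurable.ite h.zmeas h.pi_meas h'.pi_meas
  · intro n v
    exact Measurable.ite h.zmeas (h.rep_meas n v) (h'.rep_meas n v)
  · intro n u v y huv
    show (if y ∈ Z then rep n u y else rep' n u y) = if y ∈ Z then rep n v y else rep' n v y
    rw [h.rep_congr n u v y huv, h'.rep_congr n u v y huv]
  · intro n v y hy
    show E y (if y ∈ Z then rep n v y else rep' n v y)
    by_cases hyZ : y ∈ Z
    · rw [if_pos hyZ]; exact h.rep_E n v y hyZ
    · rw [if_neg hyZ]; exact h'.rep_E n v y (hW y hy hyZ)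
  · intro n v y hy
    show (if (if y ∈ Z then rep n v y else rep' n v y) ∈ Z then
        pi (if y ∈ Z then rep n v y else rep' n v y) else
        pi' (if y ∈ Z then rep n v y else rep' n v y)) = spl n v (if y ∈ Z then pi y else pi' y)
    by_cases hyZ : y ∈ Z
    · rw [if_pos hyZ, if_pos hyZ, if_pos (hin n v y hyZ)]
      exact h.pi_rep n v y hyZ
    · have hyW := hW y hy hyZ
      rw [if_neg hyZ, if_neg hyZ, if_neg (hout n v y hyW hyZ)]
      exact h'.pi_rep n v y hyW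
  · intro n y hy
    show (if y ∈ Z then rep n (if y ∈ Z then pi y else pi' y) y
      else rep' n (if y ∈ Z then pi y else pi' y) y) = y
    by_cases hyZ : y ∈ Z
    · rw [if_pos hyZ, if_pos hyZ]; exact h.rep_pi n y hyZ
    · rw [if_neg hyZ, if_neg hyZ]; exact h'.rep_pi n y (hW y hy hyZ)
  · intro n m hnm u v y hy
    show (if (if y ∈ Z then rep n v y else rep' n v y) ∈ Z then
        rep m u (if y ∈ Z then rep n v y else rep' n v y) else
        rep' m u (if y ∈ Z then rep n v y else rep' n v y)) =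
        if y ∈ Z then rep m u y else rep' m u y
    by_cases hyZ : y ∈ Z
    · rw [if_pos hyZ, if_pos hyZ, if_pos (hin n v y hyZ)]
      exact h.rep_rep n m hnm u v y hyZ
    · have hyW := hW y hy hyZ
      rw [if_neg hyZ, if_neg hyZ, if_neg (hout n v y hyW hyZ)]
      exact h'.rep_rep n m hnm u v y hyW

theorem BitOn.restrict {X : Type u} [MeasurableSpace X] {E : X → X → Prop} {Z W : Set X}
    {pi : X → ℕ → Bool} {rep : ℕ → (ℕ → Bool) → X → X} (h : BitOn E Z pi rep)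
    (hW : MeasurableSet W) (hWi : ∀ x y, x ∈ W → E x y → y ∈ W) (hWZ : W ⊆ Z) :
    BitOn E W pi rep :=
  ⟨hW, hWi, h.pi_meas, h.rep_meas, h.rep_congr, fun n v y hy => h.rep_E n v y (hWZ hy),
    fun n v y hy => h.pi_rep n v y (hWZ hy), fun n y hy => h.rep_pi n y (hWZ hy),
    fun n m hnm u v y hy => h.rep_rep n m hnm u v y (hWZ hy)⟩

theorem exists_finZ {X : Type u} [MeasurableSpace X] [StandardBorelSpace X]
    (E : X → X → Prop) (hE : Equivalence E) (g : ℕ → X → X) (hg : ∀ n, Measurable (g n))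
    (hinv : ∀ n x, g n (g n x) = x) (hgE : ∀ x y, E x y ↔ ∃ n, g n x = y)
    (hinf : ∀ x, {y | E x y}.Infinite) :
    ∃ (pi : X → ℕ → Bool) (rep : ℕ → (ℕ → Bool) → X → X), BitOn E Set.univ pi rep ∧
      ∀ y, ¬ InfZ (pi y) := by
  classical
  obtain ⟨Z, T, ι, hZ, hZi, hT, hι, hT0, hTs, hm, S, hS, hSZ, hSu⟩ :=
    exists_matchings E hE g hg hinv hgE
  obtain ⟨pi, rep, hb⟩ := bits_of_matchings E hE Z T ι hZ hZi hT hι hT0 hTs hm
  have hZc : ∀ x y, x ∉ Z → E x y → y ∉ Z := fun x y hx hxy hy => hx (hZi y x hy (hE.symm hxy))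
  have hTu : ∀ x ∈ S, ∀ y ∈ S, E x y → x = y := by
    intro x hx y hy hxy
    obtain ⟨s, -, hs⟩ := hSu x (hSZ hx)
    rw [hs x ⟨hx, hE.refl x⟩, hs y ⟨hy, hxy⟩]
  obtain ⟨f1, hf1m, hf1E, hf1i⟩ := exists_enum E hE g hg hgE S hTu (fun x _ => hinf x)
  obtain ⟨f2, hf2m, hf2E, hf2i⟩ := compress hb
  set A1 : Set X := {x | x ∈ Z ∧ InfZ (pi x)} with hA1
  have hA1m : MeasurableSet A1 := hZ.inter (hb.pi_meas measurableSet_InfZ)
  set W : Set X := Zᶜ ∪ {x | x ∈ Z ∧ ∃ n, g n x ∈ A1} with hWdef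
  have hWm : MeasurableSet W := by
    refine hZ.compl.union ?_
    have : {x | x ∈ Z ∧ ∃ n, g n x ∈ A1} = Z ∩ ⋃ n, (g n) ⁻¹' A1 := by
      ext x; simp
    rw [this]
    exact hZ.inter (MeasurableSet.iUnion fun n => hg n hA1m)
  have hA1W : A1 ⊆ W := by
    intro x hx
    obtain ⟨n, hn⟩ := (hgE x x).1 (hE.refl x)
    exact Or.inr ⟨hx.1, n, by rw [hn]; exact hx⟩
  have hWi : ∀ x y, x ∈ W → E x y → y ∈ W := by
    rintro x y (hx | ⟨hx, n, hn⟩) hxy
    · exact Or.inl (hZc x y hx hxy)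
    · have h1 : E y (g n x) := hE.trans (hE.symm hxy) ((hgE x _).2 ⟨n, rfl⟩)
      obtain ⟨m, hm⟩ := (hgE y _).1 h1
      exact Or.inr ⟨hZi x y hx hxy, m, by rw [hm]; exact hn⟩
  have hAS : ∀ x ∈ A1, x ∉ S := fun x hx hxS => hSZ hxS hx.1
  obtain ⟨h, hh⟩ := exists_absorb E hE g hg hinv hgE W (S ∪ A1) hWm (hS.union hA1m)
    (by
      rintro x (hx | ⟨hx, n, hn⟩)
      · obtain ⟨s, ⟨hs1, hs2⟩, -⟩ := hSu x hx
        exact ⟨s, Or.inl hs1, hs2⟩
      · exact ⟨g n x, Or.inr hn, (hgE x _).2 ⟨n, rfl⟩⟩)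
    (fun x i => if x ∈ S then f1 x i else f2 x i)
    (fun i => Measurable.ite hS (hf1m i) (hf2m i))
    (by
      rintro x (hx | hx) i
      · show (if x ∈ S then f1 x i else f2 x i) ∈ W ∧ E x (if x ∈ S then f1 x i else f2 x i)
        rw [if_pos hx]
        exact ⟨Or.inl (hZc x _ (hSZ hx) (hf1E x hx i)), hf1E x hx i⟩
      · show (if x ∈ S then f1 x i else f2 x i) ∈ W ∧ E x (if x ∈ S then f1 x i else f2 x i)
        rw [if_neg (hAS x hx)]
        obtain ⟨h1, h2, h3⟩ := hf2E x hx.1 hx.2 i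
        exact ⟨hA1W ⟨h1, h2⟩, h3⟩)
    (by
      rintro x (hx | hx) y (hy | hy) i j hxy
      · have hxy' : (if x ∈ S then f1 x i else f2 x i) = (if y ∈ S then f1 y j else f2 y j) := hxy
        rw [if_pos hx, if_pos hy] at hxy'
        exact hf1i x hx y hy i j hxy'
      · have hxy' : (if x ∈ S then f1 x i else f2 x i) = (if y ∈ S then f1 y j else f2 y j) := hxy
        rw [if_pos hx, if_neg (hAS y hy)] at hxy'
        have h1 := hZc x _ (hSZ hx) (hf1E x hx i)
        rw [hxy'] at h1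
        exact absurd (hf2E y hy.1 hy.2 j).1 h1
      · have hxy' : (if x ∈ S then f1 x i else f2 x i) = (if y ∈ S then f1 y j else f2 y j) := hxy
        rw [if_neg (hAS x hx), if_pos hy] at hxy'
        have h1 := hZc y _ (hSZ hy) (hf1E y hy j)
        rw [← hxy'] at h1
        exact absurd (hf2E x hx.1 hx.2 i).1 h1
      · have hxy' : (if x ∈ S then f1 x i else f2 x i) = (if y ∈ S then f1 y j else f2 y j) := hxy
        rw [if_neg (hAS x hx), if_neg (hAS y hy)] at hxy'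
        exact hf2i x hx.1 y hy.1 hx.2 hy.2 i j hxy')
  obtain ⟨pi2, rep2, hb2, hn2⟩ := bits_of_absorb E hE W hWm hWi h hh
  have hb1 : BitOn E (Z \ W) pi rep := hb.restrict (hZ.diff hWm)
    (by
      rintro x y ⟨hx1, hx2⟩ hxy
      exact ⟨hZi x y hx1 hxy, fun hy => hx2 (hWi y x hy (hE.symm hxy))⟩)
    Set.sdiff_subset
  have hu : (Z \ W) ∪ W = Set.univ := by
    ext x
    by_cases hx : x ∈ W
    · simp [hx]
    · have hxZ : x ∈ Z := by
        by_contra hc
        exact hx (Or.inl hc)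
      simp [hx, hxZ]
  have hg1 := hb1.glue hb2
  rw [hu] at hg1
  refine ⟨_, _, hg1, ?_⟩
  intro y
  by_cases hy : y ∈ Z \ W
  · rw [if_pos hy]
    intro hc
    exact hy.2 (hA1W ⟨hy.1, hc⟩)
  · rw [if_neg hy]
    refine hn2 y ?_
    have : y ∈ (Z \ W) ∪ W := by rw [hu]; trivial
    exact this.resolve_left hy

end Pool.Agent.W_MP_daea50_h85
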