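import Pool.Agent.W_MP_daea50_h85.SPa
import Pool.Agent.W_MP_daea50_h85.CPd

set_option autoImplicit false

/-!
# SPb: the decomposition

Let `dbl z (2i) = z i`, `dbl z (2i+1) = false`, `ψ' = ψ ∘ dbl` (Borel, injective, and
`E (ψ' z) (ψ' w) ↔ Tail z w`), `B = {x | ∃ z, InfZ z ∧ E x (ψ' z)}`, `c = ψ (fun _ => true)`.
`c ∉ B` (odd bits), `C = {x | ¬ E c x ∧ x ∉ B}` is not empty: it contains `ψ z` for `z i = true ↔ i` odd.
* On `B`: `h` from `exists_hyp_equiv`; `pi x = h x`, `rep n v x = h.symm (spl n v (h x))` is a bit structure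
  (`E x (rep n v x)`: both are equivalent to `ψ' (h x)`, `ψ' (spl n v (h x))`, which are tail equal).
* On `C` (invariant Borel): apply `exists_finZ` to the subtype `C` (the involutions restrict to `C`,
  classes are infinite) and extend by `pi = fun _ => false`, `rep n v x = x` outside `C`.
Glue (`BitOn.glue`): `B ∪ C = {x | ¬ E c x}`.
Injectivity: if `InfZ (pi x)` then `x ∈ B` (also `y`, as `pi y = pi x`) and `h` is injective.
`E x y` and `InfZ (pi x)`: `x, y ∈ B` and `ψ' (h x) E ψ' (h y)`.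
-/

namespace Pool.Agent.W_MP_daea50_h85

universe u

open Classical in
/-- a bit structure on the subtype gives one on the set -/
theorem BitOn.extend {X : Type u} [MeasurableSpace X] {E : X → X → Prop} {Z : Set X} (hZ : MeasurableSet Z)
    (hinv : ∀ x y, x ∈ Z → E x y → y ∈ Z) {pi' : Z → ℕ → Bool} {rep' : ℕ → (ℕ → Bool) → Z → Z}
    (h : BitOn (fun x y : Z => E x.1 y.1) Set.univ pi' rep') :
    BitOn E Z (fun x => if hx : x ∈ Z then pi' ⟨x, hx⟩ else fun _ => false)
      (fun n v x => if hx : x ∈ Z then (rep' n v ⟨x, hx⟩).1 else x) where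
  zmeas := hZ
  inv := hinv
  pi_meas := by
    exact Measurable.dite (s := Z) (f := pi') (g := fun _ => fun _ => false) h.pi_meas measurable_const hZ
  rep_meas n v := by
    exact Measurable.dite (s := Z) (f := fun x => (rep' n v x).1) (g := fun x => x.1)
      (measurable_subtype_coe.comp (h.rep_meas n v)) measurable_subtype_coe hZ
  rep_congr n u v y huv := by
    by_cases hy : y ∈ Z
    · simp only [hy, dif_pos]
      rw [h.rep_congr n u v ⟨y, hy⟩ huv]
    · simp only [hy, dif_neg, not_false_eq_true]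
  rep_E n v y hy := by
    simp only [hy, dif_pos]
    exact h.rep_E n v ⟨y, hy⟩ trivial
  pi_rep n v y hy := by
    have h1 : (rep' n v ⟨y, hy⟩).1 ∈ Z := (rep' n v ⟨y, hy⟩).2
    simp only [hy, dif_pos, h1]
    exact h.pi_rep n v ⟨y, hy⟩ trivial
  rep_pi n y hy := by
    simp only [hy, dif_pos]
    rw [h.rep_pi n ⟨y, hy⟩ trivial]
  rep_rep n m hnm u v y hy := by
    have h1 : (rep' n v ⟨y, hy⟩).1 ∈ Z := (rep' n v ⟨y, hy⟩).2
    simp only [hy, dif_pos, h1]
    exact congrArg Subtype.val (h.rep_rep n m hnm u v ⟨y, hy⟩ trivial)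

/-- spreading out the bits -/
def dbl (z : ℕ → Bool) : ℕ → Bool := fun i => if i % 2 = 0 then z (i / 2) else false

theorem dbl_even (z : ℕ → Bool) (i : ℕ) : dbl z (2 * i) = z i := by
  simp [dbl]

theorem dbl_odd (z : ℕ → Bool) (i : ℕ) : dbl z (2 * i + 1) = false := by
  have : (2 * i + 1) % 2 = 1 := by omega
  simp [dbl, this]

theorem measurable_dbl : Measurable dbl := by
  refine measurable_pi_iff.2 fun i => ?_
  by_cases hi : i % 2 = 0
  · simp only [dbl, hi, if_true]
    exact measurable_pi_apply _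
  · simp only [dbl, hi, if_false]
    exact measurable_const

theorem dbl_injective : Function.Injective dbl := by
  intro z w h
  funext i
  rw [← dbl_even z i, ← dbl_even w i, h]

theorem tail_dbl (z w : ℕ → Bool) : Tail (dbl z) (dbl w) ↔ Tail z w := by
  constructor
  · rintro ⟨n, hn⟩
    refine ⟨n, fun i hi => ?_⟩
    rw [← dbl_even z i, ← dbl_even w i]
    exact hn _ (by omega)
  · rintro ⟨n, hn⟩
    refine ⟨2 * n, fun i hi => ?_⟩
    unfold dbl
    split_ifs
    · exact hn _ (by omega)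
    · rfl

theorem exists_split {X : Type u} [MeasurableSpace X] [StandardBorelSpace X]
    (E : X → X → Prop) (hE : Equivalence E) (g : ℕ → X → X) (hg : ∀ n, Measurable (g n))
    (hinv : ∀ n x, g n (g n x) = x) (hgE : ∀ x y, E x y ↔ ∃ n, g n x = y)
    (hinf : ∀ x, {y | E x y}.Infinite)
    (ψ : (ℕ → Bool) → X) (hψ : Measurable ψ) (hψi : Function.Injective ψ)
    (hψE : ∀ z w, E (ψ z) (ψ w) ↔ Tail z w) :
    ∃ (c : X) (pi : X → ℕ → Bool) (rep : ℕ → (ℕ → Bool) → X → X),
      BitOn E {x | ¬ E c x} pi rep ∧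
      (∀ x y, ¬ E c x → ¬ E c y → InfZ (pi x) → pi x = pi y → x = y) ∧
      (∀ z, InfZ z → ∃ x, ¬ E c x ∧ pi x = z) ∧
      (∀ x y, ¬ E c x → E x y → InfZ (pi x) → Tail (pi x) (pi y)) ∧
      ∃ x, ¬ E c x ∧ ¬ InfZ (pi x) := by
  classical
  have hψ' : Measurable (fun z => ψ (dbl z)) := hψ.comp measurable_dbl
  have hψi' : Function.Injective (fun z => ψ (dbl z)) := hψi.comp dbl_injective
  have hψE' : ∀ z w, E (ψ (dbl z)) (ψ (dbl w)) ↔ Tail z w := fun z w => (hψE _ _).trans (tail_dbl z w)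
  obtain ⟨h, hh⟩ := exists_hyp_equiv E hE g hg hinv hgE (fun z => ψ (dbl z)) hψ' hψi' hψE'
  have hBm := measurableSet_hyp E hE g hg hinv hgE (fun z => ψ (dbl z)) hψ' hψi'
  set B : Set X := {x : X | ∃ z, InfZ z ∧ E x (ψ (dbl z))} with hBdef
  have hBinv : ∀ x y, x ∈ B → E x y → y ∈ B := by
    rintro x y ⟨z, hz, hxz⟩ hxy
    exact ⟨z, hz, hE.trans (hE.symm hxy) hxz⟩
  -- equivalence in `B` through `h`
  have hEB : ∀ x y : B, E x.1 y.1 ↔ Tail (h x).1 (h y).1 := by
    intro x y
    rw [← hψE']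
    exact ⟨fun h1 => hE.trans (hE.trans (hE.symm (hh x)) h1) (hh y),
      fun h1 => hE.trans (hE.trans (hh x) h1) (hE.symm (hh y))⟩
  -- the bit structure on `B`
  have hspl : ∀ n v (x : B), InfZ (spl n v (h x).1) := fun n v x => (h x).2.tail (tail_spl n v _)
  have hB1 : BitOn (fun x y : B => E x.1 y.1) Set.univ (fun x => (h x).1)
      (fun n v x => h.symm ⟨spl n v (h x).1, hspl n v x⟩) := by
    constructor
    · exact MeasurableSet.univ
    · exact fun _ _ _ _ => trivial
    · exact measurable_subtype_coe.comp h.measurable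
    · intro n v
      refine h.symm.measurable.comp (Measurable.subtype_mk ?_)
      have h1 : Measurable (fun z : ℕ → Bool => spl n v z) := by
        refine measurable_pi_iff.2 fun i => ?_
        by_cases hi : i < n
        · simp only [spl, hi, if_true]; exact measurable_const
        · simp only [spl, hi, if_false]; exact measurable_pi_apply _
      exact h1.comp (measurable_subtype_coe.comp h.measurable)
    · intro n u v y huv
      have h1 : spl n u (h y).1 = spl n v (h y).1 := by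
        funext i
        by_cases hi : i < n
        · rw [spl_lt _ _ hi, spl_lt _ _ hi, huv i hi]
        · rw [spl_ge _ _ (Nat.not_lt.1 hi), spl_ge _ _ (Nat.not_lt.1 hi)]
      simp only [h1]
    · intro n v y _
      rw [hEB]
      simp only [MeasurableEquiv.apply_symm_apply]
      exact tail_spl n v _
    · intro n v y _
      simp only [MeasurableEquiv.apply_symm_apply]
    · intro n y _
      have h1 : spl n (h y).1 (h y).1 = (h y).1 := by
        funext i
        by_cases hi : i < n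
        · rw [spl_lt _ _ hi]
        · rw [spl_ge _ _ (Nat.not_lt.1 hi)]
      simp only [h1]
      exact h.symm_apply_apply y
    · intro n m hnm u v y _
      simp only [MeasurableEquiv.apply_symm_apply]
      have h1 : spl m u (spl n v (h y).1) = spl m u (h y).1 := by
        funext i
        by_cases hi : i < m
        · rw [spl_lt _ _ hi, spl_lt _ _ hi]
        · have hi' : n ≤ i := hnm.trans (Nat.not_lt.1 hi)
          rw [spl_ge _ _ (Nat.not_lt.1 hi), spl_ge _ _ (Nat.not_lt.1 hi), spl_ge _ _ hi']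
      simp only [h1]
  have hB := BitOn.extend hBm hBinv hB1
  -- the point `c`
  set c : X := ψ (fun _ => true) with hc
  have hcB : c ∉ B := by
    rintro ⟨z, _, hz⟩
    obtain ⟨n, hn⟩ := (hψE _ _).1 hz
    have h1 := hn (2 * n + 1) (by omega)
    rw [dbl_odd] at h1
    exact Bool.noConfusion h1
  -- the rest
  have hEc : MeasurableSet {x | E c x} := by
    have h1 : {x | E c x} = ⋃ n, {x | x = g n c} := by
      ext x
      simp only [Set.mem_ofPred_eq, Set.mem_iUnion]
      rw [hgE]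
      exact ⟨fun ⟨n, hn⟩ => ⟨n, hn.symm⟩, fun ⟨n, hn⟩ => ⟨n, hn.symm⟩⟩
    rw [h1]
    exact MeasurableSet.iUnion fun n => measurableSet_eq
  set C : Set X := {x | ¬ E c x ∧ x ∉ B} with hCdef
  have hCm : MeasurableSet C := hEc.compl.inter hBm.compl
  have hCinv : ∀ x y, x ∈ C → E x y → y ∈ C := by
    rintro x y ⟨h1, h2⟩ hxy
    exact ⟨fun h3 => h1 (hE.trans h3 (hE.symm hxy)), fun h3 => h2 (hBinv y x h3 (hE.symm hxy))⟩
  have : StandardBorelSpace C := hCm.standardBorel
  have hgC : ∀ n (x : C), g n x.1 ∈ C := fun n x => hCinv x.1 _ x.2 ((hgE _ _).2 ⟨n, rfl⟩)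
  obtain ⟨pi2, rep2, hC1, hC2⟩ := exists_finZ (X := C) (fun x y => E x.1 y.1)
    ⟨fun x => hE.refl x.1, fun h => hE.symm h, fun h h' => hE.trans h h'⟩
    (fun n x => ⟨g n x.1, hgC n x⟩) (fun n => ((hg n).comp measurable_subtype_coe).subtype_mk)
    (fun n x => Subtype.ext (hinv n x.1))
    (fun x y => by
      rw [hgE]
      exact ⟨fun ⟨n, hn⟩ => ⟨n, Subtype.ext hn⟩, fun ⟨n, hn⟩ => ⟨n, congrArg Subtype.val hn⟩⟩)
    (fun x hfin => by
      refine hinf x.1 ((hfin.image Subtype.val).subset fun y hy => ?_)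
      exact ⟨⟨y, hCinv x.1 y x.2 hy⟩, hy, rfl⟩)
  have hC := BitOn.extend hCm hCinv hC1
  have hglue := hB.glue hC
  have hBC : B ∪ C = {x | ¬ E c x} := by
    ext x
    constructor
    · rintro (hx | hx)
      · exact fun h1 => hcB (hBinv x c hx (hE.symm h1))
      · exact hx.1
    · intro hx
      by_cases h1 : x ∈ B
      · exact Or.inl h1
      · exact Or.inr ⟨hx, h1⟩
  rw [hBC] at hglue
  obtain ⟨pi, rep, hPR, hpiB, hpiC⟩ : ∃ (pi : X → ℕ → Bool) (rep : ℕ → (ℕ → Bool) → X → X),
      BitOn E {x | ¬ E c x} pi rep ∧ (∀ x (hx : x ∈ B), pi x = (h ⟨x, hx⟩).1) ∧ (∀ x, x ∈ C → ¬ InfZ (pi x)) := by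
    refine ⟨_, _, hglue, fun x hx => ?_, fun x hx => ?_⟩
    · simp only [hx, if_true, dif_pos]
    · have h1 : x ∉ B := hx.2
      simp only [h1, if_false, hx, dif_pos]
      exact hC2 _
  -- `InfZ (pi x)` iff `x ∈ B`
  have hinfB : ∀ x, ¬ E c x → InfZ (pi x) → x ∈ B := by
    intro x hx h1
    by_contra h2
    exact hpiC x ⟨hx, h2⟩ h1
  refine ⟨c, pi, rep, hPR, ?_, ?_, ?_, ?_⟩
  · intro x y hx hy h1 h2
    have hxB := hinfB x hx h1
    have hyB := hinfB y hy (h2 ▸ h1)
    rw [hpiB x hxB, hpiB y hyB] at h2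
    have h3 : h ⟨x, hxB⟩ = h ⟨y, hyB⟩ := Subtype.ext h2
    exact congrArg Subtype.val (h.injective h3)
  · intro z hz
    have h1 : (h.symm ⟨z, hz⟩).1 ∈ B := (h.symm ⟨z, hz⟩).2
    refine ⟨(h.symm ⟨z, hz⟩).1, ?_, ?_⟩
    · have h2 : (h.symm ⟨z, hz⟩).1 ∈ B ∪ C := Or.inl h1
      rw [hBC] at h2
      exact h2
    · rw [hpiB _ h1]
      exact congrArg Subtype.val (h.apply_symm_apply ⟨z, hz⟩)
  · intro x y hx hxy h1
    have hxB := hinfB x hx h1
    have hyB := hBinv x y hxB hxy
    rw [hpiB x hxB, hpiB y hyB]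
    exact (hEB ⟨x, hxB⟩ ⟨y, hyB⟩).1 hxy
  · -- a point of `C`
    set z : ℕ → Bool := fun i => decide (i % 2 = 1) with hz
    have h1 : ψ z ∈ C := by
      refine ⟨fun h2 => ?_, ?_⟩
      · obtain ⟨n, hn⟩ := (hψE _ _).1 h2
        have h3 := hn (2 * n) (by omega)
        have h4 : z (2 * n) = false := by simp [hz]
        rw [h4] at h3
        exact Bool.noConfusion h3
      · rintro ⟨w, _, hw⟩
        obtain ⟨n, hn⟩ := (hψE _ _).1 hw
        have h3 := hn (2 * n + 1) (by omega)
        rw [dbl_odd] at h3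
        have h4 : z (2 * n + 1) = true := by
          have : (2 * n + 1) % 2 = 1 := by omega
          simp [hz, this]
        rw [h4] at h3
        exact Bool.noConfusion h3
    refine ⟨ψ z, h1.1, fun h2 => ?_⟩
    exact h1.2 (hinfB (ψ z) h1.1 h2)

end Pool.Agent.W_MP_daea50_h85
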