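import Pool.Agent.W_MP_daea50_h85.Code4
import Pool.Agent.W_MP_daea50_h85.FM
import Pool.Agent.W_MP_daea50_h85.GEb
import Pool.Agent.W_MP_daea50_h85.SPb
import Pool.Agent.W_MP_daea50_h85.DatEx

set_option autoImplicit false
set_option linter.style.haveILetI false

/-!
# Minimal `K_σ` realizations of non-smooth aperiodic countable Borel equivalence relations
-/

namespace Pool.Agent.W_MP_daea50_h85

universe u

open Filter Topology

/-- from the data to the compact realization -/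
theorem realize {X : Type u} [MeasurableSpace X] [StandardBorelSpace X]
    (E : X → X → Prop) (hE : Equivalence E) (hcount : ∀ x, {y | E x y}.Countable)
    (haper : ∀ x, {y | E x y}.Infinite) (c : X) (hcm : MeasurableSet {x | ¬ E c x})
    (D : Dat {x : X // ¬ E c x} (fun x y => E x.1 y.1)) :
    ∃ (Y : Type) (_ : TopologicalSpace Y) (_ : PolishSpace Y) (_ : CompactSpace Y)
      (_ : MeasurableSpace Y) (_ : BorelSpace Y) (F : Y → Y → Prop) (f : X ≃ᵐ Y),
      Equivalence F ∧ (∀ x x', E x x' ↔ F (f x) (f x')) ∧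
      (∃ C : ℕ → Set (Y × Y), (∀ n, IsCompact (C n)) ∧ {p : Y × Y | F p.1 p.2} = ⋃ n, C n) ∧
      (∀ y, Dense {z | F y z}) := by
  classical
  -- the compact space
  haveI hcs : CompactSpace D.KK := isCompact_iff_compactSpace.1 D.isCompact_KK
  haveI hps : PolishSpace D.KK := D.isCompact_KK.isClosed.polishSpace
  -- the added class
  have hDDinf : D.DD.Infinite := by
    intro hfin
    have h1 : D.KK ⊆ D.DD := by
      have := D.dense_DD
      rwa [hfin.isClosed.closure_eq] at this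
    exact (h1 (subset_closure ⟨D.d 0, rfl⟩)).2 ⟨D.d 0, rfl⟩
  haveI : Countable D.DD := D.countable_DD.to_subtype
  haveI : Infinite D.DD := hDDinf.to_subtype
  haveI : Countable {x | E c x} := (hcount c).to_subtype
  haveI : Infinite {x | E c x} := (haper c).to_subtype
  obtain ⟨e⟩ : Nonempty ({x | E c x} ≃ D.DD) := nonempty_equiv_of_countable
  let f0 : X → D.KK := fun x => if h : E c x then ⟨e ⟨x, h⟩, (e ⟨x, h⟩).2.1⟩
    else ⟨D.Th ⟨x, h⟩, subset_closure ⟨_, rfl⟩⟩
  have f0c : ∀ (x : X) (h : E c x), (f0 x : ℕ → ℝ) = e ⟨x, h⟩ := by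
    intro x h
    simp only [f0, dif_pos h]
  have f0n : ∀ (x : X) (h : ¬ E c x), (f0 x : ℕ → ℝ) = D.Th ⟨x, h⟩ := by
    intro x h
    simp only [f0, dif_neg h]
  have hdd : ∀ x, (f0 x : ℕ → ℝ) ∈ D.DD ↔ E c x := by
    intro x
    constructor
    · intro h
      by_contra hx
      rw [f0n x hx] at h
      exact h.2 ⟨_, rfl⟩
    · intro h
      rw [f0c x h]
      exact (e ⟨x, h⟩).2
  have hinj : Function.Injective f0 := by
    intro x y hxy
    have h1 : (f0 x : ℕ → ℝ) = f0 y := congrArg Subtype.val hxy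
    by_cases hx : E c x
    · have hy : E c y := (hdd y).1 (h1 ▸ (hdd x).2 hx)
      rw [f0c x hx, f0c y hy] at h1
      have := e.injective (Subtype.ext h1)
      simpa using this
    · have hy : ¬ E c y := fun hy => hx ((hdd x).1 (h1.symm ▸ (hdd y).2 hy))
      rw [f0n x hx, f0n y hy] at h1
      have := D.Th_injective h1
      simpa using this
  have hsurj : Function.Surjective f0 := by
    rintro ⟨p, hp⟩
    by_cases h : p ∈ Set.range D.Th
    · obtain ⟨⟨x, hx⟩, rfl⟩ := h
      exact ⟨x, Subtype.ext (f0n x hx)⟩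
    · obtain ⟨⟨x, hx⟩, he⟩ := e.surjective ⟨p, hp, h⟩
      refine ⟨x, Subtype.ext ?_⟩
      rw [f0c x hx, he]
  have hmeas : Measurable f0 := by
    intro S hS
    have hset : f0 ⁻¹' S = (Subtype.val '' ((fun y : {x : X // ¬ E c x} =>
        (⟨D.Th y, subset_closure ⟨y, rfl⟩⟩ : D.KK)) ⁻¹' S)) ∪ ({x | E c x} ∩ f0 ⁻¹' S) := by
      ext x
      simp only [Set.mem_preimage, Set.mem_union, Set.mem_image, Subtype.exists, exists_and_right,
        exists_eq_right, Set.mem_inter_iff, Set.mem_setOf_eq]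
      constructor
      · intro h
        by_cases hx : E c x
        · exact Or.inr ⟨hx, h⟩
        · left
          refine ⟨hx, ?_⟩
          have : f0 x = ⟨D.Th ⟨x, hx⟩, subset_closure ⟨_, rfl⟩⟩ := Subtype.ext (f0n x hx)
          rwa [this] at h
      · rintro (⟨hx, h⟩ | ⟨-, h⟩)
        · have : f0 x = ⟨D.Th ⟨x, hx⟩, subset_closure ⟨_, rfl⟩⟩ := Subtype.ext (f0n x hx)
          rw [this]
          exact h
        · exact h
    rw [hset]
    refine MeasurableSet.union ?_ ?_
    · apply (MeasurableEmbedding.subtype_coe hcm).measurableSet_image.2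
      exact (D.measurable_Th.subtype_mk) hS
    · exact ((hcount c).mono Set.inter_subset_left).measurableSet
  have hemb : MeasurableEmbedding f0 := hmeas.measurableEmbedding hinj
  let f : X ≃ᵐ D.KK :=
    { toEquiv := Equiv.ofBijective f0 ⟨hinj, hsurj⟩
      measurable_toFun := hmeas
      measurable_invFun := by
        intro S hS
        have : (Equiv.ofBijective f0 ⟨hinj, hsurj⟩).symm ⁻¹' S = f0 '' S := by
          rw [← Equiv.image_eq_preimage_symm]
          rfl
        show MeasurableSet ((Equiv.ofBijective f0 ⟨hinj, hsurj⟩).symm ⁻¹' S)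
        rw [this]
        exact hemb.measurableSet_image.2 hS }
  have hf : ∀ x, f x = f0 x := fun x => rfl
  let F : D.KK → D.KK → Prop := fun p q => E (f.symm p) (f.symm q)
  have hF : ∀ x x', F (f x) (f x') ↔ E x x' := by
    intro x x'
    simp only [F, MeasurableEquiv.symm_apply_apply]
  -- the relation in terms of the codes
  have hrel : ∀ x x', E x x' ↔ (((f0 x : ℕ → ℝ), (f0 x' : ℕ → ℝ)) ∈
      {p : (ℕ → ℝ) × (ℕ → ℝ) | ∃ y y' : {x : X // ¬ E c x}, E y.1 y'.1 ∧ p = (D.Th y, D.Th y')}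
        ∪ D.DD ×ˢ D.DD) := by
    intro x x'
    constructor
    · intro h
      by_cases hx : E c x
      · right
        exact ⟨(hdd x).2 hx, (hdd x').2 (hE.trans hx h)⟩
      · left
        have hx' : ¬ E c x' := fun h' => hx (hE.trans h' (hE.symm h))
        exact ⟨⟨x, hx⟩, ⟨x', hx'⟩, h, by rw [f0n x hx, f0n x' hx']⟩
    · rintro (⟨⟨y, hy⟩, ⟨y', hy'⟩, h, he⟩ | ⟨h1, h2⟩)
      · have e1 : (f0 x : ℕ → ℝ) = D.Th ⟨y, hy⟩ := congrArg Prod.fst he
        have e2 : (f0 x' : ℕ → ℝ) = D.Th ⟨y', hy'⟩ := congrArg Prod.snd he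
        have e3 : f0 x = f0 y := Subtype.ext (by rw [e1, f0n y hy])
        have e4 : f0 x' = f0 y' := Subtype.ext (by rw [e2, f0n y' hy'])
        rw [hinj e3, hinj e4]
        exact h
      · exact hE.trans (hE.symm ((hdd x).1 h1)) ((hdd x').1 h2)
  refine ⟨D.KK, inferInstance, hps, hcs, inferInstance, inferInstance, F, f, ?_, ?_, ?_, ?_⟩
  · exact ⟨fun p => hE.refl _, fun h => hE.symm h, fun h h' => hE.trans h h'⟩
  · exact fun x x' => (hF x x').symm
  · obtain ⟨C, hC1, hC2, hC3⟩ := D.exists_compacts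
    have hcl : IsClosedEmbedding (Prod.map (Subtype.val : D.KK → ℕ → ℝ) (Subtype.val : D.KK → ℕ → ℝ)) :=
      D.isCompact_KK.isClosed.isClosedEmbedding_subtypeVal.prodMap
        D.isCompact_KK.isClosed.isClosedEmbedding_subtypeVal
    refine ⟨fun n => Prod.map Subtype.val Subtype.val ⁻¹' C n, fun n => hcl.isCompact_preimage (hC1 n), ?_⟩
    rw [← Set.preimage_iUnion, hC3]
    ext ⟨p, q⟩
    obtain ⟨x, rfl⟩ := f.surjective p
    obtain ⟨x', rfl⟩ := f.surjective q
    rw [Set.mem_setOf_eq, hF, hrel]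
    rfl
  · intro p
    obtain ⟨x, rfl⟩ := f.surjective p
    rw [Subtype.dense_iff]
    by_cases hx : E c x
    · refine D.dense_DD.trans (closure_mono ?_)
      intro q hq
      refine ⟨⟨q, hq.1⟩, ?_, rfl⟩
      obtain ⟨x', hx'⟩ := f.surjective ⟨q, hq.1⟩
      rw [Set.mem_setOf_eq, ← hx', hF]
      have : (f0 x' : ℕ → ℝ) = q := congrArg Subtype.val hx'
      exact hE.trans (hE.symm hx) ((hdd x').1 (by rw [this]; exact hq))
    · refine (D.dense_class ⟨x, hx⟩).trans (closure_mono ?_)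
      rintro _ ⟨⟨x', hx'⟩, h, rfl⟩
      refine ⟨⟨D.Th ⟨x', hx'⟩, subset_closure ⟨_, rfl⟩⟩, ?_, rfl⟩
      have : (⟨D.Th ⟨x', hx'⟩, subset_closure ⟨_, rfl⟩⟩ : D.KK) = f x' :=
        Subtype.ext (f0n x' hx').symm
      rw [Set.mem_setOf_eq, this, hF]
      exact h

theorem exists_minimal_Ksigma {X : Type u} [MeasurableSpace X] [StandardBorelSpace X]
    (E : X → X → Prop) (hE : Equivalence E) (hBorel : MeasurableSet {p : X × X | E p.1 p.2})
    (hcount : ∀ x, {y | E x y}.Countable) (haper : ∀ x, {y | E x y}.Infinite)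
    (hns : ¬ ∃ T : Set X, MeasurableSet T ∧ ∀ x, ∃! y, y ∈ T ∧ E x y) :
    ∃ (Y : Type) (_ : TopologicalSpace Y) (_ : PolishSpace Y) (_ : CompactSpace Y)
      (_ : MeasurableSpace Y) (_ : BorelSpace Y) (F : Y → Y → Prop) (f : X ≃ᵐ Y),
      Equivalence F ∧ (∀ x x', E x x' ↔ F (f x) (f x')) ∧
      (∃ C : ℕ → Set (Y × Y), (∀ n, IsCompact (C n)) ∧ {p : Y × Y | F p.1 p.2} = ⋃ n, C n) ∧
      (∀ y, Dense {z | F y z}) := by
  obtain ⟨g, hg, hinv, hgE⟩ := exists_involutions E hE hBorel hcount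
  obtain ⟨ψ, hψ, hψi, hψE⟩ := glimm_effros E hE g hg hinv hgE hns
  obtain ⟨c, pi, rep, hb, h1, h2, h3, h4⟩ := exists_split E hE g hg hinv hgE haper ψ hψ hψi hψE
  obtain ⟨D⟩ := exists_dat E hE g hg hinv hgE c pi rep hb h1 h2 h3 h4
  exact realize E hE hcount haper c hb.zmeas D

end Pool.Agent.W_MP_daea50_h85
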