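import Pool.Agent.W_MP_daea50_h85.Defs

set_option autoImplicit false

/-!
# CPa: compression of the part with infinitely many zero blocks

Let `z = pi x`, `InfZ z`, `i : ℕ`.  Let `n = n(x,i)` be the least `n > i` with `ZB z n`.  Block `n` has
length `bd n + n + 3`.  Define `v : ℕ → Bool` by: `v j = false` for `j < bd n`;
`v (bd n + j) = z j` for `j < bd n`; `v (2 * bd n + j) = true` iff `j = i`, for `j < n + 3`
(note `i < n`, so block `n` of `v` is not zero); `f x i = rep (bd (n+1)) v x`.
Injective: let `y = f x i`, `w = pi y = spl (bd (n+1)) v z`.  Then `n` is the least `n` such that some bit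
`w j` with `j < bd (n+1)` is `true` (blocks before `n` are zero, block `n` is not); `i` is the index of the
only true bit `w (2 * bd n + j)`, `j < n+3`; `z j = w (bd n + j)` for `j < bd n`, `z` is zero in block `n`
and equals `w` from `bd (n+1)` on.  So `n, i, z` are determined by `y`, and
`x = rep (bd (n+1)) z x = rep (bd (n+1)) z (rep (bd (n+1)) v x) = rep (bd (n+1)) z y`.
`InfZ (pi (f x i))`: tail of `z` (`InfZ.tail`, `tail_spl`).  Measurability: `x ↦ n(x,i)` is measurable
(`measurableSet_ZB`, `Nat.find`; put `n = 0` when there is none), `x ↦ v` is measurable, and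
`BitOn.measurable_rep`.
-/

namespace Pool.Agent.W_MP_daea50_h85

universe u

theorem BitOn.measurable_rep {X : Type u} [MeasurableSpace X] {E : X → X → Prop} {Z : Set X}
    {pi : X → ℕ → Bool} {rep : ℕ → (ℕ → Bool) → X → X} (h : BitOn E Z pi rep)
    {n : X → ℕ} (hn : Measurable n) {v : X → ℕ → Bool} (hv : Measurable v) :
    Measurable fun x => rep (n x) (v x) x := by
  classical
  intro S hS
  have key : (fun x => rep (n x) (v x) x) ⁻¹' S =
      ⋃ (k : ℕ), ⋃ (u : Fin k → Bool), {x | n x = k} ∩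
        ((⋂ i : Fin k, {x | v x i = u i}) ∩
          (rep k (fun j => if hj : j < k then u ⟨j, hj⟩ else false)) ⁻¹' S) := by
    ext x
    simp only [Set.mem_preimage, Set.mem_iUnion, Set.mem_inter_iff, Set.mem_iInter,
      Set.mem_ofPred_eq]
    constructor
    · intro hx
      refine ⟨n x, fun i => v x i, rfl, fun i => rfl, ?_⟩
      rw [h.rep_congr (n x) _ (v x) x]
      · exact hx
      · intro i hi
        simp [hi]
    · rintro ⟨k, w, h1, h2, h3⟩
      subst h1
      rw [h.rep_congr (n x) (v x) (fun j => if hj : j < n x then w ⟨j, hj⟩ else false) x]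
      · exact h3
      · intro i hi
        simpa [hi] using h2 ⟨i, hi⟩
  rw [key]
  refine MeasurableSet.iUnion fun k => MeasurableSet.iUnion fun w => ?_
  refine (measurableSet_eq_fun hn measurable_const).inter (MeasurableSet.inter ?_ ?_)
  · refine MeasurableSet.iInter fun i => ?_
    exact measurableSet_eq_fun ((measurable_pi_apply (i : ℕ)).comp hv) measurable_const
  · exact h.rep_meas k _ hS

/-- candidates for the coding block -/
def Cnd (i : ℕ) (z : ℕ → Bool) (n : ℕ) : Prop := (i < n ∧ ZB z n) ∨ ∀ m, i < m → ¬ ZB z m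

theorem exists_Cnd (i : ℕ) (z : ℕ → Bool) : ∃ n, Cnd i z n := by
  by_cases h : ∃ n, i < n ∧ ZB z n
  · obtain ⟨n, hn⟩ := h
    exact ⟨n, Or.inl hn⟩
  · refine ⟨0, Or.inr fun m hm hz => h ⟨m, hm, hz⟩⟩

open Classical in
/-- the coding block -/
noncomputable def Nb (i : ℕ) (z : ℕ → Bool) : ℕ := Nat.find (exists_Cnd i z)

theorem measurableSet_Cnd (i n : ℕ) : MeasurableSet {z : ℕ → Bool | Cnd i z n} := by
  have : {z : ℕ → Bool | Cnd i z n} =
      {z : ℕ → Bool | i < n ∧ ZB z n} ∪ ⋂ m, {z : ℕ → Bool | i < m → ¬ ZB z m} := by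
    ext z; simp [Cnd]
  rw [this]
  refine MeasurableSet.union ?_ (MeasurableSet.iInter fun m => ?_)
  · by_cases h : i < n
    · simpa [h] using measurableSet_ZB n
    · simp [h]
  · by_cases h : i < m
    · simp only [h, forall_const]
      exact (measurableSet_ZB m).compl
    · simp [h]

theorem measurable_Nb (i : ℕ) : Measurable (Nb i) := by
  classical
  have := measurable_find (exists_Cnd i) (fun k => measurableSet_Cnd i k)
  convert this using 2
  unfold Nb
  congr

theorem Nb_spec {i : ℕ} {z : ℕ → Bool} (h : InfZ z) : i < Nb i z ∧ ZB z (Nb i z) := by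
  classical
  have h1 : Cnd i z (Nb i z) := by
    unfold Nb
    exact Nat.find_spec (exists_Cnd i z)
  rcases h1 with h1 | h1
  · exact h1
  · obtain ⟨k, hk, hz⟩ := h (i + 1)
    exact absurd hz (h1 k hk)

open Classical in
/-- the code with block `n` -/
noncomputable def cod (i n : ℕ) (z : ℕ → Bool) : ℕ → Bool := fun k =>
  if k < bd n then false else if k < 2 * bd n then z (k - bd n) else decide (k = 2 * bd n + i)

theorem measurable_cod (i n : ℕ) : Measurable (cod i n) := by
  refine measurable_pi_iff.2 fun k => ?_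
  unfold cod
  by_cases h1 : k < bd n
  · simp [h1]
  · by_cases h2 : k < 2 * bd n
    · simp only [h1, h2, if_true, if_false]
      exact measurable_pi_apply _
    · simp [h1, h2]

theorem measurable_code (i : ℕ) : Measurable fun z : ℕ → Bool => cod i (Nb i z) z := by
  have h1 : Measurable fun q : ℕ × (ℕ → Bool) => cod i q.1 q.2 :=
    measurable_from_prod_countable_right fun n => measurable_cod i n
  exact h1.comp ((measurable_Nb i).prodMk measurable_id)

/-- the code word read off -/
theorem code_true {i n : ℕ} {z : ℕ → Bool} (hi : i < n) :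
    spl (bd (n + 1)) (cod i n z) z (2 * bd n + i) = true := by
  rw [spl_lt _ _ (by rw [bd_succ]; omega)]
  simp only [cod]
  rw [if_neg (by omega), if_neg (by omega)]
  simp

theorem code_false {i n : ℕ} {z : ℕ → Bool} {k : ℕ} (hk : k < bd n) :
    spl (bd (n + 1)) (cod i n z) z k = false := by
  rw [spl_lt _ _ (hk.trans (bd_lt n))]
  simp [cod, hk]

theorem code_copy {i n : ℕ} {z : ℕ → Bool} {k : ℕ} (hk : k < bd n) :
    spl (bd (n + 1)) (cod i n z) z (bd n + k) = z k := by
  rw [spl_lt _ _ (by rw [bd_succ]; omega)]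
  simp only [cod]
  rw [if_neg (by omega), if_pos (by omega)]
  congr 1
  omega

theorem code_idx {i n : ℕ} {z : ℕ → Bool} {k : ℕ} (hk : 2 * bd n + k < bd (n + 1))
    (h : spl (bd (n + 1)) (cod i n z) z (2 * bd n + k) = true) : k = i := by
  rw [spl_lt _ _ hk] at h
  simp only [cod] at h
  rw [if_neg (by omega), if_neg (by omega)] at h
  have := of_decide_eq_true h
  omega

theorem code_block_le {i j n m : ℕ} {z w : ℕ → Bool} (hi : i < n)
    (h : spl (bd (n + 1)) (cod i n z) z = spl (bd (m + 1)) (cod j m w) w) : m ≤ n := by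
  by_contra hc
  have h1 : bd (n + 1) ≤ bd m := bd_mono (by omega)
  have h2 := code_true (z := z) hi
  rw [h, code_false (lt_of_lt_of_le (by rw [bd_succ]; omega) h1)] at h2
  exact absurd h2 (by simp)

theorem code_inj {i j n m : ℕ} {z w : ℕ → Bool} (hi : i < n) (hj : j < m)
    (hz : ZB z n) (hw : ZB w m)
    (h : spl (bd (n + 1)) (cod i n z) z = spl (bd (m + 1)) (cod j m w) w) :
    n = m ∧ i = j ∧ z = w := by
  have h1 : n = m := le_antisymm (code_block_le hj h.symm) (code_block_le hi h)
  subst h1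
  refine ⟨rfl, ?_, ?_⟩
  · have h2 := code_true (z := z) hi
    rw [h] at h2
    exact code_idx (by rw [bd_succ]; omega) h2
  · funext k
    by_cases h2 : k < bd n
    · rw [← code_copy (i := i) (z := z) h2, ← code_copy (i := j) (z := w) h2, h]
    · by_cases h3 : k < bd (n + 1)
      · rw [hz k (by omega) h3, hw k (by omega) h3]
      · have h4 := congrFun h k
        rwa [spl_ge _ _ (by omega), spl_ge _ _ (by omega)] at h4

theorem compress {X : Type u} [MeasurableSpace X] {E : X → X → Prop} {Z : Set X}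
    {pi : X → ℕ → Bool} {rep : ℕ → (ℕ → Bool) → X → X} (h : BitOn E Z pi rep) :
    ∃ f : X → ℕ → X, (∀ i, Measurable fun x => f x i) ∧
      (∀ x ∈ Z, InfZ (pi x) → ∀ i, f x i ∈ Z ∧ InfZ (pi (f x i)) ∧ E x (f x i)) ∧
      ∀ x ∈ Z, ∀ y ∈ Z, InfZ (pi x) → InfZ (pi y) → ∀ i j, f x i = f y j → x = y ∧ i = j := by
  refine ⟨fun x i => rep (bd (Nb i (pi x) + 1)) (cod i (Nb i (pi x)) (pi x)) x, ?_, ?_, ?_⟩
  · intro i
    refine h.measurable_rep (n := fun x => bd (Nb i (pi x) + 1))
      (v := fun x => cod i (Nb i (pi x)) (pi x)) ?_ ?_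
    · exact (measurable_of_countable fun k : ℕ => bd (k + 1)).comp
        ((measurable_Nb i).comp h.pi_meas)
    · exact (measurable_code i).comp h.pi_meas
  · intro x hx hz i
    have hE := h.rep_E (bd (Nb i (pi x) + 1)) (cod i (Nb i (pi x)) (pi x)) x hx
    refine ⟨h.inv _ _ hx hE, ?_, hE⟩
    dsimp only
    rw [h.pi_rep _ _ x hx]
    exact hz.tail (tail_spl _ _ _)
  · intro x hx y hy hzx hzy i j hf
    dsimp only at hf
    have hpi := congrArg pi hf
    rw [h.pi_rep _ _ x hx, h.pi_rep _ _ y hy] at hpi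
    obtain ⟨h1, h2⟩ := Nb_spec (i := i) hzx
    obtain ⟨h3, h4⟩ := Nb_spec (i := j) hzy
    obtain ⟨h5, h6, h7⟩ := code_inj h1 h3 h2 h4 hpi
    refine ⟨?_, h6⟩
    have e1 := h.rep_rep (bd (Nb i (pi x) + 1)) _ le_rfl (pi x)
      (cod i (Nb i (pi x)) (pi x)) x hx
    have e2 := h.rep_rep (bd (Nb j (pi y) + 1)) _ le_rfl (pi y)
      (cod j (Nb j (pi y)) (pi y)) y hy
    rw [h.rep_pi _ x hx] at e1
    rw [h.rep_pi _ y hy] at e2
    rw [← e1, ← e2, hf, h5, h7]

end Pool.Agent.W_MP_daea50_h85
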