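import Pool.Agent.W_MP_daea50_h85.Dat

set_option autoImplicit false

/-!
# Code1: approximations, agreement, and the natural number codes
-/

namespace Pool.Agent.W_MP_daea50_h85

universe u

open Filter

/-- the index coded in block `k + 1`: the position of the first true bit (`0` if there is none) -/
noncomputable def jx (z : ℕ → Bool) (k : ℕ) : ℕ :=
  sInf {i | i < bd (k + 2) - bd (k + 1) ∧ z (bd (k + 1) + i) = true}

theorem jx_congr {z w : ℕ → Bool} {k : ℕ} (h : ∀ i, i < bd (k + 2) → z i = w i) :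
    jx z k = jx w k := by
  unfold jx
  congr 1
  ext i
  simp only [Set.mem_setOf_eq]
  constructor
  · rintro ⟨h1, h2⟩
    exact ⟨h1, by rw [← h _ (by omega)]; exact h2⟩
  · rintro ⟨h1, h2⟩
    exact ⟨h1, by rw [h _ (by omega)]; exact h2⟩

/-- `k` is the first zero block of `z` at or after `n` -/
def FZ (n : ℕ) (z : ℕ → Bool) (k : ℕ) : Prop :=
  n ≤ k ∧ ZB z k ∧ ∀ k', n ≤ k' → k' < k → ¬ ZB z k'

theorem FZ.unique {n : ℕ} {z : ℕ → Bool} {k k' : ℕ} (h : FZ n z k) (h' : FZ n z k') : k = k' := by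
  rcases lt_trichotomy k k' with h1 | h1 | h1
  · exact absurd h.2.1 (h'.2.2 k h.1 h1)
  · exact h1
  · exact absurd h'.2.1 (h.2.2 k' h'.1 h1)

theorem exists_FZ {n : ℕ} {z : ℕ → Bool} (h : ∃ k, n ≤ k ∧ ZB z k) : ∃ k, FZ n z k := by
  classical
  refine ⟨Nat.find h, (Nat.find_spec h).1, (Nat.find_spec h).2, ?_⟩
  intro k' h1 h2 h3
  exact Nat.find_min h h2 ⟨h1, h3⟩

theorem ZB_congr {z w : ℕ → Bool} {k : ℕ} (h : ∀ i, i < bd (k + 1) → z i = w i) :
    ZB z k ↔ ZB w k := by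
  constructor
  · intro hz i h1 h2
    rw [← h i h2]; exact hz i h1 h2
  · intro hz i h1 h2
    rw [h i h2]; exact hz i h1 h2

theorem FZ_congr {n : ℕ} {z w : ℕ → Bool} {k : ℕ} (h : ∀ i, i < bd (k + 1) → z i = w i) :
    FZ n z k ↔ FZ n w k := by
  unfold FZ
  rw [ZB_congr h]
  constructor
  · rintro ⟨h1, h2, h3⟩
    refine ⟨h1, h2, fun k' a b c => h3 k' a b ?_⟩
    refine (ZB_congr fun i hi => h i (lt_of_lt_of_le hi (bd_mono (by omega)))).2 c
  · rintro ⟨h1, h2, h3⟩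
    refine ⟨h1, h2, fun k' a b c => h3 k' a b ?_⟩
    refine (ZB_congr fun i hi => h i (lt_of_lt_of_le hi (bd_mono (by omega)))).1 c

namespace Dat

variable {Y : Type u} [MeasurableSpace Y] {E : Y → Y → Prop} (D : Dat Y E)

open Classical in
/-- the `n`-th approximation: erase the zero blocks at or after `n` -/
noncomputable def ap (n : ℕ) (y : Y) : Y :=
  if h : ∃ k, FZ n (D.pi y) k then D.rep (bd h.choose) (D.pi y) (D.d (jx (D.pi y) h.choose)) else y

theorem ap_of_FZ {n : ℕ} {y : Y} {k : ℕ} (h : FZ n (D.pi y) k) :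
    D.ap n y = D.rep (bd k) (D.pi y) (D.d (jx (D.pi y) k)) := by
  have h' : ∃ k, FZ n (D.pi y) k := ⟨k, h⟩
  have e : h'.choose = k := h'.choose_spec.unique h
  unfold ap
  rw [dif_pos h', e]

theorem ap_of_not {n : ℕ} {y : Y} (h : ∀ k, n ≤ k → ¬ ZB (D.pi y) k) : D.ap n y = y := by
  unfold ap
  rw [dif_neg]
  rintro ⟨k, hk⟩
  exact h k hk.1 hk.2.1

theorem case (n : ℕ) (y : Y) : (∃ k, FZ n (D.pi y) k) ∨ ∀ k, n ≤ k → ¬ ZB (D.pi y) k := by
  by_cases h : ∃ k, n ≤ k ∧ ZB (D.pi y) k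
  · exact Or.inl (exists_FZ h)
  · right
    intro k h1 h2
    exact h ⟨k, h1, h2⟩

theorem ap_congr_of_none {m n : ℕ} (hmn : m ≤ n) {y : Y}
    (h : ∀ k, m ≤ k → k < n → ¬ ZB (D.pi y) k) : D.ap m y = D.ap n y := by
  rcases D.case n y with ⟨k, hk⟩ | hk
  · have hk' : FZ m (D.pi y) k := by
      refine ⟨hmn.trans hk.1, hk.2.1, fun k' h1 h2 h3 => ?_⟩
      by_cases h4 : k' < n
      · exact h k' h1 h4 h3
      · exact hk.2.2 k' (Nat.not_lt.1 h4) h2 h3
    rw [D.ap_of_FZ hk, D.ap_of_FZ hk']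
  · rw [D.ap_of_not hk, D.ap_of_not]
    intro k h1 h3
    by_cases h4 : k < n
    · exact h k h1 h4 h3
    · exact hk k (Nat.not_lt.1 h4) h3

theorem pi_rep' (n : ℕ) (v : ℕ → Bool) (y : Y) : D.pi (D.rep n v y) = spl n v (D.pi y) :=
  D.hb.pi_rep n v y trivial

theorem rep_pi' (n : ℕ) (y : Y) : D.rep n (D.pi y) y = y := D.hb.rep_pi n y trivial

theorem rep_rep' {n m : ℕ} (h : n ≤ m) (u v : ℕ → Bool) (y : Y) :
    D.rep m u (D.rep n v y) = D.rep m u y := D.hb.rep_rep n m h u v y trivial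

theorem rep_congr' {n : ℕ} {u v : ℕ → Bool} (y : Y) (h : ∀ i, i < n → u i = v i) :
    D.rep n u y = D.rep n v y := D.hb.rep_congr n u v y h

theorem rep_E' (n : ℕ) (v : ℕ → Bool) (y : Y) : E y (D.rep n v y) := D.hb.rep_E n v y trivial

/-- replacing fewer bits afterwards -/
theorem rep_rep_lt {n m : ℕ} (h : n ≤ m) (u v : ℕ → Bool) (y : Y) :
    D.rep n u (D.rep m v y) = D.rep m (spl n u v) y := by
  have h1 : D.pi (D.rep n u (D.rep m v y)) = spl n u (spl m v (D.pi y)) := by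
    rw [pi_rep', pi_rep']
  rw [← D.rep_pi' m (D.rep n u (D.rep m v y)), D.rep_rep' h, D.rep_rep' le_rfl]
  apply D.rep_congr'
  intro i hi
  rw [h1]
  by_cases h2 : i < n
  · rw [spl_lt _ _ h2, spl_lt _ _ h2]
  · rw [spl_ge _ _ (Nat.not_lt.1 h2), spl_ge _ _ (Nat.not_lt.1 h2), spl_lt _ _ hi]

/-- the finite part -/
def Cp (y : Y) : Prop := ¬ InfZ (D.pi y)

theorem Cp_rep {n : ℕ} {v : ℕ → Bool} {y : Y} : D.Cp (D.rep n v y) ↔ D.Cp y := by
  unfold Cp
  rw [pi_rep', ← infZ_tail_iff (tail_spl n v (D.pi y))]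

theorem Cp_d (j : ℕ) : D.Cp (D.d j) := by
  intro h
  obtain ⟨k, -, hk⟩ := h 0
  exact D.dF j k hk

theorem Cp_of_not {n : ℕ} {y : Y} (h : ∀ k, n ≤ k → ¬ ZB (D.pi y) k) : D.Cp y := by
  intro h'
  obtain ⟨k, h1, h2⟩ := h' n
  exact h k h1 h2

theorem Cp_ap (n : ℕ) (y : Y) : D.Cp (D.ap n y) := by
  rcases D.case n y with ⟨k, hk⟩ | hk
  · rw [D.ap_of_FZ hk, Cp_rep]
    exact D.Cp_d _
  · rw [D.ap_of_not hk]
    exact D.Cp_of_not hk

/-- the bits of the approximation -/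
theorem pi_ap {n : ℕ} {y : Y} {k : ℕ} (h : FZ n (D.pi y) k) {i : ℕ} (hi : i < bd k) :
    D.pi (D.ap n y) i = D.pi y i := by
  rw [D.ap_of_FZ h, pi_rep', spl_lt _ _ hi]

/-- agreement up to level `n` -/
def Ag (n : ℕ) (y y' : Y) : Prop :=
  (∀ i, i < bd (n + 1) → D.pi y i = D.pi y' i) ∧ ∀ j, j < n → D.θ (D.ap n y) j = D.θ (D.ap n y') j

theorem Ag.refl (n : ℕ) (y : Y) : D.Ag n y y := ⟨fun _ _ => rfl, fun _ _ => rfl⟩

variable {D}

theorem Ag.symm {n : ℕ} {y y' : Y} (h : D.Ag n y y') : D.Ag n y' y :=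
  ⟨fun i hi => (h.1 i hi).symm, fun j hj => (h.2 j hj).symm⟩

theorem Ag.trans {n : ℕ} {y y' y'' : Y} (h : D.Ag n y y') (h' : D.Ag n y' y'') : D.Ag n y y'' :=
  ⟨fun i hi => (h.1 i hi).trans (h'.1 i hi), fun j hj => (h.2 j hj).trans (h'.2 j hj)⟩

variable (D)

/-- if the first zero block at or after `n` is `k` and the bits agree up to `bd (k+2)` then the
approximations coincide -/
theorem ap_eq_of_FZ {n : ℕ} {y y' : Y} {k : ℕ} (h : FZ n (D.pi y) k)
    (hb : ∀ i, i < bd (k + 2) → D.pi y i = D.pi y' i) : D.ap n y = D.ap n y' := by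
  have h' : FZ n (D.pi y') k :=
    (FZ_congr fun i hi => hb i (hi.trans (bd_lt _))).1 h
  rw [D.ap_of_FZ h, D.ap_of_FZ h', jx_congr hb]
  apply D.rep_congr'
  intro i hi
  exact hb i (hi.trans (bd_strictMono (by omega)))

variable {D}

theorem Ag.mono {m n : ℕ} (hmn : m ≤ n) {y y' : Y} (h : D.Ag n y y') : D.Ag m y y' := by
  refine ⟨fun i hi => h.1 i (lt_of_lt_of_le hi (bd_mono (by omega))), ?_⟩
  by_cases hz : ∃ k, FZ m (D.pi y) k ∧ k < n
  · obtain ⟨k, hk, hkn⟩ := hz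
    rw [D.ap_eq_of_FZ hk fun i hi => h.1 i (lt_of_lt_of_le hi (bd_mono (by omega)))]
    exact fun _ _ => rfl
  · have hn : ∀ k, m ≤ k → k < n → ¬ ZB (D.pi y) k := by
      intro k h1 h2 h3
      obtain ⟨k', hk'⟩ := exists_FZ ⟨k, h1, h3⟩
      have : k' ≤ k := by
        by_contra hcon
        exact hk'.2.2 k h1 (Nat.not_le.1 hcon) h3
      exact hz ⟨k', hk', lt_of_le_of_lt this h2⟩
    have hn' : ∀ k, m ≤ k → k < n → ¬ ZB (D.pi y') k := by
      intro k h1 h2 h3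
      refine hn k h1 h2 ((ZB_congr fun i hi => ?_).2 h3)
      exact h.1 i (lt_of_lt_of_le hi (bd_mono (by omega)))
    rw [D.ap_congr_of_none hmn hn, D.ap_congr_of_none hmn hn']
    intro j hj
    exact h.2 j (by omega)

theorem eq_of_Ag {y y' : Y} (h : ∀ n, D.Ag n y y') : y = y' := by
  have hp : D.pi y = D.pi y' := by
    funext i
    exact (h i).1 i (lt_of_lt_of_le (Nat.lt_succ_self i) (le_bd _))
  by_cases hz : InfZ (D.pi y)
  · exact D.G1 y y' hz hp
  · have hz' : ¬ InfZ (D.pi y') := by rwa [← hp]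
    apply D.θinj y y' hz hz'
    have hn : ∃ n, ∀ k, n ≤ k → ¬ ZB (D.pi y) k := by
      by_contra hcon
      push Not at hcon
      exact hz fun n => hcon n
    obtain ⟨n, hn⟩ := hn
    funext j
    have h1 : ∀ k, max n (j + 1) ≤ k → ¬ ZB (D.pi y) k :=
      fun k hk => hn k ((le_max_left _ _).trans hk)
    have h2 := (h (max n (j + 1))).2 j (lt_of_lt_of_le (Nat.lt_succ_self j) (le_max_right _ _))
    rwa [D.ap_of_not h1, D.ap_of_not (by rwa [← hp])] at h2

/-- limits: if every agreement class is eventually constant along the sequence there is a limit -/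
theorem exists_limit (y : ℕ → Y) (h : ∀ n, ∃ m, ∀ k, m ≤ k → D.Ag n (y k) (y m)) :
    ∃ a, ∀ n, ∃ m, ∀ k, m ≤ k → D.Ag n (y k) a := by
  choose M hM using h
  -- the limit of the bits
  let z : ℕ → Bool := fun i => D.pi (y (M i)) i
  have hz : ∀ N, ∃ m, ∀ k, m ≤ k → ∀ i, i < N → D.pi (y k) i = z i := by
    intro N
    refine ⟨(Finset.range N).sup M, fun k hk i hi => ?_⟩
    have h1 : M i ≤ k := (Finset.le_sup (f := M) (Finset.mem_range.2 hi)).trans hk
    exact (hM i k h1).1 i (lt_of_lt_of_le (Nat.lt_succ_self i) (le_bd _))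
  by_cases hzi : InfZ z
  · obtain ⟨a, ha⟩ := D.G2 z hzi
    refine ⟨a, fun n => ?_⟩
    obtain ⟨k0, hk0⟩ := exists_FZ (hzi n)
    obtain ⟨m, hm⟩ := hz (bd (k0 + 2))
    refine ⟨m, fun k hk => ⟨fun i hi => ?_, fun j _ => ?_⟩⟩
    · rw [hm k hk i (lt_of_lt_of_le hi (bd_mono (by have := hk0.1; omega))), ha]
    · have hk0' : FZ n (D.pi a) k0 := by rw [ha]; exact hk0
      rw [← D.ap_eq_of_FZ hk0' fun i hi => by rw [ha, hm k hk i hi]]
  · have hn0 : ∃ n0, ∀ k, n0 ≤ k → ¬ ZB z k := by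
      by_contra hcon
      push Not at hcon
      exact hzi fun n => hcon n
    obtain ⟨n0, hn0⟩ := hn0
    -- no zero blocks between `n0` and `n`, eventually
    have hno : ∀ n, ∃ m, ∀ k, m ≤ k → ∀ b, n0 ≤ b → b < n → ¬ ZB (D.pi (y k)) b := by
      intro n
      obtain ⟨m, hm⟩ := hz (bd n)
      refine ⟨m, fun k hk b h1 h2 h3 => hn0 b h1 ?_⟩
      refine (ZB_congr fun i hi => ?_).1 h3
      exact hm k hk i (lt_of_lt_of_le hi (bd_mono (by omega)))
    let x : ℕ → Y := fun k => D.ap n0 (y k)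
    have hx : ∀ k, ¬ InfZ (D.pi (x k)) := fun k => D.Cp_ap n0 (y k)
    have hxap : ∀ n, n0 ≤ n → ∃ m, ∀ k, m ≤ k → D.ap n (y k) = x k := by
      intro n hn
      obtain ⟨m, hm⟩ := hno n
      exact ⟨m, fun k hk => (D.ap_congr_of_none hn (hm k hk)).symm⟩
    -- the coordinates of `θ (x k)` are eventually constant
    have hθ : ∀ j, ∃ m, ∀ k, m ≤ k → D.θ (x k) j = D.θ (x m) j := by
      intro j
      obtain ⟨m1, hm1⟩ := hxap (max n0 (j + 1)) (le_max_left _ _)
      refine ⟨max m1 (M (max n0 (j + 1))), fun k hk => ?_⟩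
      have hk1 : m1 ≤ k := (le_max_left _ _).trans hk
      have hk2 : M (max n0 (j + 1)) ≤ k := (le_max_right _ _).trans hk
      have e1 := (hM (max n0 (j + 1)) k hk2).2 j
        (lt_of_lt_of_le (Nat.lt_succ_self j) (le_max_right _ _))
      have e2 := (hM (max n0 (j + 1)) (max m1 (M (max n0 (j + 1)))) (le_max_right _ _)).2 j
        (lt_of_lt_of_le (Nat.lt_succ_self j) (le_max_right _ _))
      rw [← hm1 k hk1, ← hm1 _ (le_max_left m1 (M (max n0 (j + 1)))), e1, e2]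
    choose M' hM' using hθ
    obtain ⟨a, ha, hat⟩ := D.θcl x (fun j => D.θ (x (M' j)) j) hx
      (fun j => eventually_atTop.2 ⟨M' j, fun k hk => hM' j k hk⟩)
    have haθ : ∀ j, ∀ k, M' j ≤ k → D.θ (x k) j = D.θ a j := by
      intro j k hk
      rw [hM' j k hk, hat]
    -- the bits of `a`
    have haz : D.pi a = z := by
      funext i
      obtain ⟨l, hl⟩ := D.θpi i
      obtain ⟨m1, hm1⟩ := hno (i + 1)
      obtain ⟨m2, hm2⟩ := hz (i + 1)
      let k := max (M' l) (max m1 m2)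
      have k1 : M' l ≤ k := le_max_left _ _
      have k2 : m1 ≤ k := (le_max_left _ _).trans (le_max_right _ _)
      have k3 : m2 ≤ k := (le_max_right _ _).trans (le_max_right _ _)
      have e1 : D.pi (x k) i = D.pi a i := hl (x k) a (hx k) ha (haθ l k k1)
      have e2 : D.pi (y k) i = z i := hm2 k k3 i (Nat.lt_succ_self i)
      rw [← e1, ← e2]
      rcases D.case n0 (y k) with ⟨b, hb⟩ | hb
      · have h5 : i + 1 ≤ b := by
          by_contra hcon
          exact hm1 k k2 b hb.1 (Nat.not_le.1 hcon) hb.2.1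
        exact D.pi_ap hb (lt_of_lt_of_le (lt_of_lt_of_le (Nat.lt_succ_self i) h5) (le_bd b))
      · show D.pi (D.ap n0 (y k)) i = _
        rw [D.ap_of_not hb]
    have key : ∀ n, n0 ≤ n → ∃ m, ∀ k, m ≤ k → D.Ag n (y k) a := by
      intro n hn
      obtain ⟨m1, hm1⟩ := hxap n hn
      obtain ⟨m2, hm2⟩ := hz (bd (n + 1))
      refine ⟨max (max m1 m2) ((Finset.range n).sup M'), fun k hk => ⟨fun i hi => ?_, fun j hj => ?_⟩⟩
      · rw [hm2 k (((le_max_right _ _).trans (le_max_left _ _)).trans hk) i hi, haz]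
      · rw [hm1 k (((le_max_left _ _).trans (le_max_left _ _)).trans hk),
          D.ap_of_not (y := a) (n := n) (by rw [haz]; exact fun b hb => hn0 b (hn.trans hb))]
        apply haθ
        exact ((Finset.le_sup (f := M') (Finset.mem_range.2 hj)).trans (le_max_right _ _)).trans hk
    refine ⟨a, fun n => ?_⟩
    obtain ⟨m, hm⟩ := key (max n n0) (le_max_right _ _)
    exact ⟨m, fun k hk => (hm k hk).mono (le_max_left _ _)⟩

end Dat

end Pool.Agent.W_MP_daea50_h85
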