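import Pool.Agent.W_MP_daea50_h85.Code1

set_option autoImplicit false

/-!
# Code2: density of the classes, continuity of the replacement maps
-/

namespace Pool.Agent.W_MP_daea50_h85

universe u

open Filter

namespace Dat

variable {Y : Type u} [MeasurableSpace Y] {E : Y → Y → Prop} {D : Dat Y E}

theorem Ag.θ_of_le {m l : ℕ} (hml : m ≤ l) {x y : Y} (h : D.Ag l x y) {j : ℕ} (hj : j < l) :
    D.θ (D.ap m x) j = D.θ (D.ap m y) j := by
  by_cases hz : ∃ k, FZ m (D.pi x) k ∧ k < l
  · obtain ⟨k, hk, hkn⟩ := hz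
    rw [D.ap_eq_of_FZ hk fun i hi => h.1 i (lt_of_lt_of_le hi (bd_mono (by omega)))]
  · have hn : ∀ k, m ≤ k → k < l → ¬ ZB (D.pi x) k := by
      intro k h1 h2 h3
      obtain ⟨k', hk'⟩ := exists_FZ ⟨k, h1, h3⟩
      have : k' ≤ k := by
        by_contra hcon
        exact hk'.2.2 k h1 (Nat.not_le.1 hcon) h3
      exact hz ⟨k', hk', lt_of_le_of_lt this h2⟩
    have hn' : ∀ k, m ≤ k → k < l → ¬ ZB (D.pi y) k := by
      intro k h1 h2 h3
      refine hn k h1 h2 ((ZB_congr fun i hi => ?_).2 h3)
      exact h.1 i (lt_of_lt_of_le hi (bd_mono (by omega)))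
    rw [D.ap_congr_of_none hml hn, D.ap_congr_of_none hml hn']
    exact h.2 j hj

/-- a block of the constant sequence `true` is not zero -/
theorem not_ZB_of_true {z : ℕ → Bool} {k i : ℕ} (h1 : bd k ≤ i) (h2 : i < bd (k + 1))
    (h3 : z i = true) : ¬ ZB z k := by
  intro h
  have := h i h1 h2
  rw [h3] at this
  exact Bool.noConfusion this

/-- every nonempty basic open set is hit by replacing a prefix, whatever the point -/
theorem exists_rep (D : Dat Y E) (y0 : Y) (n : ℕ) :
    ∃ (k : ℕ) (v : ℕ → Bool), ∀ y, D.Ag n (D.rep (bd (k + 2)) v y) y0 := by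
  rcases D.case n y0 with ⟨k, hk⟩ | hk
  · refine ⟨k, D.pi y0, fun y => ?_⟩
    have hb : ∀ i, i < bd (k + 2) → D.pi y0 i = D.pi (D.rep (bd (k + 2)) (D.pi y0) y) i := by
      intro i hi
      rw [D.pi_rep', spl_lt _ _ hi]
    refine ⟨fun i hi => (hb i (lt_of_lt_of_le hi (bd_mono (by have := hk.1; omega)))).symm, ?_⟩
    rw [D.ap_eq_of_FZ hk hb]
    exact fun _ _ => rfl
  · set x1 := D.rep (bd n) (fun _ => true) y0 with hx1
    have hx1z : ∀ b, ¬ ZB (D.pi x1) b := by
      intro b hb
      by_cases h1 : b < n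
      · refine not_ZB_of_true (z := D.pi x1) (k := b) (i := bd b) le_rfl (bd_lt b) ?_ hb
        rw [hx1, D.pi_rep', spl_lt _ _ (bd_strictMono h1)]
      · refine hk b (Nat.not_lt.1 h1) ?_
        refine hb.tail (m := bd n) ?_ (bd_mono (Nat.not_lt.1 h1))
        intro i hi
        rw [hx1, D.pi_rep', spl_ge _ _ hi]
    have hy0 : D.rep (bd n) (D.pi y0) x1 = y0 := by
      rw [hx1, D.rep_rep' le_rfl, D.rep_pi']
    have hCx1 : D.Cp x1 := D.Cp_of_not (n := 0) fun b _ => hx1z b
    choose l hl using fun i => D.θrep (bd n) (D.pi y0) i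
    choose l' hl' using D.θpi
    obtain ⟨j, hj⟩ := D.dense x1 hx1z
      (max ((Finset.range n).sup l) ((Finset.range (bd (n + 1))).sup l') + 1)
    have hjl : ∀ i, i < n → D.θ (D.d j) (l i) = D.θ x1 (l i) := by
      intro i hi
      apply hj
      refine lt_of_le_of_lt ?_ (Nat.lt_succ_self _)
      exact (Finset.le_sup (f := l) (Finset.mem_range.2 hi)).trans (le_max_left _ _)
    have hjb : ∀ i, i < bd (n + 1) → D.pi (D.d j) i = D.pi x1 i := by
      intro i hi
      apply hl' i _ _ (D.Cp_d j) hCx1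
      apply hj
      refine lt_of_le_of_lt ?_ (Nat.lt_succ_self _)
      exact (Finset.le_sup (f := l') (Finset.mem_range.2 hi)).trans (le_max_right _ _)
    set k := n + 1 + j with hkdef
    set v : ℕ → Bool := fun i => if i < bd n then D.pi y0 i else if i < bd k then D.pi (D.d j) i
      else if i < bd (k + 1) then false else decide (i = bd (k + 1) + j) with hv
    refine ⟨k, v, fun y => ?_⟩
    set y' := D.rep (bd (k + 2)) v y with hy'
    have hpy : ∀ i, i < bd (k + 2) → D.pi y' i = v i := by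
      intro i hi
      rw [hy', D.pi_rep', spl_lt _ _ hi]
    have hnk : bd (n + 1) ≤ bd k := bd_mono (by omega)
    have hnk' : bd n < bd (n + 1) := bd_lt n
    have hkk : bd k < bd (k + 1) := bd_lt k
    have hkk' : bd (k + 1) < bd (k + 2) := bd_lt (k + 1)
    have hlen : j < bd (k + 2) - bd (k + 1) := by
      rw [bd_succ (k + 1)]; omega
    have hFZ : FZ n (D.pi y') k := by
      refine ⟨by omega, ?_, ?_⟩
      · intro i h1 h2
        rw [hpy i (by omega), hv]
        simp only
        rw [if_neg (by omega), if_neg (by omega), if_pos h2]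
      · intro b h1 h2 h3
        refine D.dF j b ?_
        intro i h4 h5
        have h6 : bd (b + 1) ≤ bd k := bd_mono (by omega)
        have h7 : bd n ≤ bd b := bd_mono h1
        have h8 := h3 i h4 h5
        rw [hpy i (by omega), hv] at h8
        simp only at h8
        rwa [if_neg (by omega), if_pos (by omega)] at h8
    have hjx : jx (D.pi y') k = j := by
      have hset : {i | i < bd (k + 2) - bd (k + 1) ∧ D.pi y' (bd (k + 1) + i) = true} = {j} := by
        ext i
        simp only [Set.mem_setOf_eq, Set.mem_singleton_iff]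
        constructor
        · rintro ⟨h1, h2⟩
          rw [hpy _ (by omega), hv] at h2
          simp only at h2
          rw [if_neg (by omega), if_neg (by omega), if_neg (by omega)] at h2
          have := of_decide_eq_true h2
          omega
        · rintro rfl
          refine ⟨hlen, ?_⟩
          rw [hpy _ (by omega), hv]
          simp only
          rw [if_neg (by omega), if_neg (by omega), if_neg (by omega)]
          simp
      unfold jx
      rw [hset]
      exact csInf_singleton j
    have hap : D.ap n y' = D.rep (bd n) (D.pi y0) (D.d j) := by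
      rw [D.ap_of_FZ hFZ, hjx]
      conv_rhs => rw [← D.rep_pi' (bd k) (D.d j), D.rep_rep_lt (by omega)]
      apply D.rep_congr'
      intro i hi
      rw [hpy i (by omega), hv]
      simp only [spl]
      by_cases h1 : i < bd n
      · rw [if_pos h1, if_pos h1]
      · rw [if_neg h1, if_neg h1, if_pos hi]
    refine ⟨fun i hi => ?_, fun i hi => ?_⟩
    · rw [hpy i (by omega), hv]
      simp only
      by_cases h1 : i < bd n
      · rw [if_pos h1]
      · rw [if_neg h1, if_pos (by omega), hjb i hi, hx1, D.pi_rep', spl_ge _ _ (Nat.not_lt.1 h1)]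
    · rw [hap, hl i _ (D.Cp_d j), hjl i hi, ← hl i _ hCx1, hy0, D.ap_of_not hk]

theorem ap_rep (D : Dat Y E) {n m : ℕ} (hnm : n ≤ m) (v : ℕ → Bool) (x : Y) :
    D.ap m (D.rep (bd n) v x) = D.rep (bd n) v (D.ap m x) := by
  have hbits : ∀ i, bd n ≤ i → D.pi (D.rep (bd n) v x) i = D.pi x i := by
    intro i hi
    rw [D.pi_rep', spl_ge _ _ hi]
  rcases D.case m x with ⟨k, hk⟩ | hk
  · have hk' : FZ m (D.pi (D.rep (bd n) v x)) k := by
      refine ⟨hk.1, ?_, ?_⟩
      · exact hk.2.1.tail (m := bd n) (fun i hi => (hbits i hi).symm) (bd_mono (hnm.trans hk.1))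
      · intro b h1 h2 h3
        exact hk.2.2 b h1 h2 (h3.tail (m := bd n) hbits (bd_mono (hnm.trans h1)))
    have hj : jx (D.pi (D.rep (bd n) v x)) k = jx (D.pi x) k := by
      unfold jx
      congr 1
      ext i
      simp only [Set.mem_setOf_eq]
      have : bd n ≤ bd (k + 1) + i := (bd_mono (by have := hk.1; omega)).trans (Nat.le_add_right _ _)
      rw [hbits _ this]
    rw [D.ap_of_FZ hk', D.ap_of_FZ hk, hj, D.rep_rep_lt (bd_mono (hnm.trans hk.1)), D.pi_rep']
  · rw [D.ap_of_not hk, D.ap_of_not]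
    intro b h1 h2
    exact hk b h1 (h2.tail (m := bd n) hbits (bd_mono (hnm.trans h1)))

theorem rep_cont (D : Dat Y E) (n : ℕ) (v : ℕ → Bool) (m : ℕ) :
    ∃ l, ∀ x y, D.Ag l x y → D.Ag m (D.rep (bd n) v x) (D.rep (bd n) v y) := by
  have key : ∀ m, n ≤ m → ∃ l, ∀ x y, D.Ag l x y → D.Ag m (D.rep (bd n) v x) (D.rep (bd n) v y) := by
    intro m hnm
    choose l hl using fun i => D.θrep (bd n) v i
    refine ⟨max m ((Finset.range m).sup l + 1), fun x y h => ⟨fun i hi => ?_, fun j hj => ?_⟩⟩
    · rw [D.pi_rep', D.pi_rep']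
      unfold spl
      by_cases h1 : i < bd n
      · rw [if_pos h1, if_pos h1]
      · rw [if_neg h1, if_neg h1]
        exact h.1 i (lt_of_lt_of_le hi (bd_mono (by have := le_max_left m ((Finset.range m).sup l + 1); omega)))
    · rw [D.ap_rep hnm, D.ap_rep hnm, hl j _ (D.Cp_ap m x), hl j _ (D.Cp_ap m y)]
      apply h.θ_of_le (le_max_left _ _)
      refine lt_of_lt_of_le ?_ (le_max_right _ _)
      exact lt_of_le_of_lt (Finset.le_sup (f := l) (Finset.mem_range.2 hj)) (Nat.lt_succ_self _)
  obtain ⟨l, hl⟩ := key (max m n) (le_max_right _ _)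
  exact ⟨l, fun x y h => (hl x y h).mono (le_max_left _ _)⟩

/-- no zero block at or after `n` -/
def NZ (D : Dat Y E) (n : ℕ) (y : Y) : Prop := ∀ k, n ≤ k → ¬ ZB (D.pi y) k

theorem g_cont (D : Dat Y E) (i n m : ℕ) :
    ∃ l, ∀ x y, D.NZ n x → D.NZ n y → D.NZ n (D.g i x) → D.NZ n (D.g i y) → D.Ag l x y →
      D.Ag m (D.g i x) (D.g i y) := by
  have key : ∀ m, n ≤ m → ∃ l, ∀ x y, D.NZ n x → D.NZ n y → D.NZ n (D.g i x) → D.NZ n (D.g i y) →
      D.Ag l x y → D.Ag m (D.g i x) (D.g i y) := by
    intro m hnm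
    choose l hl using fun j => D.θg i j
    choose l' hl' using D.θpi
    refine ⟨max m (max ((Finset.range m).sup l + 1)
      ((Finset.range (bd (m + 1))).sup (fun b => l (l' b)) + 1)), ?_⟩
    intro x y hx hy hgx hgy h
    have hθ : ∀ j, j < max m (max ((Finset.range m).sup l + 1)
        ((Finset.range (bd (m + 1))).sup (fun b => l (l' b)) + 1)) → D.θ x j = D.θ y j := by
      intro j hj
      have := h.2 j hj
      rwa [D.ap_of_not (fun k hk => hx k (hnm.trans ((le_max_left _ _).trans hk))),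
        D.ap_of_not (fun k hk => hy k (hnm.trans ((le_max_left _ _).trans hk)))] at this
    have hCx : D.Cp x := D.Cp_of_not hx
    have hCy : D.Cp y := D.Cp_of_not hy
    have hCgx : D.Cp (D.g i x) := D.Cp_of_not hgx
    have hCgy : D.Cp (D.g i y) := D.Cp_of_not hgy
    refine ⟨fun b hb => ?_, fun j hj => ?_⟩
    · apply hl' b _ _ hCgx hCgy
      rw [hl _ _ hCx, hl _ _ hCy]
      apply hθ
      refine lt_of_lt_of_le ?_ ((le_max_right _ _).trans (le_max_right _ _))
      exact lt_of_le_of_lt (Finset.le_sup (f := fun b => l (l' b)) (Finset.mem_range.2 hb))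
        (Nat.lt_succ_self _)
    · rw [D.ap_of_not (fun k hk => hgx k (hnm.trans hk)), D.ap_of_not (fun k hk => hgy k (hnm.trans hk)),
        hl _ _ hCx, hl _ _ hCy]
      apply hθ
      refine lt_of_lt_of_le ?_ ((le_max_left _ _).trans (le_max_right _ _))
      exact lt_of_le_of_lt (Finset.le_sup (f := l) (Finset.mem_range.2 hj)) (Nat.lt_succ_self _)
  obtain ⟨l, hl⟩ := key (max m n) (le_max_right _ _)
  exact ⟨l, fun x y h1 h2 h3 h4 h => (hl x y h1 h2 h3 h4 h).mono (le_max_left _ _)⟩

/-- the points used to reach the added class -/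
theorem exists_unbounded (D : Dat Y E) (t : ℕ) :
    ∃ x, (∀ k, ¬ ZB (D.pi x) k) ∧ uu (D.pi x) = t := by
  classical
  set v : ℕ → Bool := fun i => decide (¬ ∃ b, b < t ∧ i = bd b) with hv
  refine ⟨D.rep (bd (t + 1)) v (D.d 0), ?_, ?_⟩
  · intro k hk
    by_cases h1 : k ≤ t
    · have hlen : bd k + 1 < bd (k + 1) := by rw [bd_succ]; omega
      refine not_ZB_of_true (z := D.pi (D.rep (bd (t + 1)) v (D.d 0))) (k := k) (i := bd k + 1)
        (by omega) hlen ?_ hk
      rw [D.pi_rep', spl_lt _ _ (lt_of_lt_of_le hlen (bd_mono (by omega))), hv]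
      simp only [decide_eq_true_eq]
      rintro ⟨b, -, hb2⟩
      rcases lt_or_ge k b with h2 | h2
      · have := bd_mono (show k + 1 ≤ b by omega)
        omega
      · have := bd_mono h2
        omega
    · refine D.dF 0 k (hk.tail (m := bd (t + 1)) ?_ (bd_mono (by omega)))
      intro i hi
      rw [D.pi_rep', spl_ge _ _ hi]
  · have h1 : ∀ b, b < t → D.pi (D.rep (bd (t + 1)) v (D.d 0)) (bd b) = false := by
      intro b hb
      rw [D.pi_rep', spl_lt _ _ (bd_strictMono (by omega)), hv]
      simp only [decide_eq_false_iff_not, not_not]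
      exact ⟨b, hb, rfl⟩
    have h2 : D.pi (D.rep (bd (t + 1)) v (D.d 0)) (bd t) = true := by
      rw [D.pi_rep', spl_lt _ _ (bd_lt t), hv]
      simp only [decide_eq_true_eq]
      rintro ⟨b, hb1, hb2⟩
      have := bd_strictMono.injective hb2
      omega
    unfold uu
    apply le_antisymm
    · exact Nat.sInf_le h2
    · apply le_csInf ⟨t, h2⟩
      intro b hb
      by_contra hcon
      have hb' : D.pi (D.rep (bd (t + 1)) v (D.d 0)) (bd b) = true := hb
      rw [h1 b (Nat.not_le.1 hcon)] at hb'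
      exact Bool.noConfusion hb'

end Dat

end Pool.Agent.W_MP_daea50_h85
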