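import Pool.Agent.W_MP_daea50_h85.Code2

set_option autoImplicit false

/-!
# Code3: the natural number codes and their measurability
-/

namespace Pool.Agent.W_MP_daea50_h85

universe u

open Filter

theorem measurableSet_FZ (n k : ℕ) : MeasurableSet {z : ℕ → Bool | FZ n z k} := by
  by_cases h : n ≤ k
  · have : {z : ℕ → Bool | FZ n z k} = {z | ZB z k} ∩ ⋂ b, {z | n ≤ b → b < k → ¬ ZB z b} := by
      ext z
      simp only [FZ, Set.mem_setOf_eq, Set.mem_inter_iff, Set.mem_iInter, h, true_and]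
    rw [this]
    refine (measurableSet_ZB k).inter (MeasurableSet.iInter fun b => ?_)
    by_cases h1 : n ≤ b
    · by_cases h2 : b < k
      · simp only [h1, h2, forall_const]
        exact (measurableSet_ZB b).compl
      · simp [h2]
    · simp [h1]
  · have : {z : ℕ → Bool | FZ n z k} = ∅ := by
      ext z
      simp [FZ, h]
    rw [this]
    exact MeasurableSet.empty

namespace Dat

variable {Y : Type u} [MeasurableSpace Y] {E : Y → Y → Prop}

theorem pi_meas' (D : Dat Y E) : Measurable D.pi := D.hb.pi_meas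

theorem measurable_ap (D : Dat Y E) (n : ℕ) : Measurable (D.ap n) := by
  classical
  intro S hS
  let ext : (k : ℕ) → (Fin k → Bool) → ℕ → Bool := fun k s i => if h : i < k then s ⟨i, h⟩ else false
  have hset : D.ap n ⁻¹' S = ({y | D.NZ n y} ∩ S) ∪ ⋃ (k : ℕ), ⋃ (s : Fin (bd (k + 2)) → Bool),
      ({y | FZ n (D.pi y) k} ∩ ({y | ∀ i : Fin (bd (k + 2)), D.pi y i = s i} ∩
        {_y | D.rep (bd k) (ext _ s) (D.d (jx (ext _ s) k)) ∈ S})) := by
    ext y
    simp only [Set.mem_preimage, Set.mem_union, Set.mem_inter_iff, Set.mem_setOf_eq, Set.mem_iUnion]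
    constructor
    · intro hy
      rcases D.case n y with ⟨k, hk⟩ | hk
      · right
        refine ⟨k, fun i => D.pi y i, hk, fun _ => rfl, ?_⟩
        have he : ∀ i, i < bd (k + 2) → ext (bd (k + 2)) (fun i => D.pi y i) i = D.pi y i := by
          intro i hi
          simp [ext, hi]
        rw [jx_congr he, D.rep_congr' (v := D.pi y) _ (fun i hi => he i (hi.trans (bd_strictMono (by omega))))]
        rw [D.ap_of_FZ hk] at hy
        exact hy
      · left
        refine ⟨hk, ?_⟩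
        rwa [D.ap_of_not hk] at hy
    · rintro (⟨h1, h2⟩ | ⟨k, s, hk, hs, hS'⟩)
      · rwa [D.ap_of_not h1]
      · have he : ∀ i, i < bd (k + 2) → ext (bd (k + 2)) s i = D.pi y i := by
          intro i hi
          simp only [ext, hi, dif_pos]
          exact (hs ⟨i, hi⟩).symm
        rw [D.ap_of_FZ hk]
        rw [jx_congr he, D.rep_congr' (v := D.pi y) _ (fun i hi => he i (hi.trans (bd_strictMono (by omega))))] at hS'
        exact hS'
  rw [hset]
  refine MeasurableSet.union (MeasurableSet.inter ?_ hS) ?_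
  · have : {y | D.NZ n y} = ⋂ k, {y | n ≤ k → ¬ ZB (D.pi y) k} := by
      ext y; simp [NZ]
    rw [this]
    refine MeasurableSet.iInter fun k => ?_
    by_cases h : n ≤ k
    · simp only [h, forall_const]
      exact D.pi_meas' (measurableSet_ZB k).compl
    · simp [h]
  · refine MeasurableSet.iUnion fun k => MeasurableSet.iUnion fun s => ?_
    refine (D.pi_meas' (measurableSet_FZ n k)).inter (MeasurableSet.inter ?_ (MeasurableSet.const _))
    have : {y | ∀ i : Fin (bd (k + 2)), D.pi y i = s i} = ⋂ i : Fin (bd (k + 2)), {y | D.pi y i = s i} := by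
      ext y; simp
    rw [this]
    refine MeasurableSet.iInter fun i => ?_
    exact measurableSet_eq_fun ((measurable_pi_apply (i : ℕ)).comp D.pi_meas') measurable_const

theorem measurableSet_Ag (D : Dat Y E) (n : ℕ) (a : Y) : MeasurableSet {y | D.Ag n y a} := by
  have : {y | D.Ag n y a} = (⋂ i, {y | i < bd (n + 1) → D.pi y i = D.pi a i}) ∩
      ⋂ j, {y | j < n → D.θ (D.ap n y) j = D.θ (D.ap n a) j} := by
    ext y
    simp only [Ag, Set.mem_inter_iff, Set.mem_iInter, Set.mem_setOf_eq]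
  rw [this]
  refine MeasurableSet.inter (MeasurableSet.iInter fun i => ?_) (MeasurableSet.iInter fun j => ?_)
  · by_cases h : i < bd (n + 1)
    · simp only [h, forall_const]
      exact measurableSet_eq_fun ((measurable_pi_apply i).comp D.pi_meas') measurable_const
    · simp [h]
  · by_cases h : j < n
    · simp only [h, forall_const]
      exact measurableSet_eq_fun ((measurable_pi_apply j).comp (D.θm.comp (D.measurable_ap n)))
        measurable_const
    · simp [h]

/-- code of level `n` -/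
noncomputable def cc (D : Dat Y E) (n : ℕ) (y : Y) : ℕ :=
  Encodable.encode ((fun i : Fin (bd (n + 1)) => D.pi y i), (fun j : Fin n => D.θ (D.ap n y) j))

theorem cc_eq_iff (D : Dat Y E) (n : ℕ) (y y' : Y) : D.cc n y = D.cc n y' ↔ D.Ag n y y' := by
  unfold cc
  rw [Encodable.encode_inj, Prod.mk.injEq, funext_iff, funext_iff]
  constructor
  · rintro ⟨h1, h2⟩
    exact ⟨fun i hi => h1 ⟨i, hi⟩, fun j hj => h2 ⟨j, hj⟩⟩
  · rintro ⟨h1, h2⟩
    exact ⟨fun i => h1 i i.2, fun j => h2 j j.2⟩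

/-- cumulative codes -/
noncomputable def NN (D : Dat Y E) : ℕ → Y → ℕ
  | 0, y => D.cc 0 y
  | n + 1, y => Nat.pair (D.NN n y) (D.cc (n + 1) y)

theorem NN_eq_iff (D : Dat Y E) (n : ℕ) (y y' : Y) : D.NN n y = D.NN n y' ↔ D.Ag n y y' := by
  induction n with
  | zero => exact D.cc_eq_iff 0 y y'
  | succ n ih =>
    show Nat.pair _ _ = Nat.pair _ _ ↔ _
    rw [Nat.pair_eq_pair, ih, D.cc_eq_iff]
    exact ⟨fun h => h.2, fun h => ⟨h.mono (Nat.le_succ n), h⟩⟩

theorem NN_succ_le (D : Dat Y E) (n : ℕ) (y : Y) : D.NN n y ≤ D.NN (n + 1) y :=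
  Nat.left_le_pair _ _

theorem NN_mono (D : Dat Y E) (y : Y) : Monotone fun n => D.NN n y :=
  monotone_nat_of_le_succ fun n => D.NN_succ_le n y

theorem measurable_NN (D : Dat Y E) (n : ℕ) : Measurable (D.NN n) := by
  apply measurable_to_countable'
  intro m
  by_cases h : ∃ a, D.NN n a = m
  · obtain ⟨a, rfl⟩ := h
    have : D.NN n ⁻¹' {D.NN n a} = {y | D.Ag n y a} := by
      ext y
      simp only [Set.mem_preimage, Set.mem_singleton_iff, Set.mem_setOf_eq, NN_eq_iff]
    rw [this]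
    exact D.measurableSet_Ag n a
  · have : D.NN n ⁻¹' {m} = ∅ := by
      ext y
      simp only [Set.mem_preimage, Set.mem_singleton_iff, Set.mem_empty_iff_false, iff_false]
      exact fun hy => h ⟨y, hy⟩
    rw [this]
    exact MeasurableSet.empty

/-- the embedding -/
noncomputable def Th (D : Dat Y E) (y : Y) : ℕ → ℝ := fun n => 1 / ((D.NN n y : ℝ) + 1)

theorem measurable_Th (D : Dat Y E) : Measurable D.Th := by
  refine measurable_pi_lambda _ fun n => ?_
  have h : Measurable fun y => ((D.NN n y : ℕ) : ℝ) :=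
    (measurable_from_nat (f := fun m : ℕ => (m : ℝ))).comp (D.measurable_NN n)
  exact measurable_const.div (h.add measurable_const)

theorem Th_eq_iff (D : Dat Y E) (n : ℕ) (y y' : Y) : D.Th y n = D.Th y' n ↔ D.Ag n y y' := by
  rw [← D.NN_eq_iff]
  unfold Th
  have h1 : (0 : ℝ) < (D.NN n y : ℝ) + 1 := by positivity
  have h2 : (0 : ℝ) < (D.NN n y' : ℝ) + 1 := by positivity
  constructor
  · intro h
    rw [div_eq_div_iff h1.ne' h2.ne'] at h
    have : (D.NN n y : ℝ) = D.NN n y' := by linarith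
    exact_mod_cast this
  · intro h
    rw [h]

theorem Th_injective (D : Dat Y E) : Function.Injective D.Th := by
  intro y y' h
  apply eq_of_Ag (D := D)
  intro n
  exact (D.Th_eq_iff n y y').1 (congrFun h n)

theorem Th_pos (D : Dat Y E) (y : Y) (n : ℕ) : 0 < D.Th y n := by
  unfold Th
  positivity

theorem Th_le_one (D : Dat Y E) (y : Y) (n : ℕ) : D.Th y n ≤ 1 := by
  unfold Th
  rw [div_le_one (by positivity)]
  have : (0 : ℝ) ≤ (D.NN n y : ℝ) := by positivity
  linarith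

theorem Th_anti (D : Dat Y E) (y : Y) {m n : ℕ} (h : m ≤ n) : D.Th y n ≤ D.Th y m := by
  unfold Th
  apply one_div_le_one_div_of_le (by positivity)
  have : (D.NN m y : ℝ) ≤ D.NN n y := by exact_mod_cast D.NN_mono y h
  linarith

/-- the compact space -/
def KK (D : Dat Y E) : Set (ℕ → ℝ) := closure (Set.range D.Th)

theorem isCompact_KK (D : Dat Y E) : IsCompact D.KK := by
  have h1 : IsCompact (Set.pi Set.univ fun _ : ℕ => Set.Icc (0 : ℝ) 1) :=
    isCompact_univ_pi fun _ => isCompact_Icc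
  refine h1.of_isClosed_subset isClosed_closure ?_
  apply closure_minimal _ h1.isClosed
  rintro _ ⟨y, rfl⟩ n _
  exact ⟨(D.Th_pos y n).le, D.Th_le_one y n⟩

end Dat

/-- a convergent sequence `1/(a k + 1)` with nonzero limit is eventually constant -/
theorem eventually_const_of_tendsto (a : ℕ → ℕ) (r : ℝ) (hr : r ≠ 0)
    (h : Tendsto (fun k => 1 / ((a k : ℝ) + 1)) atTop (nhds r)) :
    ∃ m, ∀ k, m ≤ k → a k = a m := by
  have h1 : Tendsto (fun k => (a k : ℝ) + 1) atTop (nhds r⁻¹) := by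
    have := h.inv₀ hr
    simpa using this
  have h2 : CauchySeq fun k => (a k : ℝ) + 1 := h1.cauchySeq
  rw [Metric.cauchySeq_iff'] at h2
  obtain ⟨m, hm⟩ := h2 1 one_pos
  refine ⟨m, fun k hk => ?_⟩
  have h3 := hm k hk
  rw [Real.dist_eq] at h3
  have h4 : |(a k : ℝ) - a m| < 1 := by
    have : (a k : ℝ) + 1 - (a m + 1) = a k - a m := by ring
    rwa [this] at h3
  have h5 : |((a k : ℤ) - (a m : ℤ) : ℤ)| < 1 := by
    have : (((|((a k : ℤ) - (a m : ℤ) : ℤ)| : ℤ)) : ℝ) < 1 := by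
      push_cast
      exact h4
    exact_mod_cast this
  have h6 := Int.abs_lt_one_iff.1 h5
  omega

namespace Dat

variable {Y : Type u} [MeasurableSpace Y] {E : Y → Y → Prop}

/-- sequences in `Y` whose codes converge to a point without zero coordinate have a limit in `Y` -/
theorem exists_of_tendsto (D : Dat Y E) (y : ℕ → Y) (p : ℕ → ℝ)
    (h : Tendsto (fun k => D.Th (y k)) atTop (nhds p)) (hp : ∀ n, p n ≠ 0) :
    ∃ a, p = D.Th a ∧ ∀ n, ∃ m, ∀ k, m ≤ k → D.Ag n (y k) a := by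
  rw [tendsto_pi_nhds] at h
  have h1 : ∀ n, ∃ m, ∀ k, m ≤ k → D.Ag n (y k) (y m) := by
    intro n
    obtain ⟨m, hm⟩ := eventually_const_of_tendsto (fun k => D.NN n (y k)) (p n) (hp n) (h n)
    exact ⟨m, fun k hk => (D.NN_eq_iff n _ _).1 (hm k hk)⟩
  obtain ⟨a, ha⟩ := exists_limit y h1
  refine ⟨a, ?_, ha⟩
  funext n
  obtain ⟨m, hm⟩ := ha n
  refine tendsto_nhds_unique (h n) ?_
  refine tendsto_const_nhds.congr' ?_
  filter_upwards [eventually_ge_atTop m] with k hk
  exact ((D.Th_eq_iff n _ _).2 (hm k hk)).symm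

theorem tendsto_Ag (D : Dat Y E) (y : ℕ → Y) (a : Y)
    (h : Tendsto (fun k => D.Th (y k)) atTop (nhds (D.Th a))) :
    ∀ n, ∃ m, ∀ k, m ≤ k → D.Ag n (y k) a := by
  obtain ⟨b, hb1, hb2⟩ := D.exists_of_tendsto y _ h fun n => (D.Th_pos a n).ne'
  rw [D.Th_injective hb1]
  exact hb2

theorem tendsto_of_Ag (D : Dat Y E) (y : ℕ → Y) (a : Y)
    (h : ∀ n, ∃ m, ∀ k, m ≤ k → D.Ag n (y k) a) :
    Tendsto (fun k => D.Th (y k)) atTop (nhds (D.Th a)) := by
  rw [tendsto_pi_nhds]
  intro n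
  obtain ⟨m, hm⟩ := h n
  refine tendsto_const_nhds.congr' ?_
  filter_upwards [eventually_ge_atTop m] with k hk
  exact ((D.Th_eq_iff n _ _).2 (hm k hk)).symm

theorem exists_seq_of_mem_KK (D : Dat Y E) {p : ℕ → ℝ} (hp : p ∈ D.KK) :
    ∃ y : ℕ → Y, Tendsto (fun k => D.Th (y k)) atTop (nhds p) := by
  obtain ⟨x, hx, hx'⟩ := mem_closure_iff_seq_limit.1 hp
  choose y hy using hx
  refine ⟨y, ?_⟩
  have : (fun k => D.Th (y k)) = x := funext hy
  rw [this]
  exact hx'

theorem KK_cases (D : Dat Y E) {p : ℕ → ℝ} (hp : p ∈ D.KK) :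
    p ∈ Set.range D.Th ∨ ∃ n, p n = 0 := by
  by_cases h : ∃ n, p n = 0
  · exact Or.inr h
  · push Not at h
    left
    obtain ⟨y, hy⟩ := D.exists_seq_of_mem_KK hp
    obtain ⟨a, ha, -⟩ := D.exists_of_tendsto y p hy h
    exact ⟨a, ha.symm⟩

theorem KK_anti (D : Dat Y E) {p : ℕ → ℝ} (hp : p ∈ D.KK) {m n : ℕ} (h : m ≤ n) : p n ≤ p m := by
  have hc : IsClosed {q : ℕ → ℝ | q n ≤ q m} :=
    isClosed_le (continuous_apply n) (continuous_apply m)
  have : D.KK ⊆ {q : ℕ → ℝ | q n ≤ q m} := by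
    apply closure_minimal _ hc
    rintro _ ⟨y, rfl⟩
    exact D.Th_anti y h
  exact this hp

theorem KK_nonneg (D : Dat Y E) {p : ℕ → ℝ} (hp : p ∈ D.KK) (n : ℕ) : 0 ≤ p n := by
  have hc : IsClosed {q : ℕ → ℝ | 0 ≤ q n} := isClosed_le continuous_const (continuous_apply n)
  have : D.KK ⊆ {q : ℕ → ℝ | 0 ≤ q n} := by
    apply closure_minimal _ hc
    rintro _ ⟨y, rfl⟩
    exact (D.Th_pos y n).le
  exact this hp

theorem KK_val (D : Dat Y E) {p : ℕ → ℝ} (hp : p ∈ D.KK) {n : ℕ} (h : p n ≠ 0) :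
    ∃ m : ℕ, p n = 1 / ((m : ℝ) + 1) := by
  obtain ⟨y, hy⟩ := D.exists_seq_of_mem_KK hp
  have hy' := (tendsto_pi_nhds.1 hy) n
  obtain ⟨m, hm⟩ := eventually_const_of_tendsto (fun k => D.NN n (y k)) (p n) h hy'
  refine ⟨D.NN n (y m), tendsto_nhds_unique hy' ?_⟩
  refine tendsto_const_nhds.congr' ?_
  filter_upwards [eventually_ge_atTop m] with k hk
  show 1 / ((D.NN n (y m) : ℝ) + 1) = 1 / ((D.NN n (y k) : ℝ) + 1)
  rw [hm k hk]

/-- the added points -/
def DD (D : Dat Y E) : Set (ℕ → ℝ) := D.KK \ Set.range D.Th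

theorem DD_iff (D : Dat Y E) {p : ℕ → ℝ} (hp : p ∈ D.KK) : p ∈ D.DD ↔ ∃ n, p n = 0 := by
  constructor
  · intro h
    exact (D.KK_cases hp).resolve_left h.2
  · rintro ⟨n, hn⟩
    refine ⟨hp, ?_⟩
    rintro ⟨y, rfl⟩
    exact (D.Th_pos y n).ne' hn

theorem countable_DD (D : Dat Y E) : D.DD.Countable := by
  classical
  let A : (n : ℕ) → (Fin n → ℕ) → Set (ℕ → ℝ) := fun n s =>
    {p | (∀ i : Fin n, p i = 1 / ((s i : ℝ) + 1)) ∧ ∀ i, n ≤ i → p i = 0}
  have hsub : D.DD ⊆ ⋃ (n : ℕ), ⋃ (s : Fin n → ℕ), A n s := by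
    intro p hp
    have hK : p ∈ D.KK := hp.1
    have hex : ∃ n, p n = 0 := (D.DD_iff hK).1 hp
    have hlt : ∀ i : Fin (Nat.find hex), ∃ m : ℕ, p i = 1 / ((m : ℝ) + 1) := by
      intro i
      exact D.KK_val hK (Nat.find_min hex i.2)
    choose s hs using hlt
    refine Set.mem_iUnion.2 ⟨Nat.find hex, Set.mem_iUnion.2 ⟨s, hs, ?_⟩⟩
    intro i hi
    apply le_antisymm
    · have := D.KK_anti hK hi
      rwa [Nat.find_spec hex] at this
    · exact D.KK_nonneg hK i
  refine Set.Countable.mono hsub ?_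
  refine Set.countable_iUnion fun n => Set.countable_iUnion fun s => ?_
  apply Set.Subsingleton.countable
  rintro p ⟨h1, h2⟩ q ⟨h3, h4⟩
  funext i
  by_cases h : i < n
  · rw [h1 ⟨i, h⟩, h3 ⟨i, h⟩]
  · rw [h2 i (Nat.not_lt.1 h), h4 i (Nat.not_lt.1 h)]

end Dat

end Pool.Agent.W_MP_daea50_h85
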