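import Pool.Agent.W_MP_daea50_h85.Code3

set_option autoImplicit false

/-!
# Code4: density, compactness of the relation
-/

namespace Pool.Agent.W_MP_daea50_h85

universe u

open Filter Topology

namespace Dat

variable {Y : Type u} [MeasurableSpace Y] {E : Y → Y → Prop}

/-- an open set containing `p` contains all points agreeing with `p` on the first coordinates -/
theorem exists_cyl {p : ℕ → ℝ} {V : Set (ℕ → ℝ)} (hV : IsOpen V) (hp : p ∈ V) :
    ∃ n, ∀ q : ℕ → ℝ, (∀ i, i ≤ n → q i = p i) → q ∈ V := by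
  obtain ⟨I, u, h1, h2⟩ := isOpen_pi_iff.1 hV p hp
  refine ⟨I.sup id, fun q hq => h2 fun i hi => ?_⟩
  rw [hq i (Finset.le_sup (f := id) hi)]
  exact (h1 i hi).2

/-- classes are dense -/
theorem dense_class (D : Dat Y E) (y : Y) : D.KK ⊆ closure (D.Th '' {y' | E y y'}) := by
  apply closure_minimal _ isClosed_closure
  rintro _ ⟨y0, rfl⟩
  rw [mem_closure_iff]
  intro V hV hy0
  obtain ⟨n, hn⟩ := exists_cyl hV hy0
  obtain ⟨k, v, hkv⟩ := D.exists_rep y0 n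
  refine ⟨D.Th (D.rep (bd (k + 2)) v y), hn _ fun i hi => ?_, _, D.rep_E' _ _ _, rfl⟩
  exact (D.Th_eq_iff i _ _).2 ((hkv y).mono hi)

theorem exists_level (D : Dat Y E) (k : ℕ) (v : ℕ → Bool) :
    ∃ (x : ℕ → Y) (l : ℕ), ∀ t, ∃ j, j < l ∧ D.NZ l (D.rep (bd (k + 2)) v (x t)) ∧
      D.θ (D.rep (bd (k + 2)) v (x t)) j = t := by
  classical
  choose x hx hxu using D.exists_unbounded
  obtain ⟨l0, hl0⟩ := D.θu
  let ext : (Fin (bd (k + 2)) → Bool) → ℕ → Bool := fun s i => if h : i < bd (k + 2) then s ⟨i, h⟩ else false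
  choose l hl using fun s : Fin (bd (k + 2)) → Bool => D.θrep (bd (k + 2)) (ext s) l0
  refine ⟨x, max (k + 2) ((Finset.univ.sup l) + 1), fun t => ?_⟩
  set y := D.rep (bd (k + 2)) v (x t) with hy
  let s : Fin (bd (k + 2)) → Bool := fun i => D.pi (x t) i
  have hCx : D.Cp (x t) := D.Cp_of_not (n := 0) fun b _ => hx t b
  have hCy : D.Cp y := D.Cp_rep.2 hCx
  refine ⟨l s, ?_, ?_, ?_⟩
  · refine lt_of_lt_of_le ?_ (le_max_right _ _)
    exact Nat.lt_succ_of_le (Finset.le_sup (f := l) (Finset.mem_univ s))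
  · intro b hb hz
    refine hx t b (hz.tail (m := bd (k + 2)) ?_ (bd_mono ((le_max_left _ _).trans hb)))
    intro i hi
    rw [hy, D.pi_rep', spl_ge _ _ hi]
  · rw [← hl s y hCy, hy, D.rep_rep' le_rfl,
      D.rep_congr' (v := D.pi (x t)) _ (fun i hi => by simp [ext, s, hi]), D.rep_pi', hl0 _ hCx, hxu]

/-- the added points are dense -/
theorem dense_DD (D : Dat Y E) : D.KK ⊆ closure D.DD := by
  classical
  apply closure_minimal _ isClosed_closure
  rintro _ ⟨y0, rfl⟩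
  rw [mem_closure_iff]
  intro V hV hy0
  obtain ⟨n, hn⟩ := exists_cyl hV hy0
  obtain ⟨k, v, hkv⟩ := D.exists_rep y0 n
  obtain ⟨x, l, hx⟩ := D.exists_level k v
  choose j hj hz hθ using hx
  let y : ℕ → Y := fun t => D.rep (bd (k + 2)) v (x t)
  -- the codes of level `l` tend to infinity
  have hfin : ∀ b, {t | D.NN l (y t) = b}.Finite := by
    intro b
    by_cases hb : ∃ t0, D.NN l (y t0) = b
    · obtain ⟨t0, rfl⟩ := hb
      refine ((Finset.range l).image fun i => D.θ (D.ap l (y t0)) i).finite_toSet.subset ?_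
      intro t ht
      have hAg : D.Ag l (y t) (y t0) := (D.NN_eq_iff l _ _).1 ht
      rw [Finset.coe_image, Set.mem_image]
      refine ⟨j t, by simpa using hj t, ?_⟩
      rw [← hAg.2 (j t) (hj t), D.ap_of_not (hz t)]
      exact hθ t
    · convert Set.finite_empty (α := ℕ)
      ext t
      simp only [Set.mem_setOf_eq, Set.mem_empty_iff_false, iff_false]
      exact fun h => hb ⟨t, h⟩
  have htend : Tendsto (fun t => D.NN l (y t)) atTop atTop := by
    rw [← Nat.cofinite_eq_atTop]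
    exact Tendsto.cofinite_of_finite_preimage_singleton hfin
  have hy : ∀ t, D.Th (y t) ∈ D.KK := fun t => subset_closure ⟨_, rfl⟩
  obtain ⟨p, hp, φ, hφ, hlim⟩ := D.isCompact_KK.tendsto_subseq hy
  have hpl : p l = 0 := by
    have h1 := (tendsto_pi_nhds.1 hlim) l
    have h2 : Tendsto (fun t => (1 : ℝ) / ((D.NN l (y (φ t)) : ℝ) + 1)) atTop (𝓝 0) :=
      tendsto_one_div_add_atTop_nhds_zero_nat.comp (htend.comp hφ.tendsto_atTop)
    exact tendsto_nhds_unique h1 h2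
  refine ⟨p, hn p fun i hi => ?_, (D.DD_iff hp).2 ⟨l, hpl⟩⟩
  have h1 := (tendsto_pi_nhds.1 hlim) i
  refine tendsto_nhds_unique h1 (tendsto_const_nhds.congr' (Eventually.of_forall fun t => ?_))
  exact ((D.Th_eq_iff i _ _).2 ((hkv (x (φ t))).mono hi)).symm

/-- closures of continuous relations -/
theorem closure_rel (D : Dat Y E) (R : Y → Y → Prop)
    (hc : ∀ m, ∃ l, ∀ x x' y y', R x x' → R y y' → D.Ag l x y → D.Ag m x' y')
    (hc' : ∀ m, ∃ l, ∀ x x' y y', R x x' → R y y' → D.Ag l x' y' → D.Ag m x y)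
    (hcl : ∀ (x x' : ℕ → Y) (a a' : Y), (∀ k, R (x k) (x' k)) →
      (∀ n, ∃ m, ∀ k, m ≤ k → D.Ag n (x k) a) → (∀ n, ∃ m, ∀ k, m ≤ k → D.Ag n (x' k) a') → E a a') :
    closure {p : (ℕ → ℝ) × (ℕ → ℝ) | ∃ x x', R x x' ∧ p = (D.Th x, D.Th x')} ⊆
      {p | ∃ x x', E x x' ∧ p = (D.Th x, D.Th x')} ∪ D.DD ×ˢ D.DD := by
  rintro ⟨p, q⟩ hpq
  obtain ⟨s, hs, hs'⟩ := mem_closure_iff_seq_limit.1 hpq
  choose x x' hR hx using hs
  have hp : Tendsto (fun k => D.Th (x k)) atTop (𝓝 p) := by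
    have := (continuous_fst.tendsto _).comp hs'
    refine this.congr fun k => ?_
    simp [hx k]
  have hq : Tendsto (fun k => D.Th (x' k)) atTop (𝓝 q) := by
    have := (continuous_snd.tendsto _).comp hs'
    refine this.congr fun k => ?_
    simp [hx k]
  have hpK : p ∈ D.KK := mem_closure_of_tendsto hp (Eventually.of_forall fun k => ⟨_, rfl⟩)
  have hqK : q ∈ D.KK := mem_closure_of_tendsto hq (Eventually.of_forall fun k => ⟨_, rfl⟩)
  by_cases h1 : p ∈ Set.range D.Th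
  · obtain ⟨a, rfl⟩ := h1
    have ha := D.tendsto_Ag x a hp
    have hx' : ∀ n, ∃ m, ∀ k, m ≤ k → D.Ag n (x' k) (x' m) := by
      intro n
      obtain ⟨l, hl⟩ := hc n
      obtain ⟨m, hm⟩ := ha l
      exact ⟨m, fun k hk => hl _ _ _ _ (hR k) (hR m) ((hm k hk).trans (hm m le_rfl).symm)⟩
    obtain ⟨a', ha'⟩ := exists_limit x' hx'
    have hq' := D.tendsto_of_Ag x' a' ha'
    left
    refine ⟨a, a', hcl x x' a a' hR ha ha', ?_⟩
    rw [tendsto_nhds_unique hq hq']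
  · by_cases h2 : q ∈ Set.range D.Th
    · obtain ⟨a', rfl⟩ := h2
      exfalso
      apply h1
      have ha := D.tendsto_Ag x' a' hq
      have hx' : ∀ n, ∃ m, ∀ k, m ≤ k → D.Ag n (x k) (x m) := by
        intro n
        obtain ⟨l, hl⟩ := hc' n
        obtain ⟨m, hm⟩ := ha l
        exact ⟨m, fun k hk => hl _ _ _ _ (hR k) (hR m) ((hm k hk).trans (hm m le_rfl).symm)⟩
      obtain ⟨b, hb⟩ := exists_limit x hx'
      exact ⟨b, (tendsto_nhds_unique hp (D.tendsto_of_Ag x b hb)).symm⟩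
    · right
      exact ⟨⟨hpK, h1⟩, ⟨hqK, h2⟩⟩

/-- prefix replacement relations -/
def R1 (D : Dat Y E) (n : ℕ) (u v : ℕ → Bool) (x y : Y) : Prop :=
  (∀ i, i < bd n → D.pi x i = u i) ∧ y = D.rep (bd n) v x

theorem R1_inv (D : Dat Y E) {n : ℕ} {u v : ℕ → Bool} {x y : Y} (h : D.R1 n u v x y) :
    x = D.rep (bd n) u y := by
  rw [h.2, D.rep_rep' le_rfl, ← D.rep_congr' x h.1, D.rep_pi']

theorem closure_R1 (D : Dat Y E) (n : ℕ) (u v : ℕ → Bool) :
    closure {p : (ℕ → ℝ) × (ℕ → ℝ) | ∃ x x', D.R1 n u v x x' ∧ p = (D.Th x, D.Th x')} ⊆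
      {p | ∃ x x', E x x' ∧ p = (D.Th x, D.Th x')} ∪ D.DD ×ˢ D.DD := by
  apply D.closure_rel
  · intro m
    obtain ⟨l, hl⟩ := D.rep_cont n v m
    refine ⟨l, fun x x' y y' h1 h2 h => ?_⟩
    rw [h1.2, h2.2]
    exact hl x y h
  · intro m
    obtain ⟨l, hl⟩ := D.rep_cont n u m
    refine ⟨l, fun x x' y y' h1 h2 h => ?_⟩
    rw [D.R1_inv h1, D.R1_inv h2]
    exact hl x' y' h
  · intro x x' a a' hR ha ha'
    have : a' = D.rep (bd n) v a := by
      apply eq_of_Ag (D := D)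
      intro m
      obtain ⟨l, hl⟩ := D.rep_cont n v m
      obtain ⟨m1, hm1⟩ := ha l
      obtain ⟨m2, hm2⟩ := ha' m
      have h1 := hl _ _ (hm1 (max m1 m2) (le_max_left _ _))
      have h2 := hm2 (max m1 m2) (le_max_right _ _)
      rw [(hR (max m1 m2)).2] at h2
      exact h2.symm.trans h1
    rw [this]
    exact D.rep_E' _ _ _

/-- graphs of the involutions on the finite part -/
def R2 (D : Dat Y E) (i n : ℕ) (x y : Y) : Prop := D.NZ n x ∧ D.NZ n y ∧ y = D.g i x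

theorem NZ_limit (D : Dat Y E) {n : ℕ} {x : ℕ → Y} {a : Y} (h : ∀ k, D.NZ n (x k))
    (ha : ∀ n, ∃ m, ∀ k, m ≤ k → D.Ag n (x k) a) : D.NZ n a := by
  intro b hb hz
  obtain ⟨m, hm⟩ := ha b
  exact h m b hb ((ZB_congr fun i hi => (hm m le_rfl).1 i hi).2 hz)

theorem Cp_inv (D : Dat Y E) {x y : Y} (h : E x y) (hx : D.Cp x) : D.Cp y := by
  intro hy
  exact hx (hy.tail (D.G3 y x (D.eqv.symm h) hy))

theorem closure_R2 (D : Dat Y E) (i n : ℕ) :
    closure {p : (ℕ → ℝ) × (ℕ → ℝ) | ∃ x x', D.R2 i n x x' ∧ p = (D.Th x, D.Th x')} ⊆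
      {p | ∃ x x', E x x' ∧ p = (D.Th x, D.Th x')} ∪ D.DD ×ˢ D.DD := by
  apply D.closure_rel
  · intro m
    obtain ⟨l, hl⟩ := D.g_cont i n m
    refine ⟨l, fun x x' y y' h1 h2 h => ?_⟩
    obtain ⟨h11, h12, rfl⟩ := h1
    obtain ⟨h21, h22, rfl⟩ := h2
    exact hl x y h11 h21 h12 h22 h
  · intro m
    obtain ⟨l, hl⟩ := D.g_cont i n m
    refine ⟨l, fun x x' y y' h1 h2 h => ?_⟩
    obtain ⟨h11, h12, rfl⟩ := h1
    obtain ⟨h21, h22, rfl⟩ := h2
    have := hl _ _ h12 h22 (by rw [D.ginv]; exact h11) (by rw [D.ginv]; exact h21) h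
    rwa [D.ginv, D.ginv] at this
  · intro x x' a a' hR ha ha'
    have hna : D.NZ n a := D.NZ_limit (fun k => (hR k).1) ha
    have hna' : D.NZ n a' := D.NZ_limit (fun k => (hR k).2.1) ha'
    have hCa : D.Cp a := D.Cp_of_not hna
    have hga : E a (D.g i a) := (D.gE _ _).2 ⟨i, rfl⟩
    have hCga : D.Cp (D.g i a) := D.Cp_inv hga hCa
    have hCa' : D.Cp a' := D.Cp_of_not hna'
    have : a' = D.g i a := by
      apply D.θinj _ _ hCa' hCga
      funext j
      obtain ⟨l, hl⟩ := D.θg i j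
      obtain ⟨m1, hm1⟩ := ha (max n (l + 1))
      obtain ⟨m2, hm2⟩ := ha' (max n (j + 1))
      set k := max m1 m2
      have e1 := (hm1 k (le_max_left _ _)).2 l (lt_of_lt_of_le (Nat.lt_succ_self l) (le_max_right _ _))
      have e2 := (hm2 k (le_max_right _ _)).2 j (lt_of_lt_of_le (Nat.lt_succ_self j) (le_max_right _ _))
      have w : ∀ (b N : ℕ) (z : Y), D.NZ b z → b ≤ N → D.ap N z = z :=
        fun b N z hz hb => D.ap_of_not fun c hc => hz c (hb.trans hc)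
      rw [w n _ _ (hR k).1 (le_max_left _ _), w n _ _ hna (le_max_left _ _)] at e1
      rw [w n _ _ (hR k).2.1 (le_max_left _ _), w n _ _ hna' (le_max_left _ _)] at e2
      rw [← e2, (hR k).2.2, hl _ (D.Cp_of_not (hR k).1), e1, ← hl _ hCa]
    rw [this]
    exact hga

theorem exists_NZ (D : Dat Y E) {x : Y} (h : D.Cp x) : ∃ n, D.NZ n x := by
  by_contra hcon
  apply h
  intro n
  by_contra h2
  apply hcon
  refine ⟨n, fun k h3 h4 => h2 ⟨k, h3, h4⟩⟩

theorem NZ.mono {D : Dat Y E} {m n : ℕ} (h : m ≤ n) {x : Y} (hx : D.NZ m x) : D.NZ n x :=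
  fun k hk => hx k (h.trans hk)

/-- every pair of equivalent points is in one of the relations -/
theorem cover (D : Dat Y E) {x y : Y} (h : E x y) :
    (∃ n u v, D.R1 n u v x y) ∨ ∃ i n, D.R2 i n x y := by
  by_cases hx : InfZ (D.pi x)
  · left
    obtain ⟨N, hN⟩ := D.G3 x y h hx
    have hpi : D.pi (D.rep (bd N) (D.pi y) x) = D.pi y := by
      rw [D.pi_rep']
      funext i
      by_cases h1 : i < bd N
      · rw [spl_lt _ _ h1]
      · rw [spl_ge _ _ (Nat.not_lt.1 h1), hN i ((le_bd N).trans (Nat.not_lt.1 h1))]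
    have hy : InfZ (D.pi (D.rep (bd N) (D.pi y) x)) := by
      rw [hpi]
      exact hx.tail ⟨N, hN⟩
    exact ⟨N, D.pi x, D.pi y, fun _ _ => rfl, (D.G1 _ _ hy hpi).symm⟩
  · right
    obtain ⟨i, hi⟩ := (D.gE x y).1 h
    obtain ⟨n1, hn1⟩ := D.exists_NZ hx
    obtain ⟨n2, hn2⟩ := D.exists_NZ (D.Cp_inv h hx)
    exact ⟨i, max n1 n2, hn1.mono (le_max_left _ _), hn2.mono (le_max_right _ _), hi.symm⟩

/-- the relation is a countable union of compact sets -/
theorem exists_compacts (D : Dat Y E) :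
    ∃ C : ℕ → Set ((ℕ → ℝ) × (ℕ → ℝ)), (∀ n, IsCompact (C n)) ∧ (∀ n, C n ⊆ D.KK ×ˢ D.KK) ∧
      (⋃ n, C n) = {p | ∃ x x', E x x' ∧ p = (D.Th x, D.Th x')} ∪ D.DD ×ˢ D.DD := by
  classical
  -- prefixes are coded by lists
  let ext : List Bool → ℕ → Bool := fun s i => s.getD i false
  have hcpt : ∀ R : Y → Y → Prop, IsCompact
      (closure {p : (ℕ → ℝ) × (ℕ → ℝ) | ∃ x x', R x x' ∧ p = (D.Th x, D.Th x')}) := by
    intro R
    refine (D.isCompact_KK.prod D.isCompact_KK).of_isClosed_subset isClosed_closure ?_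
    apply closure_minimal _ (D.isCompact_KK.isClosed.prod D.isCompact_KK.isClosed)
    rintro _ ⟨x, x', -, rfl⟩
    exact ⟨subset_closure ⟨x, rfl⟩, subset_closure ⟨x', rfl⟩⟩
  have hsub : ∀ R : Y → Y → Prop,
      closure {p : (ℕ → ℝ) × (ℕ → ℝ) | ∃ x x', R x x' ∧ p = (D.Th x, D.Th x')} ⊆ D.KK ×ˢ D.KK := by
    intro R
    apply closure_minimal _ (D.isCompact_KK.isClosed.prod D.isCompact_KK.isClosed)
    rintro _ ⟨x, x', -, rfl⟩
    exact ⟨subset_closure ⟨x, rfl⟩, subset_closure ⟨x', rfl⟩⟩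
  let I := (ℕ × List Bool × List Bool) ⊕ (ℕ × ℕ) ⊕ (D.DD × D.DD)
  haveI : Countable D.DD := D.countable_DD.to_subtype
  let C' : I → Set ((ℕ → ℝ) × (ℕ → ℝ)) := fun i =>
    match i with
    | Sum.inl (n, u, v) => closure {p | ∃ x x', D.R1 n (ext u) (ext v) x x' ∧ p = (D.Th x, D.Th x')}
    | Sum.inr (Sum.inl (i, n)) => closure {p | ∃ x x', D.R2 i n x x' ∧ p = (D.Th x, D.Th x')}
    | Sum.inr (Sum.inr (p, q)) => {((p : ℕ → ℝ), (q : ℕ → ℝ))}
  have hC1 : ∀ i, IsCompact (C' i) := by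
    rintro (⟨n, u, v⟩ | ⟨i, n⟩ | ⟨p, q⟩)
    · exact hcpt _
    · exact hcpt _
    · exact isCompact_singleton
  have hC2 : ∀ i, C' i ⊆ D.KK ×ˢ D.KK := by
    rintro (⟨n, u, v⟩ | ⟨i, n⟩ | ⟨p, q⟩)
    · exact hsub _
    · exact hsub _
    · rintro _ rfl
      exact ⟨p.2.1, q.2.1⟩
  have hC3 : (⋃ i, C' i) = {p | ∃ x x', E x x' ∧ p = (D.Th x, D.Th x')} ∪ D.DD ×ˢ D.DD := by
    apply Set.Subset.antisymm
    · refine Set.iUnion_subset ?_
      rintro (⟨n, u, v⟩ | ⟨i, n⟩ | ⟨p, q⟩)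
      · exact D.closure_R1 _ _ _
      · exact D.closure_R2 _ _
      · rintro _ rfl
        exact Or.inr ⟨p.2, q.2⟩
    · rintro ⟨p, q⟩ (⟨x, x', hE, hpq⟩ | ⟨hp, hq⟩)
      · rcases D.cover hE with ⟨n, u, v, h⟩ | ⟨i, n, h⟩
        · have hlist : ∀ w : ℕ → Bool, ∀ i, i < bd n → ext ((List.range (bd n)).map w) i = w i := by
            intro w i hi
            simp [ext, List.getD_eq_getElem?_getD, hi]
          refine Set.mem_iUnion.2 ⟨Sum.inl (n, (List.range (bd n)).map u, (List.range (bd n)).map v),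
            subset_closure ⟨x, x', ⟨fun i hi => ?_, ?_⟩, hpq⟩⟩
          · rw [hlist u i hi]
            exact h.1 i hi
          · rw [h.2]
            exact D.rep_congr' x fun i hi => (hlist v i hi).symm
        · exact Set.mem_iUnion.2 ⟨Sum.inr (Sum.inl (i, n)), subset_closure ⟨x, x', h, hpq⟩⟩
      · exact Set.mem_iUnion.2 ⟨Sum.inr (Sum.inr (⟨p, hp⟩, ⟨q, hq⟩)), rfl⟩
  haveI : Nonempty I := ⟨Sum.inr (Sum.inl (0, 0))⟩
  haveI : Countable I := inferInstance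
  obtain ⟨e, he⟩ := exists_surjective_nat I
  refine ⟨fun n => C' (e n), fun n => hC1 _, fun n => hC2 _, ?_⟩
  rw [← hC3]
  exact he.iUnion_comp C'

end Dat

end Pool.Agent.W_MP_daea50_h85
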