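import Pool.Agent.W_MP_daea50_h85.Defs

set_option autoImplicit false

/-!
# The data from which the compact space is built

`Cp` (the part with finitely many zero blocks) is `{y | ¬ InfZ (pi y)}`.
-/

namespace Pool.Agent.W_MP_daea50_h85

universe u

/-- the first index `n` with bit `bd n` true -/
noncomputable def uu (z : ℕ → Bool) : ℕ := sInf {n | z (bd n) = true}

/-- all the data on the space `Y` (the whole space minus one class) -/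
structure Dat (Y : Type u) [MeasurableSpace Y] (E : Y → Y → Prop) where
  eqv : Equivalence E
  pi : Y → ℕ → Bool
  rep : ℕ → (ℕ → Bool) → Y → Y
  hb : BitOn E Set.univ pi rep
  g : ℕ → Y → Y
  gm : ∀ n, Measurable (g n)
  ginv : ∀ n x, g n (g n x) = x
  gE : ∀ x y, E x y ↔ ∃ n, g n x = y
  G1 : ∀ x y, InfZ (pi x) → pi x = pi y → x = y
  G2 : ∀ z, InfZ z → ∃ x, pi x = z
  G3 : ∀ x y, E x y → InfZ (pi x) → Tail (pi x) (pi y)
  d : ℕ → Y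
  dF : ∀ j k, ¬ ZB (pi (d j)) k
  θ : Y → ℕ → ℕ
  θm : Measurable θ
  θinj : ∀ x y, ¬ InfZ (pi x) → ¬ InfZ (pi y) → θ x = θ y → x = y
  θcl : ∀ (x : ℕ → Y) (t : ℕ → ℕ), (∀ k, ¬ InfZ (pi (x k))) →
    (∀ j, ∀ᶠ k in Filter.atTop, θ (x k) j = t j) → ∃ y, ¬ InfZ (pi y) ∧ θ y = t
  θpi : ∀ i, ∃ l, ∀ x y, ¬ InfZ (pi x) → ¬ InfZ (pi y) → θ x l = θ y l → pi x i = pi y i
  θrep : ∀ n v m, ∃ l, ∀ x, ¬ InfZ (pi x) → θ (rep n v x) m = θ x l
  θg : ∀ n m, ∃ l, ∀ x, ¬ InfZ (pi x) → θ (g n x) m = θ x l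
  θu : ∃ l, ∀ x, ¬ InfZ (pi x) → θ x l = uu (pi x)
  dense : ∀ x, (∀ k, ¬ ZB (pi x) k) → ∀ m, ∃ j, ∀ i, i < m → θ (d j) i = θ x i

end Pool.Agent.W_MP_daea50_h85
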