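import Pool.Agent.W_MP_daea50_h85.Defs

set_option autoImplicit false

/-!
# GEa: Cantor scheme inside one non-discrete orbit (Glimm-Effros for countable group actions)

`g n` are homeomorphic involutions with `E x y ↔ ∃ n, g n x = y`, and the class of `x₀` has no isolated
point in its relative topology.  Then `E₀` (tail equality on `ℕ → Bool`) embeds in `E`.

Build by recursion open sets `U n` and indices `h n` (meaning the involution `g (h n)`, written `h_n`)
such that `U n` meets the class of `x₀`.  For `z : ℕ → Bool` let `H z 0 = id`,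
`H z (n+1) = H z n ∘ (if z n then h_n else id)`; `H z n` only depends on the first `n` bits of `z`
(finitely many maps; all are homeomorphisms, compositions of involutions `g _`, and move points
inside their `E`-class).  Conditions, for all `z`:
* `closure (U (n+1)) ⊆ U n` and `closure (h_n '' U (n+1)) ⊆ U n`;
* the sets `H z (n+1) '' U (n+1)` have diameter `≤ 2⁻ⁿ` (or: for all `a, b` in `U (n+1)`,
  `dist (H z (n+1) a) (H z (n+1) b) ≤ 2⁻ⁿ`);
* for all `z, w`, all `a, b ∈ U (n+1)` and `i ≤ n`:
  `H z n a ≠ g i (H w n (h_n b))` and `H z n a ≠ H w n (h_n b)`.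
Step: `U n` meets the class in infinitely many points (no isolated point).  Fix `y ∈ U n` in the class.
The set of all `y'` with `H z n y = g i (H w n y')` or `H z n y = H w n y'` for some `z, w`, `i ≤ n` is
finite, so there is `y' ∈ U n` in the class outside it; `y' = g m y` for some `m`: put `h_n = g m`.
All conditions hold at `a = b = y` as inequalities between continuous functions, hence (finitely many
conditions, Hausdorff metric space) on a small ball `U (n+1)` around `y`.
Then `ψ z` = the unique point of `⋂ n, H z n '' U n = ⋂ n, closure (H z n '' U n)` (nested closed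
nonempty sets with diameters tending to `0` in a complete space).
* `ψ` is continuous (points agreeing on the first `n+1` bits are sent in a set of diameter `2⁻ⁿ`).
* If `z, w` agree from `n` on then `ψ z = H z n ((H w n)⁻¹ (ψ w))`, so `E (ψ z) (ψ w)`.
* If `z n ≠ w n` then, `a := ((H z (n+1))⁻¹ (ψ z)) ∈ U (n+1)` etc., the third condition gives
  `ψ z ≠ ψ w` and `ψ z ≠ g i (ψ w)` (or with `z, w` exchanged) for all `i ≤ n`.  So `ψ` is injective, and
  if `z, w` differ at infinitely many places `ψ z, ψ w` are not `E`-equivalent.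
-/

namespace Pool.Agent.W_MP_daea50_h85

universe u

namespace GE

open Filter Topology

theorem exists_seq_step {α : Type*} (P : ℕ → α → Prop) (R : ℕ → α → α → Prop)
    (h0 : ∃ a, P 0 a) (hs : ∀ n a, P n a → ∃ b, P (n + 1) b ∧ R n a b) :
    ∃ s : ℕ → α, (∀ n, P n (s n)) ∧ ∀ n, R n (s n) (s (n + 1)) := by
  classical
  obtain ⟨a0, ha0⟩ := h0
  choose! g hg1 hg2 using hs
  let s : ℕ → α := fun n => Nat.rec a0 (fun k a => g k a) n
  have hP : ∀ n, P n (s n) := by
    intro n
    induction n with
    | zero => exact ha0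
    | succ k ih => exact hg1 k (s k) ih
  exact ⟨s, hP, fun n => hg2 n (s n) (hP n)⟩

variable {X : Type u} (g : ℕ → X → X)

/-- one factor -/
def kk (m : ℕ) (b : Bool) : X → X := if b then g m else id

/-- the composition coded by a list of indices (last one first) -/
def Hm : List ℕ → (ℕ → Bool) → X → X
  | [], _ => id
  | m :: L, z => Hm L z ∘ kk g m (z L.length)

/-- its inverse -/
def Hi : List ℕ → (ℕ → Bool) → X → X
  | [], _ => id
  | m :: L, z => kk g m (z L.length) ∘ Hi L z

variable {g}

theorem kk_kk (hinv : ∀ n x, g n (g n x) = x) (m : ℕ) (b : Bool) (x : X) :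
    kk g m b (kk g m b x) = x := by
  cases b
  · rfl
  · exact hinv m x

theorem Hm_Hi (hinv : ∀ n x, g n (g n x) = x) (L : List ℕ) (z : ℕ → Bool) (x : X) :
    Hm g L z (Hi g L z x) = x := by
  induction L generalizing x with
  | nil => rfl
  | cons m L ih =>
    show Hm g L z (kk g m _ (kk g m _ (Hi g L z x))) = x
    rw [kk_kk hinv, ih]

theorem Hi_Hm (hinv : ∀ n x, g n (g n x) = x) (L : List ℕ) (z : ℕ → Bool) (x : X) :
    Hi g L z (Hm g L z x) = x := by
  induction L generalizing x with
  | nil => rfl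
  | cons m L ih =>
    show kk g m _ (Hi g L z (Hm g L z (kk g m _ x))) = x
    rw [ih, kk_kk hinv]

theorem Hm_congr (L : List ℕ) {z w : ℕ → Bool} (h : ∀ i, i < L.length → z i = w i) :
    Hm g L z = Hm g L w := by
  induction L with
  | nil => rfl
  | cons m L ih =>
    have h1 : Hm g L z = Hm g L w := ih fun i hi => h i (by simp; omega)
    have h2 : z L.length = w L.length := h _ (by simp)
    show Hm g L z ∘ kk g m (z L.length) = Hm g L w ∘ kk g m (w L.length)
    rw [h1, h2]

theorem Hm_E {E : X → X → Prop} (hE : Equivalence E) (hgE : ∀ x y, E x y ↔ ∃ n, g n x = y)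
    (L : List ℕ) (z : ℕ → Bool) (x : X) : E x (Hm g L z x) := by
  induction L generalizing x with
  | nil => exact hE.refl x
  | cons m L ih =>
    refine hE.trans ?_ (ih (kk g m (z L.length) x))
    cases z L.length
    · exact hE.refl x
    · exact (hgE _ _).2 ⟨m, rfl⟩

theorem Hi_E {E : X → X → Prop} (hE : Equivalence E) (hgE : ∀ x y, E x y ↔ ∃ n, g n x = y)
    (hinv : ∀ n x, g n (g n x) = x) (L : List ℕ) (z : ℕ → Bool) (x : X) : E x (Hi g L z x) := by
  have := Hm_E hE hgE L z (Hi g L z x)
  rw [Hm_Hi hinv] at this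
  exact hE.symm this

variable [TopologicalSpace X]

theorem kk_cont (hg : ∀ n, Continuous (g n)) (m : ℕ) (b : Bool) : Continuous (kk g m b) := by
  cases b
  · exact continuous_id
  · exact hg m

theorem Hm_cont (hg : ∀ n, Continuous (g n)) (L : List ℕ) (z : ℕ → Bool) :
    Continuous (Hm g L z) := by
  induction L with
  | nil => exact continuous_id
  | cons m L ih => exact ih.comp (kk_cont hg _ _)

theorem Hi_cont (hg : ∀ n, Continuous (g n)) (L : List ℕ) (z : ℕ → Bool) :
    Continuous (Hi g L z) := by
  induction L with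
  | nil => exact continuous_id
  | cons m L ih => exact (kk_cont hg _ _).comp ih

theorem Hm_closed (hg : ∀ n, Continuous (g n)) (hinv : ∀ n x, g n (g n x) = x) (L : List ℕ)
    (z : ℕ → Bool) {S : Set X} (hS : IsClosed S) : IsClosed (Hm g L z '' S) := by
  have : Hm g L z '' S = Hi g L z ⁻¹' S := by
    ext x
    constructor
    · rintro ⟨a, ha, rfl⟩
      rw [Set.mem_preimage, Hi_Hm hinv]
      exact ha
    · intro hx
      exact ⟨_, hx, Hm_Hi hinv L z x⟩
  rw [this]
  exact hS.preimage (Hi_cont hg L z)

end GE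

open GE Filter Topology

theorem exists_embedding {X : Type u} [MetricSpace X] [CompleteSpace X]
    (E : X → X → Prop) (hE : Equivalence E) (g : ℕ → X → X) (hg : ∀ n, Continuous (g n))
    (hinv : ∀ n x, g n (g n x) = x) (hgE : ∀ x y, E x y ↔ ∃ n, g n x = y) (x₀ : X)
    (hx₀ : ∀ U : Set X, IsOpen U → ∀ y ∈ U, E x₀ y → ∃ z ∈ U, E x₀ z ∧ z ≠ y) :
    ∃ ψ : (ℕ → Bool) → X, Continuous ψ ∧ Function.Injective ψ ∧
      ∀ z w, E (ψ z) (ψ w) ↔ Tail z w := by
  classical
  -- points avoiding a finite set
  have havoid : ∀ U : Set X, IsOpen U → ∀ y ∈ U, E x₀ y → ∀ B : Set X, B.Finite →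
      ∃ z ∈ U, E x₀ z ∧ z ∉ B := by
    intro U hU y hy hEy B hB
    by_contra hcon
    push Not at hcon
    have hfin : (B \ {y}).Finite := hB.subset Set.diff_subset
    obtain ⟨z, hz, hEz, hne⟩ := hx₀ (U ∩ (B \ {y})ᶜ) (hU.inter hfin.isClosed.isOpen_compl) y
      ⟨hy, fun h => h.2 rfl⟩ hEy
    exact hz.2 ⟨hcon z hz.1 hEz, hne⟩
  let P : ℕ → List ℕ × Set X → Prop := fun n s =>
    s.1.length = n ∧ IsOpen s.2 ∧ ∃ y ∈ s.2, E x₀ y
  let R : ℕ → List ℕ × Set X → List ℕ × Set X → Prop := fun n s t =>
    ∃ m, t.1 = m :: s.1 ∧ closure t.2 ⊆ s.2 ∧ closure (g m '' t.2) ⊆ s.2 ∧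
      (∀ z : ℕ → Bool, ∀ a ∈ t.2, ∀ b ∈ t.2, dist (Hm g t.1 z a) (Hm g t.1 z b) ≤ (1 / 2) ^ n) ∧
      ∀ z w : ℕ → Bool, ∀ a ∈ t.2, ∀ b ∈ t.2,
        Hm g s.1 z a ≠ Hm g s.1 w (g m b) ∧ ∀ i, i ≤ n → Hm g s.1 z a ≠ g i (Hm g s.1 w (g m b))
  have h0 : ∃ s, P 0 s := ⟨([], Set.univ), rfl, isOpen_univ, x₀, trivial, hE.refl x₀⟩
  have hstep : ∀ n s, P n s → ∃ t, P (n + 1) t ∧ R n s t := by
    rintro n ⟨L, U⟩ ⟨hL, hU, y, hyU, hEy⟩
    simp only at hL hU hyU
    let ext : (k : ℕ) → (Fin k → Bool) → ℕ → Bool :=
      fun k s i => if h : i < k then s ⟨i, h⟩ else false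
    have hext : ∀ k (z : ℕ → Bool), ∀ i, i < k → z i = ext k (fun j => z j) i := by
      intro k z i hi
      simp [ext, hi]
    -- the bad points
    let B : Set X := (⋃ s : Fin n → Bool, ⋃ t : Fin n → Bool, {Hi g L (ext n t) (Hm g L (ext n s) y)}) ∪
      ⋃ s : Fin n → Bool, ⋃ t : Fin n → Bool, ⋃ i : Fin (n + 1),
        {Hi g L (ext n t) (g i (Hm g L (ext n s) y))}
    have hBfin : B.Finite := by
      refine Set.Finite.union ?_ ?_
      · exact Set.finite_iUnion fun s => Set.finite_iUnion fun t => Set.finite_singleton _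
      · exact Set.finite_iUnion fun s => Set.finite_iUnion fun t => Set.finite_iUnion fun i =>
          Set.finite_singleton _
    obtain ⟨y', hy'U, hEy', hy'B⟩ := havoid U hU y hyU hEy B hBfin
    obtain ⟨m, hm⟩ := (hgE y y').1 (hE.trans (hE.symm hEy) hEy')
    have hne1 : ∀ s t : Fin n → Bool, Hm g L (ext n s) y ≠ Hm g L (ext n t) (g m y) := by
      intro s t h
      apply hy'B
      left
      refine Set.mem_iUnion.2 ⟨s, Set.mem_iUnion.2 ⟨t, ?_⟩⟩
      rw [Set.mem_singleton_iff, h, Hi_Hm hinv, hm]
    have hne2 : ∀ (s t : Fin n → Bool) (i : Fin (n + 1)),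
        Hm g L (ext n s) y ≠ g i (Hm g L (ext n t) (g m y)) := by
      intro s t i h
      apply hy'B
      right
      refine Set.mem_iUnion.2 ⟨s, Set.mem_iUnion.2 ⟨t, Set.mem_iUnion.2 ⟨i, ?_⟩⟩⟩
      rw [Set.mem_singleton_iff, h, hinv, Hi_Hm hinv, hm]
    -- neighbourhood conditions
    have c1 : ∀ᶠ p in 𝓝 y ×ˢ 𝓝 y, ∀ s : Fin (n + 1) → Bool,
        dist (Hm g (m :: L) (ext (n + 1) s) p.1) (Hm g (m :: L) (ext (n + 1) s) p.2)
          < (1 / 2) ^ n := by
      rw [eventually_all]
      intro s
      have hc : Continuous fun p : X × X => dist (Hm g (m :: L) (ext (n + 1) s) p.1)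
          (Hm g (m :: L) (ext (n + 1) s) p.2) :=
        ((Hm_cont hg _ _).comp continuous_fst).dist ((Hm_cont hg _ _).comp continuous_snd)
      rw [← nhds_prod_eq]
      apply hc.continuousAt.eventually_lt continuousAt_const
      simp
    have c2 : ∀ᶠ p in 𝓝 y ×ˢ 𝓝 y, ∀ s t : Fin n → Bool,
        Hm g L (ext n s) p.1 ≠ Hm g L (ext n t) (g m p.2) := by
      rw [eventually_all]
      intro s
      rw [eventually_all]
      intro t
      rw [← nhds_prod_eq]
      have h1 : ContinuousAt (fun p : X × X => Hm g L (ext n s) p.1) (y, y) :=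
        ((Hm_cont hg _ _).comp continuous_fst).continuousAt
      have h2 : ContinuousAt (fun p : X × X => Hm g L (ext n t) (g m p.2)) (y, y) :=
        ((Hm_cont hg _ _).comp ((hg m).comp continuous_snd)).continuousAt
      exact (h1.ne_iff_eventually_ne h2).1 (hne1 s t)
    have c3 : ∀ᶠ p in 𝓝 y ×ˢ 𝓝 y, ∀ s t : Fin n → Bool, ∀ i : Fin (n + 1),
        Hm g L (ext n s) p.1 ≠ g i (Hm g L (ext n t) (g m p.2)) := by
      rw [eventually_all]
      intro s
      rw [eventually_all]
      intro t
      rw [eventually_all]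
      intro i
      rw [← nhds_prod_eq]
      have h1 : ContinuousAt (fun p : X × X => Hm g L (ext n s) p.1) (y, y) :=
        ((Hm_cont hg _ _).comp continuous_fst).continuousAt
      have h2 : ContinuousAt (fun p : X × X => g i (Hm g L (ext n t) (g m p.2))) (y, y) :=
        ((hg i).comp ((Hm_cont hg _ _).comp ((hg m).comp continuous_snd))).continuousAt
      exact (h1.ne_iff_eventually_ne h2).1 (hne2 s t i)
    obtain ⟨t, ht, htt⟩ := (eventually_prod_self_iff'.1 (c1.and (c2.and c3)))
    have hnb : t ∩ (U ∩ g m ⁻¹' U) ∈ 𝓝 y := by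
      refine inter_mem ht (inter_mem (hU.mem_nhds hyU) ((hU.preimage (hg m)).mem_nhds ?_))
      rw [Set.mem_preimage, hm]
      exact hy'U
    obtain ⟨r, hr, hball⟩ := Metric.nhds_basis_closedBall.mem_iff.1 hnb
    refine ⟨(m :: L, Metric.ball y r), ⟨by simp [hL], Metric.isOpen_ball, y,
      Metric.mem_ball_self hr, hEy⟩, m, rfl, ?_, ?_, ?_, ?_⟩
    · refine Metric.closure_ball_subset_closedBall.trans (hball.trans ?_)
      exact fun x hx => hx.2.1
    · have himg : g m '' Metric.closedBall y r = g m ⁻¹' Metric.closedBall y r := by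
        ext x
        constructor
        · rintro ⟨a, ha, rfl⟩
          rw [Set.mem_preimage, hinv]
          exact ha
        · intro hx
          exact ⟨_, hx, hinv m x⟩
      have hcl : IsClosed (g m '' Metric.closedBall y r) := by
        rw [himg]
        exact Metric.isClosed_closedBall.preimage (hg m)
      refine (closure_minimal (Set.image_mono Metric.ball_subset_closedBall) hcl).trans ?_
      rintro _ ⟨a, ha, rfl⟩
      exact (hball ha).2.2
    · intro z a ha b hb
      have h1 := (htt a (hball (Metric.ball_subset_closedBall ha)).1 b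
        (hball (Metric.ball_subset_closedBall hb)).1).1 (fun j => z j)
      have h2 : Hm g (m :: L) z = Hm g (m :: L) (ext (n + 1) fun j => z j) :=
        Hm_congr _ fun i hi => hext (n + 1) z i (by simpa [hL] using hi)
      show dist (Hm g (m :: L) z a) (Hm g (m :: L) z b) ≤ _
      rw [h2]
      exact h1.le
    · intro z w a ha b hb
      have h3 := (htt a (hball (Metric.ball_subset_closedBall ha)).1 b
        (hball (Metric.ball_subset_closedBall hb)).1).2
      have h2 : ∀ z : ℕ → Bool, Hm g L z = Hm g L (ext n fun j => z j) := fun z =>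
        Hm_congr _ fun i hi => hext n z i (by rwa [hL] at hi)
      constructor
      · show Hm g L z a ≠ Hm g L w (g m b)
        rw [h2 z, h2 w]
        exact h3.1 (fun j => z j) (fun j => w j)
      · intro i hi
        show Hm g L z a ≠ g i (Hm g L w (g m b))
        rw [h2 z, h2 w]
        exact h3.2 (fun j => z j) (fun j => w j) ⟨i, by omega⟩
  obtain ⟨s, hP, hR⟩ := exists_seq_step P R h0 hstep
  choose m hm1 hm2 hm3 hm4 hm5 using hR
  let H : ℕ → (ℕ → Bool) → X → X := fun n z => Hm g (s n).1 z
  let U : ℕ → Set X := fun n => (s n).2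
  have hlen : ∀ n, (s n).1.length = n := fun n => (hP n).1
  have hH : ∀ n z x, H (n + 1) z x = H n z (kk g (m n) (z n) x) := by
    intro n z x
    show Hm g (s (n + 1)).1 z x = _
    rw [hm1 n]
    show Hm g (s n).1 z (kk g (m n) (z (s n).1.length) x) = _
    rw [hlen n]
  let V : ℕ → (ℕ → Bool) → Set X := fun n z => H n z '' U n
  have hVcl : ∀ n z, closure (V (n + 1) z) ⊆ V n z := by
    intro n z
    have h1 : V (n + 1) z = H n z '' (kk g (m n) (z n) '' U (n + 1)) := by
      rw [← Set.image_comp]
      exact Set.image_congr fun x _ => hH n z x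
    rw [h1]
    have h2 : closure (kk g (m n) (z n) '' U (n + 1)) ⊆ U n := by
      cases z n
      · simpa [kk] using hm2 n
      · simpa [kk] using hm3 n
    refine (closure_minimal (Set.image_mono subset_closure)
      (Hm_closed hg hinv (s n).1 z isClosed_closure)).trans (Set.image_mono h2)
  have hVanti : ∀ z, Antitone fun n => V n z :=
    fun z => antitone_nat_of_succ_le fun n => subset_closure.trans (hVcl n z)
  have hVdist : ∀ n z, ∀ p ∈ V (n + 1) z, ∀ q ∈ V (n + 1) z, dist p q ≤ (1 / 2) ^ n := by
    rintro n z _ ⟨a, ha, rfl⟩ _ ⟨b, hb, rfl⟩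
    exact hm4 n z a ha b hb
  have hpow : Tendsto (fun n : ℕ => ((1 : ℝ) / 2) ^ n) atTop (𝓝 0) :=
    tendsto_pow_atTop_nhds_zero_of_lt_one (by norm_num) (by norm_num)
  have hex : ∀ z, ∃ p, ∀ n, p ∈ V n z := by
    intro z
    have hne : ∀ n, ∃ p, p ∈ V n z := by
      intro n
      obtain ⟨y, hy, -⟩ := (hP n).2.2
      exact ⟨_, y, hy, rfl⟩
    choose p hp using hne
    have hcau : CauchySeq fun n => p (n + 1) := by
      refine cauchySeq_of_le_tendsto_0' (fun n => ((1 : ℝ) / 2) ^ n) (fun n k hnk => ?_) hpow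
      exact hVdist n z _ (hp _) _ (hVanti z (by omega) (hp _))
    obtain ⟨q, hq⟩ := cauchySeq_tendsto_of_complete hcau
    refine ⟨q, fun n => hVcl n z ?_⟩
    refine mem_closure_of_tendsto hq ?_
    filter_upwards [eventually_ge_atTop n] with k hk
    exact hVanti z (by omega) (hp (k + 1))
  have huniq : ∀ z p q, (∀ n, p ∈ V n z) → (∀ n, q ∈ V n z) → p = q := by
    intro z p q hp hq
    apply dist_le_zero.1
    refine ge_of_tendsto' hpow fun n => ?_
    exact hVdist n z p (hp _) q (hq _)
  choose ψ hψ using hex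
  refine ⟨ψ, ?_, ?_, ?_⟩
  · rw [continuous_iff_continuousAt]
    intro z
    rw [Metric.continuousAt_iff']
    intro ε hε
    obtain ⟨n, hn⟩ := ((tendsto_order.1 hpow).2 ε hε).exists
    have hopen : IsOpen {w : ℕ → Bool | ∀ i ∈ Finset.range (n + 1), w i = z i} := by
      have : {w : ℕ → Bool | ∀ i ∈ Finset.range (n + 1), w i = z i}
          = ⋂ i ∈ Finset.range (n + 1), {w | w i = z i} := by
        ext w; simp
      rw [this]
      refine isOpen_biInter_finset fun i _ => ?_
      exact IsOpen.preimage (f := fun w : ℕ → Bool => w i) (continuous_apply i) (isOpen_discrete {z i})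
    filter_upwards [hopen.mem_nhds (by simp)] with w hw
    refine lt_of_le_of_lt (hVdist n z _ ?_ _ (hψ z (n + 1))) hn
    have h1 := hψ w (n + 1)
    have h2 : H (n + 1) w = H (n + 1) z :=
      Hm_congr _ fun i hi => hw i (Finset.mem_range.2 (by rwa [hlen] at hi))
    have h3 : V (n + 1) w = V (n + 1) z := by
      show H (n + 1) w '' _ = H (n + 1) z '' _
      rw [h2]
    rwa [h3] at h1
  · intro z w hzw
    by_contra hne
    obtain ⟨n, hn⟩ : ∃ n, z n ≠ w n := by
      by_contra hcon
      push Not at hcon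
      exact hne (funext hcon)
    obtain ⟨a, ha, haz⟩ := hψ z (n + 1)
    obtain ⟨b, hb, hbw⟩ := hψ w (n + 1)
    rw [hH] at haz hbw
    cases hzn : z n
    · have hwn : w n = true := by
        cases h : w n
        · exact absurd (hzn.trans h.symm) hn
        · rfl
      rw [hzn] at haz
      rw [hwn] at hbw
      exact (hm5 n z w a ha b hb).1 (haz.trans (hzw.trans hbw.symm))
    · have hwn : w n = false := by
        cases h : w n
        · rfl
        · exact absurd (hzn.trans h.symm) hn
      rw [hzn] at haz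
      rw [hwn] at hbw
      exact (hm5 n w z b hb a ha).1 (hbw.trans (hzw.symm.trans haz.symm))
  · intro z w
    constructor
    · intro hEzw
      by_contra hnt
      obtain ⟨i, hi⟩ := (hgE _ _).1 hEzw
      have hi' : g i (ψ w) = ψ z := by rw [← hi, hinv]
      obtain ⟨n, hin, hn⟩ : ∃ n, i ≤ n ∧ z n ≠ w n := by
        by_contra hcon
        push Not at hcon
        exact hnt ⟨i, hcon⟩
      obtain ⟨a, ha, haz⟩ := hψ z (n + 1)
      obtain ⟨b, hb, hbw⟩ := hψ w (n + 1)
      rw [hH] at haz hbw
      cases hzn : z n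
      · have hwn : w n = true := by
          cases h : w n
          · exact absurd (hzn.trans h.symm) hn
          · rfl
        rw [hzn] at haz
        rw [hwn] at hbw
        refine (hm5 n z w a ha b hb).2 i hin ?_
        show H n z a = g i (H n w (g (m n) b))
        have h1 : H n z a = ψ z := haz
        have h2 : H n w (g (m n) b) = ψ w := hbw
        rw [h1, h2, hi']
      · have hwn : w n = false := by
          cases h : w n
          · rfl
          · exact absurd (hzn.trans h.symm) hn
        rw [hzn] at haz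
        rw [hwn] at hbw
        refine (hm5 n w z b hb a ha).2 i hin ?_
        show H n w b = g i (H n z (g (m n) a))
        have h1 : H n z (g (m n) a) = ψ z := haz
        have h2 : H n w b = ψ w := hbw
        rw [h1, h2, hi]
    · rintro ⟨n, hn⟩
      have key : ∀ k, n ≤ k → ∀ a, H k z a = H n z (Hi g (s n).1 w (H k w a)) := by
        intro k hk
        induction k, hk using Nat.le_induction with
        | base =>
          intro a
          show _ = H n z (Hi g (s n).1 w (Hm g (s n).1 w a))
          rw [Hi_Hm hinv]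
        | succ k hk ih =>
          intro a
          rw [hH, hH, hn k hk, ih]
      have hlim : ψ z = H n z (Hi g (s n).1 w (ψ w)) := by
        apply huniq z _ _ (hψ z)
        have h1 : ∀ k, n ≤ k → H n z (Hi g (s n).1 w (ψ w)) ∈ V k z := by
          intro k hk
          obtain ⟨a, ha, haw⟩ := hψ w k
          refine ⟨a, ha, ?_⟩
          rw [key k hk a, haw]
        intro k
        rcases le_total n k with h | h
        · exact h1 k h
        · exact hVanti z h (h1 n le_rfl)
      rw [hlim]
      refine hE.symm (hE.trans (Hi_E hE hgE hinv (s n).1 w (ψ w)) ?_)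
      exact Hm_E hE hgE (s n).1 z _

end Pool.Agent.W_MP_daea50_h85
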