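import Pool.Agent.W_MP_daea50_h85.Defs

set_option autoImplicit false

/-!
# Good: Borel subsets of the Baire space are injective projections of closed sets

Call `A` good if the conclusion holds.  Let `m'` be the σ-algebra of all `A` such that `A` and `Aᶜ` are
good.  Closed sets are good (`S = A × {0}`).  Countable intersections of good sets are good:
`S = {p | ∀ n, (p.1, fun k => p.2 (Nat.pair n k)) ∈ S n}` (for nonempty index `ℕ`; `p.2` is determined by
`p.1`).  Countable disjoint unions of good sets are good:
`S = {p | (p.1, fun k => p.2 (k+1)) ∈ S (p.2 0)}` `= ⋂ n, {p | p.2 0 ≠ n} ∪ {p | (p.1, shift p.2) ∈ S n}`.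
Countable unions of sets of `m'`: `⋃ A n` is the disjoint union of `A n ∩ ⋂_{i<n} (A i)ᶜ`, and the complement
is `⋂ (A n)ᶜ`.  Finally `MeasurableSpace.pi ≤ m'`: the sets `{x | x i ∈ s}` are clopen.
-/

namespace Pool.Agent.W_MP_daea50_h85

/-- the conclusion of `good_of_measurable` -/
def GoodSet (A : Set (ℕ → ℕ)) : Prop :=
  ∃ S : Set ((ℕ → ℕ) × (ℕ → ℕ)), IsClosed S ∧ Set.InjOn Prod.fst S ∧ Prod.fst '' S = A

theorem goodSet_closed {A : Set (ℕ → ℕ)} (hA : IsClosed A) : GoodSet A := by
  refine ⟨A ×ˢ {0}, hA.prod isClosed_singleton, ?_, ?_⟩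
  · rintro ⟨x, y⟩ ⟨_, hy⟩ ⟨x', y'⟩ ⟨_, hy'⟩ h
    have h1 : y = 0 := hy
    have h2 : y' = 0 := hy'
    have h3 : x = x' := h
    rw [h1, h2, h3]
  · ext x
    constructor
    · rintro ⟨⟨a, b⟩, ⟨ha, _⟩, rfl⟩
      exact ha
    · intro hx
      exact ⟨(x, 0), ⟨hx, rfl⟩, rfl⟩

theorem goodSet_iInter {A : ℕ → Set (ℕ → ℕ)} (hA : ∀ n, GoodSet (A n)) :
    GoodSet (⋂ n, A n) := by
  choose S hS hinj him using hA
  refine ⟨{p | ∀ n, (p.1, fun k => p.2 (Nat.pair n k)) ∈ S n}, ?_, ?_, ?_⟩
  · rw [Set.ofPred_forall]
    refine isClosed_iInter fun n => (hS n).preimage ?_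
    exact continuous_fst.prodMk
      (continuous_pi fun k => (continuous_apply (Nat.pair n k)).comp continuous_snd)
  · rintro ⟨x, y⟩ hp ⟨x', y'⟩ hq h
    have h3 : x = x' := h
    subst h3
    have : y = y' := by
      funext j
      have h1 := hinj (Nat.unpair j).1 (hp (Nat.unpair j).1) (hq (Nat.unpair j).1) rfl
      have h2 := congrFun (congrArg Prod.snd h1) (Nat.unpair j).2
      simpa using h2
    rw [this]
  · ext x
    simp only [Set.mem_iInter]
    constructor
    · rintro ⟨⟨a, b⟩, hp, rfl⟩ n
      rw [← him n]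
      exact ⟨_, hp n, rfl⟩
    · intro hx
      have h0 : ∀ n, ∃ y, (x, y) ∈ S n := by
        intro n
        have h1 := hx n
        rw [← him n] at h1
        obtain ⟨⟨a, b⟩, h, rfl⟩ := h1
        exact ⟨b, h⟩
      choose y hy using h0
      refine ⟨(x, fun j => y (Nat.unpair j).1 (Nat.unpair j).2), ?_, rfl⟩
      intro n
      simpa using hy n

theorem goodSet_iUnion_disj {A : ℕ → Set (ℕ → ℕ)} (hA : ∀ n, GoodSet (A n))
    (hd : ∀ i j x, x ∈ A i → x ∈ A j → i = j) : GoodSet (⋃ n, A n) := by
  choose S hS hinj him using hA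
  have hmem : ∀ n x y, (x, y) ∈ S n → x ∈ A n := by
    intro n x y h
    rw [← him n]
    exact ⟨_, h, rfl⟩
  refine ⟨{p | (p.1, fun k => p.2 (k + 1)) ∈ S (p.2 0)}, ?_, ?_, ?_⟩
  · have h0 : {p : (ℕ → ℕ) × (ℕ → ℕ) | (p.1, fun k => p.2 (k + 1)) ∈ S (p.2 0)}
        = ⋂ n, ({p | ¬ p.2 0 = n} ∪ {p | (p.1, fun k => p.2 (k + 1)) ∈ S n}) := by
      ext p
      simp only [Set.mem_ofPred_eq, Set.mem_iInter, Set.mem_union]
      constructor
      · intro h n
        by_cases hn : p.2 0 = n
        · right
          rw [← hn]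
          exact h
        · left
          exact hn
      · intro h
        rcases h (p.2 0) with h | h
        · exact absurd rfl h
        · exact h
    rw [h0]
    refine isClosed_iInter fun n => IsClosed.union ?_ ((hS n).preimage ?_)
    · have hc : Continuous (fun p : (ℕ → ℕ) × (ℕ → ℕ) => p.2 0) :=
        (continuous_apply 0).comp continuous_snd
      exact (isClosed_discrete {m : ℕ | ¬ m = n}).preimage hc
    · exact continuous_fst.prodMk
        (continuous_pi fun k => (continuous_apply (k + 1)).comp continuous_snd)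
  · rintro ⟨x, y⟩ hp ⟨x', y'⟩ hq h
    have h3 : x = x' := h
    subst h3
    have hp' : (x, fun k => y (k + 1)) ∈ S (y 0) := hp
    have hq' : (x, fun k => y' (k + 1)) ∈ S (y' 0) := hq
    have h4 : y 0 = y' 0 := hd _ _ x (hmem _ _ _ hp') (hmem _ _ _ hq')
    rw [← h4] at hq'
    have h5 := hinj (y 0) hp' hq' rfl
    have : y = y' := by
      funext j
      rcases j with _ | j
      · exact h4
      · exact congrFun (congrArg Prod.snd h5) j
    rw [this]
  · ext x
    simp only [Set.mem_iUnion]
    constructor
    · rintro ⟨⟨a, b⟩, hp, rfl⟩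
      exact ⟨b 0, hmem _ _ _ hp⟩
    · rintro ⟨n, hx⟩
      rw [← him n] at hx
      obtain ⟨⟨a, b⟩, h, rfl⟩ := hx
      refine ⟨(a, fun j => Nat.casesOn j n b), ?_, rfl⟩
      exact h

/-- sets which are good together with their complement -/
@[instance_reducible] def goodMS : MeasurableSpace (ℕ → ℕ) where
  MeasurableSet' A := GoodSet A ∧ GoodSet Aᶜ
  measurableSet_empty := ⟨goodSet_closed isClosed_empty, by
    rw [Set.compl_empty]
    exact goodSet_closed isClosed_univ⟩
  measurableSet_compl A h := ⟨h.2, by
    rw [compl_compl]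
    exact h.1⟩
  measurableSet_iUnion f hf := by
    classical
    refine ⟨?_, ?_⟩
    · have h0 : (⋃ n, f n) = ⋃ n, ⋂ i, (if i = n then f n else if i < n then (f i)ᶜ else Set.univ) := by
        ext x
        simp only [Set.mem_iUnion, Set.mem_iInter]
        constructor
        · intro h
          refine ⟨Nat.find h, fun i => ?_⟩
          by_cases h1 : i = Nat.find h
          · rw [if_pos h1]
            exact Nat.find_spec h
          · rw [if_neg h1]
            by_cases h2 : i < Nat.find h
            · rw [if_pos h2]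
              exact Nat.find_min h h2
            · rw [if_neg h2]
              trivial
        · rintro ⟨n, h⟩
          have h1 := h n
          rw [if_pos rfl] at h1
          exact ⟨n, h1⟩
      rw [h0]
      refine goodSet_iUnion_disj (fun n => goodSet_iInter fun i => ?_) ?_
      · by_cases h1 : i = n
        · rw [if_pos h1]
          exact (hf n).1
        · rw [if_neg h1]
          by_cases h2 : i < n
          · rw [if_pos h2]
            exact (hf i).2
          · rw [if_neg h2]
            exact goodSet_closed isClosed_univ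
      · have key : ∀ i j x, i < j →
            x ∈ (⋂ k, (if k = i then f i else if k < i then (f k)ᶜ else Set.univ)) →
            x ∈ (⋂ k, (if k = j then f j else if k < j then (f k)ᶜ else Set.univ)) → False := by
          intro i j x hij h1 h2
          have h3 := Set.mem_iInter.1 h1 i
          have h4 := Set.mem_iInter.1 h2 i
          rw [if_pos rfl] at h3
          rw [if_neg (ne_of_lt hij), if_pos hij] at h4
          exact h4 h3
        intro i j x h1 h2
        rcases lt_trichotomy i j with h | h | h
        · exact (key i j x h h1 h2).elim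
        · exact h
        · exact (key j i x h h2 h1).elim
    · rw [Set.compl_iUnion]
      exact goodSet_iInter fun n => (hf n).2

theorem good_of_measurable (A : Set (ℕ → ℕ)) (hA : MeasurableSet A) :
    ∃ S : Set ((ℕ → ℕ) × (ℕ → ℕ)), IsClosed S ∧ Set.InjOn Prod.fst S ∧ Prod.fst '' S = A := by
  have hle : (MeasurableSpace.pi : MeasurableSpace (ℕ → ℕ)) ≤ goodMS := by
    refine iSup_le fun i => ?_
    rintro B ⟨s, _, rfl⟩
    refine ⟨goodSet_closed ?_, goodSet_closed ?_⟩
    · exact (isClosed_discrete s).preimage (continuous_apply i)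
    · have h := (isClosed_discrete sᶜ).preimage (continuous_apply (A := fun _ : ℕ => ℕ) i)
      exact h
  exact (hle A hA).1

end Pool.Agent.W_MP_daea50_h85
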