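import Pool.Agent.W_MP_daea50_h85.Defs

set_option autoImplicit false

/-!
# MTa: nested greedy matchings

One step: for a Borel set `T` define `V 0 = T`, `V (m+1) = V m \ {x | x ∈ V m, g m x ∈ V m, g m x ≠ x}`,
and `κ x = g m x` if `x ∈ V m \ V (m+1)` (unique `m`), `κ x = x` otherwise.  As `g m` is an involution,
`κ` is an involution without fixed point of `T \ L`, `L = ⋂ m, V m`; `κ` is Borel and moves points inside
their class.  Two different equivalent points `x, y = g m x` of `L` would both be in `V m` and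
`g m x ≠ x`, so `x ∉ V (m+1)`: hence `L` meets every class in at most one point.  Let
`T' = {x ∈ T \ L | c x < c (κ x)}` for a Borel injection `c : X → ℝ`
(`MeasureTheory.measurableEmbedding_real` / `embeddingReal`): for `x ∈ T \ L` exactly one of `x, κ x` is in
`T'`.
Iterate: `T 0 = univ`, `T (n+1) = (T n)'`, with `κ n`, `L n`.  Let `Z` be the set of `x` whose class
meets no `L n` (`Z` is Borel and invariant: `x ∈ Z ↔ ∀ n m, g m x ∉ L n`).  Output `T n ∩ Z`, `ι n = κ n`.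
Transversal of the complement of `Z`: for `x ∉ Z` let `n(x)` be the least `n` such that the class of `x`
meets `L n`; `S = {x ∉ Z | x ∈ L (n(x))}`.
-/

namespace Pool.Agent.W_MP_daea50_h85

universe u

namespace MTaAux

variable {X : Type u}

/-- the sets `V m` -/
def V (g : ℕ → X → X) (T : Set X) : ℕ → Set X
  | 0 => T
  | m + 1 => {x | x ∈ V g T m ∧ ¬ (g m x ∈ V g T m ∧ g m x ≠ x)}

/-- `x` is matched at stage `m` -/
def Q (g : ℕ → X → X) (T : Set X) (m : ℕ) : Set X :=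
  {x | x ∈ V g T m ∧ g m x ∈ V g T m ∧ g m x ≠ x}

/-- the matching -/
noncomputable def kap (g : ℕ → X → X) (T : Set X) (x : X) : X :=
  open Classical in if h : ∃ m, x ∈ Q g T m then g h.choose x else x

/-- the unmatched points -/
def L (g : ℕ → X → X) (T : Set X) : Set X := {x | x ∈ T ∧ ∀ m, x ∉ Q g T m}

/-- the next set -/
def nxt (c : X → ℝ) (g : ℕ → X → X) (T : Set X) : Set X :=
  {x | x ∈ T ∧ x ∉ L g T ∧ c x < c (kap g T x)}

theorem V_anti (g : ℕ → X → X) (T : Set X) {m k : ℕ} (h : m ≤ k) : V g T k ⊆ V g T m := by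
  induction k, h using Nat.le_induction with
  | base => exact subset_rfl
  | succ k _ ih => exact fun x hx => ih hx.1

theorem V_sub (g : ℕ → X → X) (T : Set X) (m : ℕ) : V g T m ⊆ T := V_anti g T (Nat.zero_le m)

theorem Q_unique (g : ℕ → X → X) (T : Set X) {m k : ℕ} {x : X} (h : x ∈ Q g T m)
    (h' : x ∈ Q g T k) : m = k := by
  by_contra hne
  rcases Nat.lt_or_gt_of_ne hne with h1 | h1
  · exact (V_anti g T (Nat.succ_le_of_lt h1) h'.1).2 ⟨h.2.1, h.2.2⟩
  · exact (V_anti g T (Nat.succ_le_of_lt h1) h.1).2 ⟨h'.2.1, h'.2.2⟩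

theorem kap_of_Q (g : ℕ → X → X) (T : Set X) {m : ℕ} {x : X} (h : x ∈ Q g T m) :
    kap g T x = g m x := by
  have h1 : ∃ m, x ∈ Q g T m := ⟨m, h⟩
  unfold kap
  rw [dif_pos h1, Q_unique g T h1.choose_spec h]

theorem kap_of_not (g : ℕ → X → X) (T : Set X) {x : X} (h : ∀ m, x ∉ Q g T m) :
    kap g T x = x := by
  unfold kap
  rw [dif_neg (by simpa using h)]

theorem Q_symm {g : ℕ → X → X} (hinv : ∀ n x, g n (g n x) = x) (T : Set X) {m : ℕ} {x : X}
    (h : x ∈ Q g T m) : g m x ∈ Q g T m :=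
  ⟨h.2.1, by rw [hinv]; exact h.1, by rw [hinv]; exact h.2.2.symm⟩

theorem exists_Q {g : ℕ → X → X} {T : Set X} {x : X} (hx : x ∈ T) (hL : x ∉ L g T) :
    ∃ m, x ∈ Q g T m := by
  by_contra h
  push Not at h
  exact hL ⟨hx, h⟩

theorem mem_V_of_L {g : ℕ → X → X} {T : Set X} {x : X} (hx : x ∈ L g T) (m : ℕ) :
    x ∈ V g T m := by
  induction m with
  | zero => exact hx.1
  | succ m ih => exact ⟨ih, fun h => hx.2 m ⟨ih, h.1, h.2⟩⟩

theorem L_unique {E : X → X → Prop} {g : ℕ → X → X} (hgE : ∀ x y, E x y ↔ ∃ n, g n x = y)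
    {T : Set X} {x y : X} (hx : x ∈ L g T) (hy : y ∈ L g T) (hxy : E x y) : x = y := by
  obtain ⟨n, hn⟩ := (hgE x y).1 hxy
  by_contra hne
  exact hx.2 n ⟨mem_V_of_L hx n, by rw [hn]; exact mem_V_of_L hy n,
    by rw [hn]; exact fun h => hne h.symm⟩

theorem kap_props {E : X → X → Prop} {g : ℕ → X → X} (hinv : ∀ n x, g n (g n x) = x)
    (hgE : ∀ x y, E x y ↔ ∃ n, g n x = y) {T : Set X} {x : X} (hx : x ∈ T) (hL : x ∉ L g T) :
    kap g T x ∈ T ∧ kap g T x ∉ L g T ∧ kap g T (kap g T x) = x ∧ E x (kap g T x) ∧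
      kap g T x ≠ x := by
  obtain ⟨m, hm⟩ := exists_Q hx hL
  have h1 := Q_symm hinv T hm
  rw [kap_of_Q g T hm, kap_of_Q g T h1, hinv]
  exact ⟨V_sub g T m h1.1, fun h => h.2 m h1, rfl, (hgE _ _).2 ⟨m, rfl⟩, hm.2.2⟩

theorem nxt_iff {E : X → X → Prop} {g : ℕ → X → X} (hinv : ∀ n x, g n (g n x) = x)
    (hgE : ∀ x y, E x y ↔ ∃ n, g n x = y) {c : X → ℝ} (hc : Function.Injective c) {T : Set X}
    {x : X} (hx : x ∈ T) (hL : x ∉ L g T) : kap g T x ∈ nxt c g T ↔ x ∉ nxt c g T := by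
  obtain ⟨h1, h2, h3, _, h5⟩ := kap_props (E := E) hinv hgE hx hL
  have hne : c (kap g T x) ≠ c x := fun h => h5 (hc h)
  constructor
  · rintro ⟨_, _, h6⟩ ⟨_, _, h7⟩
    rw [h3] at h6
    exact lt_asymm h6 h7
  · intro h6
    refine ⟨h1, h2, ?_⟩
    rw [h3]
    rcases lt_trichotomy (c x) (c (kap g T x)) with h7 | h7 | h7
    · exact absurd ⟨hx, hL, h7⟩ h6
    · exact absurd h7.symm hne
    · exact h7

section meas

variable [MeasurableSpace X] {g : ℕ → X → X} (hg : ∀ n, Measurable (g n)) {c : X → ℝ}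
  (hcm : Measurable c) (hc : Function.Injective c) {T : Set X} (hT : MeasurableSet T)

include hg hcm hc

theorem ne_meas (m : ℕ) : MeasurableSet {x | g m x ≠ x} := by
  have h : {x | g m x ≠ x} = {x | c (g m x) = c x}ᶜ := by
    ext x
    simp only [Set.mem_ofPred_eq, Set.mem_compl_iff]
    exact not_congr ⟨fun h => by rw [h], fun h => hc h⟩
  rw [h]
  exact (measurableSet_eq_fun (hcm.comp (hg m)) hcm).compl

include hT

theorem V_meas (m : ℕ) : MeasurableSet (V g T m) := by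
  induction m with
  | zero => exact hT
  | succ m ih => exact ih.inter (((hg m) ih).inter (ne_meas hg hcm hc m)).compl

theorem Q_meas (m : ℕ) : MeasurableSet (Q g T m) :=
  (V_meas hg hcm hc hT m).inter
    (((hg m) (V_meas hg hcm hc hT m)).inter (ne_meas hg hcm hc m))

theorem L_meas : MeasurableSet (L g T) := by
  have h : L g T = T ∩ ⋂ m, (Q g T m)ᶜ := by
    ext x
    simp [L]
  rw [h]
  exact hT.inter (MeasurableSet.iInter fun m => (Q_meas hg hcm hc hT m).compl)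

theorem kap_meas : Measurable (kap g T) := by
  intro B hB
  have h : kap g T ⁻¹' B = (⋃ m, Q g T m ∩ (g m) ⁻¹' B) ∪ ((⋂ m, (Q g T m)ᶜ) ∩ B) := by
    ext x
    simp only [Set.mem_preimage, Set.mem_union, Set.mem_iUnion, Set.mem_inter_iff, Set.mem_iInter,
      Set.mem_compl_iff]
    constructor
    · intro hx
      by_cases h1 : ∃ m, x ∈ Q g T m
      · obtain ⟨m, hm⟩ := h1
        rw [kap_of_Q g T hm] at hx
        exact Or.inl ⟨m, hm, hx⟩
      · push Not at h1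
        rw [kap_of_not g T h1] at hx
        exact Or.inr ⟨h1, hx⟩
    · rintro (⟨m, hm, hx⟩ | ⟨h1, hx⟩)
      · rw [kap_of_Q g T hm]
        exact hx
      · rw [kap_of_not g T h1]
        exact hx
  rw [h]
  exact (MeasurableSet.iUnion fun m => (Q_meas hg hcm hc hT m).inter ((hg m) hB)).union
    ((MeasurableSet.iInter fun m => (Q_meas hg hcm hc hT m).compl).inter hB)

theorem nxt_meas : MeasurableSet (nxt c g T) :=
  hT.inter ((L_meas hg hcm hc hT).compl.inter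
    (measurableSet_lt hcm (hcm.comp (kap_meas hg hcm hc hT))))

end meas

/-- the iteration -/
def TT (c : X → ℝ) (g : ℕ → X → X) : ℕ → Set X
  | 0 => Set.univ
  | n + 1 => nxt c g (TT c g n)

end MTaAux

open MTaAux in
theorem exists_matchings {X : Type u} [MeasurableSpace X] [StandardBorelSpace X]
    (E : X → X → Prop) (hE : Equivalence E) (g : ℕ → X → X) (hg : ∀ n, Measurable (g n))
    (hinv : ∀ n x, g n (g n x) = x) (hgE : ∀ x y, E x y ↔ ∃ n, g n x = y) :
    ∃ (Z : Set X) (T : ℕ → Set X) (ι : ℕ → X → X),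
      MeasurableSet Z ∧ (∀ x y, x ∈ Z → E x y → y ∈ Z) ∧
      (∀ n, MeasurableSet (T n)) ∧ (∀ n, Measurable (ι n)) ∧ T 0 = Z ∧ (∀ n, T (n + 1) ⊆ T n) ∧
      (∀ n, ∀ x ∈ T n, ι n x ∈ T n ∧ ι n (ι n x) = x ∧ E x (ι n x) ∧
        (ι n x ∈ T (n + 1) ↔ x ∉ T (n + 1))) ∧
      ∃ S : Set X, MeasurableSet S ∧ S ⊆ Zᶜ ∧ ∀ x ∈ Zᶜ, ∃! y, y ∈ S ∧ E x y := by
  classical
  obtain ⟨c, hce⟩ : ∃ c : X → ℝ, MeasurableEmbedding c :=
    ⟨_, MeasureTheory.measurableEmbedding_embeddingReal X⟩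
  have hcm : Measurable c := hce.measurable
  have hc : Function.Injective c := hce.injective
  have hTm : ∀ n, MeasurableSet (TT c g n) := by
    intro n
    induction n with
    | zero => exact MeasurableSet.univ
    | succ n ih => exact nxt_meas hg hcm hc ih
  have hLm : ∀ n, MeasurableSet (L g (TT c g n)) := fun n => L_meas hg hcm hc (hTm n)
  have hrefl : ∀ x, ∃ m, g m x = x := fun x => (hgE x x).1 (hE.refl x)
  let Z : Set X := {x | ∀ n m, g m x ∉ L g (TT c g n)}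
  have hZm : MeasurableSet Z := by
    have h : Z = ⋂ n, ⋂ m, ((g m) ⁻¹' (L g (TT c g n)))ᶜ := by
      ext x
      simp [Z]
    rw [h]
    exact MeasurableSet.iInter fun n => MeasurableSet.iInter fun m => ((hg m) (hLm n)).compl
  have hcls : ∀ x y, E x y → ∀ n, (∃ m, g m y ∈ L g (TT c g n)) → ∃ m, g m x ∈ L g (TT c g n) := by
    rintro x y hxy n ⟨m, hm⟩
    obtain ⟨k, hk⟩ := (hgE x (g m y)).1 (hE.trans hxy ((hgE _ _).2 ⟨m, rfl⟩))
    exact ⟨k, by rw [hk]; exact hm⟩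
  have hZinv : ∀ x y, x ∈ Z → E x y → y ∈ Z := by
    intro x y hx hxy n m hm
    obtain ⟨k, hk⟩ := hcls x y hxy n ⟨m, hm⟩
    exact hx n k hk
  have hZL : ∀ x ∈ Z, ∀ n, x ∉ L g (TT c g n) := by
    intro x hx n h
    obtain ⟨m, hm⟩ := hrefl x
    exact hx n m (by rw [hm]; exact h)
  refine ⟨Z, fun n => TT c g n ∩ Z, fun n => kap g (TT c g n), hZm, hZinv,
    fun n => (hTm n).inter hZm, fun n => kap_meas hg hcm hc (hTm n), ?_, ?_, ?_, ?_⟩
  · exact Set.univ_inter Z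
  · intro n x hx
    exact ⟨hx.1.1, hx.2⟩
  · rintro n x ⟨hx, hxZ⟩
    obtain ⟨h1, h2, h3, h4, h5⟩ := kap_props (E := E) hinv hgE hx (hZL x hxZ n)
    have h6 := nxt_iff (E := E) hinv hgE hc hx (hZL x hxZ n)
    have h7 : kap g (TT c g n) x ∈ Z := hZinv _ _ hxZ h4
    refine ⟨⟨h1, h7⟩, h3, h4, ?_⟩
    constructor
    · rintro ⟨h8, _⟩ ⟨h9, _⟩
      exact h6.1 h8 h9
    · intro h8
      exact ⟨h6.2 fun h9 => h8 ⟨h9, hxZ⟩, h7⟩
  · refine ⟨{x | ∃ n, x ∈ L g (TT c g n) ∧ ∀ k, k < n → ∀ m, g m x ∉ L g (TT c g k)}, ?_, ?_, ?_⟩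
    · have h : {x | ∃ n, x ∈ L g (TT c g n) ∧ ∀ k, k < n → ∀ m, g m x ∉ L g (TT c g k)} =
          ⋃ n, (L g (TT c g n) ∩ ⋂ k, ⋂ (_ : k < n), ⋂ m, ((g m) ⁻¹' (L g (TT c g k)))ᶜ) := by
        ext x
        simp
      rw [h]
      exact MeasurableSet.iUnion fun n => (hLm n).inter (MeasurableSet.iInter fun k =>
        MeasurableSet.iInter fun _ => MeasurableSet.iInter fun m => ((hg m) (hLm k)).compl)
    · rintro x ⟨n, hn, _⟩ hxZ
      exact hZL x hxZ n hn
    · intro x hx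
      have h1 : ∃ n, ∃ m, g m x ∈ L g (TT c g n) := by
        by_contra hcon
        push Not at hcon
        exact hx hcon
      obtain ⟨m, hm⟩ := Nat.find_spec h1
      refine ⟨g m x, ⟨⟨Nat.find h1, hm, fun k hk j hj => ?_⟩, (hgE _ _).2 ⟨m, rfl⟩⟩, ?_⟩
      · exact Nat.find_min h1 hk (hcls x (g m x) ((hgE _ _).2 ⟨m, rfl⟩) k ⟨j, hj⟩)
      · rintro y ⟨⟨n, hn, hmin⟩, hxy⟩
        have hyx : E y (g m x) := hE.trans (hE.symm hxy) ((hgE _ _).2 ⟨m, rfl⟩)
        have h2 : ∃ j, g j x ∈ L g (TT c g n) := by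
          obtain ⟨j, hj⟩ := (hgE x y).1 hxy
          exact ⟨j, by rw [hj]; exact hn⟩
        have h3 : Nat.find h1 = n := by
          apply le_antisymm (Nat.find_le h2)
          by_contra hlt
          push Not at hlt
          obtain ⟨j, hj⟩ := (hgE y (g m x)).1 hyx
          exact hmin _ hlt j (by rw [hj]; exact hm)
        rw [h3] at hm
        exact L_unique hgE hn hm hyx

end Pool.Agent.W_MP_daea50_h85
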