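import Pool.Agent.W_MP_daea50_h85.Defs

set_option autoImplicit false

/-!
# SB: Borel Schröder-Bernstein respecting a relation

Usual proof: `A' = ⋃ n, (g ∘ f)^n '' (A \ range g)` (Borel: images of Borel sets
under injective Borel maps between standard Borel spaces); `h = f` on `A'` and `h = g⁻¹` outside.
-/

namespace Pool.Agent.W_MP_daea50_h85

universe u v

theorem schroeder {A : Type u} {B : Type v} [MeasurableSpace A] [StandardBorelSpace A]
    [MeasurableSpace B] [StandardBorelSpace B] (R : A → B → Prop)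
    (f : A → B) (hf : Measurable f) (hfi : Function.Injective f)
    (g : B → A) (hg : Measurable g) (hgi : Function.Injective g)
    (hR1 : ∀ a, R a (f a)) (hR2 : ∀ b, R (g b) b) :
    ∃ h : A ≃ᵐ B, ∀ a, R a (h a) := by
  classical
  have hfe : MeasurableEmbedding f := hf.measurableEmbedding hfi
  have hge : MeasurableEmbedding g := hg.measurableEmbedding hgi
  have hgf : MeasurableEmbedding (g ∘ f) := hge.comp hfe
  -- the sets `X n = (g ∘ f)^n '' (range g)ᶜ`
  let X : ℕ → Set A := fun n => Nat.rec (Set.range g)ᶜ (fun _ s => (g ∘ f) '' s) n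
  have X0 : X 0 = (Set.range g)ᶜ := rfl
  have XS : ∀ n, X (n + 1) = (g ∘ f) '' X n := fun n => rfl
  have hXm : ∀ n, MeasurableSet (X n) := by
    intro n
    induction n with
    | zero => rw [X0]; exact hge.measurableSet_range.compl
    | succ n ih => rw [XS]; exact hgf.measurableSet_image.2 ih
  let S : Set A := ⋃ n, X n
  have hSm : MeasurableSet S := MeasurableSet.iUnion hXm
  have hS0 : ∀ a, a ∉ S → a ∈ Set.range g := by
    intro a ha
    by_contra hc
    exact ha (Set.mem_iUnion.2 ⟨0, hc⟩)
  have hSs : ∀ a, a ∈ S → g (f a) ∈ S := by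
    intro a ha
    obtain ⟨n, hn⟩ := Set.mem_iUnion.1 ha
    exact Set.mem_iUnion.2 ⟨n + 1, ⟨a, hn, rfl⟩⟩
  have hSp : ∀ b, g b ∈ S → ∃ a ∈ S, f a = b := by
    intro b hb
    obtain ⟨n, hn⟩ := Set.mem_iUnion.1 hb
    cases n with
    | zero => exact absurd ⟨b, rfl⟩ hn
    | succ n =>
      obtain ⟨a, ha, hab⟩ := hn
      exact ⟨a, Set.mem_iUnion.2 ⟨n, ha⟩, hgi hab⟩
  let h : A → B := fun a => if ha : a ∈ S then f a else (hS0 a ha).choose
  have h1 : ∀ a, a ∈ S → h a = f a := fun a ha => by simp only [h, dif_pos ha]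
  have h2 : ∀ a, a ∉ S → g (h a) = a := fun a ha => by
    simp only [h, dif_neg ha]
    exact (hS0 a ha).choose_spec
  have hinj : Function.Injective h := by
    intro a a' haa
    by_cases ha : a ∈ S
    · by_cases ha' : a' ∈ S
      · rw [h1 a ha, h1 a' ha'] at haa
        exact hfi haa
      · exfalso
        apply ha'
        rw [← h2 a' ha', ← haa, h1 a ha]
        exact hSs a ha
    · by_cases ha' : a' ∈ S
      · exfalso
        apply ha
        rw [← h2 a ha, haa, h1 a' ha']
        exact hSs a' ha'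
      · rw [← h2 a ha, ← h2 a' ha', haa]
  have hsurj : Function.Surjective h := by
    intro b
    by_cases hb : g b ∈ S
    · obtain ⟨a, ha, hab⟩ := hSp b hb
      exact ⟨a, (h1 a ha).trans hab⟩
    · exact ⟨g b, hgi (h2 (g b) hb)⟩
  have hm : Measurable h := by
    intro T hT
    have : h ⁻¹' T = (S ∩ f ⁻¹' T) ∪ (Sᶜ ∩ g '' T) := by
      ext a
      by_cases ha : a ∈ S
      · simp [ha, h1 a ha]
      · have e : g (h a) = a := h2 a ha
        constructor
        · intro hT'
          exact Or.inr ⟨ha, ⟨h a, hT', e⟩⟩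
        · rintro (h' | h')
          · exact absurd h'.1 ha
          · obtain ⟨b, hb, hba⟩ := h'.2
            have : h a = b := hgi (by rw [e, hba])
            show h a ∈ T
            rw [this]; exact hb
    rw [this]
    exact (hSm.inter (hf hT)).union (hSm.compl.inter (hge.measurableSet_image.2 hT))
  have hhe : MeasurableEmbedding h := hm.measurableEmbedding hinj
  refine ⟨⟨Equiv.ofBijective h ⟨hinj, hsurj⟩, hm, ?_⟩, ?_⟩
  · intro T hT
    have : (Equiv.ofBijective h ⟨hinj, hsurj⟩).symm ⁻¹' T = h '' T := by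
      ext b
      constructor
      · intro hb
        exact ⟨_, hb, (Equiv.ofBijective h ⟨hinj, hsurj⟩).apply_symm_apply b⟩
      · rintro ⟨a, ha, rfl⟩
        show (Equiv.ofBijective h ⟨hinj, hsurj⟩).symm ((Equiv.ofBijective h ⟨hinj, hsurj⟩) a) ∈ T
        rw [Equiv.symm_apply_apply]
        exact ha
    rw [this]
    exact hhe.measurableSet_image.2 hT
  · intro a
    show R a (h a)
    by_cases ha : a ∈ S
    · rw [h1 a ha]; exact hR1 a
    · have := hR2 (h a)
      rwa [h2 a ha] at this

end Pool.Agent.W_MP_daea50_h85
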