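import Pool.Agent.W_MP_daea50_h85.SB
import Pool.Agent.W_MP_daea50_h85.CPa

set_option autoImplicit false

/-!
# SPa: the part equivalent to `{z | InfZ z}`

`B = {x | ∃ z, InfZ z ∧ E x (ψ z)}` is Borel: `ψ '' {z | InfZ z}` is Borel (injective image) and `B` is the
union of its preimages under the `g n`.
`schroeder` between `B` and `G = {z // InfZ z}` for `R x z := E x (ψ z)`:
* `G → B`: `z ↦ ψ z`.
* `B → G`: `x ↦ k (ψ⁻¹ (g i x)) i`, with `i` the least `i` such that `g i x ∈ ψ '' {z | InfZ z}`, where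
  `k : G → ℕ → G` is the injection given by `compress` for the canonical bit structure
  `BitOn Tail univ id (fun n v z => spl n v z)` on `ℕ → Bool` (prove it is a `BitOn`).
-/

namespace Pool.Agent.W_MP_daea50_h85

universe u

theorem bitOn_tail : BitOn Tail (Set.univ : Set (ℕ → Bool)) id (fun n v z => spl n v z) where
  zmeas := MeasurableSet.univ
  inv := fun _ _ _ _ => Set.mem_univ _
  pi_meas := measurable_id
  rep_meas := by
    intro n v
    rw [measurable_pi_iff]
    intro i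
    by_cases h : i < n
    · have : (fun x : ℕ → Bool => spl n v x i) = fun _ => v i := by
        funext x
        exact spl_lt v x h
      rw [this]
      exact measurable_const
    · have : (fun x : ℕ → Bool => spl n v x i) = fun x => x i := by
        funext x
        exact spl_ge v x (Nat.not_lt.1 h)
      rw [this]
      exact measurable_pi_apply i
  rep_congr := by
    intro n u v y h
    funext i
    by_cases hi : i < n
    · rw [spl_lt _ _ hi, spl_lt _ _ hi, h i hi]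
    · rw [spl_ge _ _ (Nat.not_lt.1 hi), spl_ge _ _ (Nat.not_lt.1 hi)]
  rep_E := fun n v y _ => tail_spl n v y
  pi_rep := fun _ _ _ _ => rfl
  rep_pi := by
    intro n y _
    funext i
    by_cases hi : i < n
    · rw [spl_lt _ _ hi]
      rfl
    · rw [spl_ge _ _ (Nat.not_lt.1 hi)]
  rep_rep := by
    intro n m hnm u v y _
    funext i
    by_cases hi : i < m
    · rw [spl_lt _ _ hi, spl_lt _ _ hi]
    · have hi' := Nat.not_lt.1 hi
      rw [spl_ge _ _ hi', spl_ge _ _ hi', spl_ge _ _ (hnm.trans hi')]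

theorem spa_measurableSet_image {X : Type u} [MeasurableSpace X] [StandardBorelSpace X]
    (g : X → X) (hg : Measurable g)
    (ψ : (ℕ → Bool) → X) (hψ : Measurable ψ) (hψi : Function.Injective ψ) :
    MeasurableSet {x : X | ∃ z, InfZ z ∧ g x = ψ z} := by
  have h1 : MeasurableSet (ψ '' {z | InfZ z}) :=
    measurableSet_InfZ.image_of_measurable_injOn hψ hψi.injOn
  have h2 : {x : X | ∃ z, InfZ z ∧ g x = ψ z} = g ⁻¹' (ψ '' {z | InfZ z}) := by
    ext x
    constructor
    · rintro ⟨z, hz, h⟩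
      exact ⟨z, hz, h.symm⟩
    · rintro ⟨z, hz, h⟩
      exact ⟨z, hz, h.symm⟩
  rw [h2]
  exact hg h1

theorem measurableSet_hyp {X : Type u} [MeasurableSpace X] [StandardBorelSpace X]
    (E : X → X → Prop) (hE : Equivalence E) (g : ℕ → X → X) (hg : ∀ n, Measurable (g n))
    (hinv : ∀ n x, g n (g n x) = x) (hgE : ∀ x y, E x y ↔ ∃ n, g n x = y)
    (ψ : (ℕ → Bool) → X) (hψ : Measurable ψ) (hψi : Function.Injective ψ) :
    MeasurableSet {x : X | ∃ z, InfZ z ∧ E x (ψ z)} := by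
  have h1 : {x : X | ∃ z, InfZ z ∧ E x (ψ z)} = ⋃ n, {x : X | ∃ z, InfZ z ∧ g n x = ψ z} := by
    ext x
    simp only [Set.mem_ofPred_eq, Set.mem_iUnion]
    constructor
    · rintro ⟨z, hz, h⟩
      obtain ⟨n, hn⟩ := (hgE x (ψ z)).1 h
      exact ⟨n, z, hz, hn⟩
    · rintro ⟨n, z, hz, h⟩
      exact ⟨z, hz, (hgE x (ψ z)).2 ⟨n, h⟩⟩
  rw [h1]
  exact MeasurableSet.iUnion fun n => spa_measurableSet_image (g n) (hg n) ψ hψ hψi

theorem exists_hyp_equiv {X : Type u} [MeasurableSpace X] [StandardBorelSpace X]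
    (E : X → X → Prop) (hE : Equivalence E) (g : ℕ → X → X) (hg : ∀ n, Measurable (g n))
    (hinv : ∀ n x, g n (g n x) = x) (hgE : ∀ x y, E x y ↔ ∃ n, g n x = y)
    (ψ : (ℕ → Bool) → X) (hψ : Measurable ψ) (hψi : Function.Injective ψ)
    (hψE : ∀ z w, E (ψ z) (ψ w) ↔ Tail z w) :
    ∃ h : {x : X // ∃ z, InfZ z ∧ E x (ψ z)} ≃ᵐ {z : ℕ → Bool // InfZ z},
      ∀ x, E x.1 (ψ (h x).1) := by
  classical
  haveI hB : StandardBorelSpace {x : X // ∃ z, InfZ z ∧ E x (ψ z)} :=
    (measurableSet_hyp E hE g hg hinv hgE ψ hψ hψi).standardBorel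
  haveI hG : StandardBorelSpace {z : ℕ → Bool // InfZ z} := measurableSet_InfZ.standardBorel
  obtain ⟨k, hkm, hk1, hk2⟩ := compress bitOn_tail
  obtain ⟨ρ, hρm, hρ⟩ := (hψ.measurableEmbedding hψi).exists_measurable_extend
    (measurable_id (α := ℕ → Bool)) (fun _ => ⟨fun _ => false⟩)
  have hρ' : ∀ z, ρ (ψ z) = z := fun z => congrFun hρ z
  have hex : ∀ x : {x : X // ∃ z, InfZ z ∧ E x (ψ z)}, ∃ n, ∃ z, InfZ z ∧ g n x.1 = ψ z := by
    rintro ⟨x, z, hz, h⟩
    obtain ⟨n, hn⟩ := (hgE x (ψ z)).1 h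
    exact ⟨n, z, hz, hn⟩
  have hsm : Measurable fun x => Nat.find (hex x) := by
    refine measurable_find hex fun n => ?_
    exact measurable_subtype_coe (spa_measurableSet_image (g n) (hg n) ψ hψ hψi)
  have hFm : Measurable fun q : ℕ × {x : X // ∃ z, InfZ z ∧ E x (ψ z)} =>
      k (ρ (g q.1 q.2.1)) q.1 := by
    refine measurable_from_prod_countable_right fun n => ?_
    exact (hkm n).comp (hρm.comp ((hg n).comp measurable_subtype_coe))
  have hfm : Measurable fun x : {x : X // ∃ z, InfZ z ∧ E x (ψ z)} =>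
      k (ρ (g (Nat.find (hex x)) x.1)) (Nat.find (hex x)) :=
    hFm.comp (hsm.prodMk measurable_id)
  have hspec : ∀ x : {x : X // ∃ z, InfZ z ∧ E x (ψ z)},
      InfZ (ρ (g (Nat.find (hex x)) x.1)) ∧
        g (Nat.find (hex x)) x.1 = ψ (ρ (g (Nat.find (hex x)) x.1)) := by
    intro x
    obtain ⟨z, hz, h⟩ := Nat.find_spec (hex x)
    rw [h, hρ']
    exact ⟨hz, rfl⟩
  have hk : ∀ (z : ℕ → Bool), InfZ z → ∀ i, InfZ (k z i) ∧ Tail z (k z i) := by
    intro z hz i
    have := hk1 z (Set.mem_univ _) hz i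
    exact ⟨this.2.1, this.2.2⟩
  refine schroeder (fun (x : {x : X // ∃ z, InfZ z ∧ E x (ψ z)}) (z : {z : ℕ → Bool // InfZ z}) =>
      E x.1 (ψ z.1))
    (fun x => ⟨k (ρ (g (Nat.find (hex x)) x.1)) (Nat.find (hex x)), (hk _ (hspec x).1 _).1⟩)
    (hfm.subtype_mk) ?_
    (fun z => ⟨ψ z.1, z.1, z.2, hE.refl _⟩) (hψ.comp measurable_subtype_coe).subtype_mk ?_ ?_ ?_
  · intro x y hxy
    have h1 := congrArg Subtype.val hxy
    obtain ⟨h2, h3⟩ := hk2 _ (Set.mem_univ _) _ (Set.mem_univ _) (hspec x).1 (hspec y).1 _ _ h1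
    have h4 : g (Nat.find (hex x)) x.1 = g (Nat.find (hex y)) y.1 := by
      rw [(hspec x).2, (hspec y).2, h2]
    apply Subtype.ext
    rw [← hinv (Nat.find (hex x)) x.1, h4, h3, hinv]
  · intro z w h
    have h1 := congrArg Subtype.val h
    exact Subtype.ext (hψi h1)
  · intro x
    have h1 : E x.1 (ψ (ρ (g (Nat.find (hex x)) x.1))) :=
      (hgE _ _).2 ⟨Nat.find (hex x), (hspec x).2⟩
    exact hE.trans h1 ((hψE _ _).2 (hk _ (hspec x).1 _).2)
  · intro z
    exact hE.refl _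

end Pool.Agent.W_MP_daea50_h85
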